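import Pool.Agent.H622R3.SM.Model

set_option autoImplicit false

/-!
# Planar lattice networks

The machine model (`Alg`, `run`, `start`, `PolyControl`, `OracleFree`) is the one of
`Pool/Agent/H622R3/SM/Model.lean`. This file defines strongly polynomial algorithms for a class of
systems `A x ≥ b`, and the class of planar lattice networks.
-/

namespace Pool.Agent.Y592.LN

open Pool.Agent.NPC Pool.Agent.NPC.ER Pool.Agent.H558R2 Pool.Agent.H622R3.SM

/-- A class of real systems `A x ≥ b`. -/
abbrev SysClass : Type := ∀ m n : ℕ, Matrix (Fin m) (Fin n) ℝ → (Fin m → ℝ) → Prop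

/-- The class of all systems. -/
def All : SysClass := fun _ _ _ _ => True

/-- `α` decides, for the systems `A x ≥ b` of the class `C`, whether there is a solution, in
strongly polynomial time: after at most `p (m + n)` elementary steps, never dividing by zero, and
on rational systems of encoding length `L` all numbers computed are rational numbers of encoding
length at most `p L`. -/
def StronglyPolynomialOn (C : SysClass) (α : Alg) : Prop :=
  ∃ p : Polynomial ℕ, ∀ m n : ℕ, 1 ≤ m → 1 ≤ n →
    (∀ (A : Matrix (Fin m) (Fin n) ℝ) (b : Fin m → ℝ), C m n A b → ∃ ans nums steps,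
      run ∅ (α m n) (p.eval (m + n)) [] (start A b) = some (ans, nums, steps) ∧
      (ans = true ↔ ∃ x : Fin n → ℝ, b ≤ A.mulVec x) ∧ steps ≤ p.eval (m + n)) ∧
    (∀ (A : Matrix (Fin m) (Fin n) ℚ) (b : Fin m → ℚ),
      C m n (fun i j => ((A i j : ℚ) : ℝ)) (fun i => ((b i : ℚ) : ℝ)) →
      ∀ (k : ℕ) (ans : Bool) (nums : List ℝ) (steps : ℕ),
      run ∅ (α m n) k [] (start (fun i j => ((A i j : ℚ) : ℝ)) (fun i => ((b i : ℚ) : ℝ))) =
        some (ans, nums, steps) →
      ∀ v ∈ nums, ∃ q : ℚ, (q : ℝ) = v ∧ bitLength q ≤ p.eval (inputLength A b))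

/-- There is a strongly polynomial algorithm for the class `C`: its control is computed in
polynomial time by a Turing machine, and it never asks an oracle. -/
def HasStronglyPolynomial (C : SysClass) : Prop :=
  ∃ α : Alg, PolyControl α ∧ OracleFree α ∧ StronglyPolynomialOn C α

/-- There is an algorithm which decides, for the systems `A x ≥ b` of the class `C`, whether there
is a solution, after at most `p (m + n)` elementary steps, `p` a polynomial (without any condition
on the numbers computed). -/
def HasRealPolynomial (C : SysClass) : Prop :=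
  ∃ α : Alg, PolyControl α ∧ OracleFree α ∧ ∃ p : Polynomial ℕ, ∀ m n : ℕ, 1 ≤ m → 1 ≤ n →
    ∀ (A : Matrix (Fin m) (Fin n) ℝ) (b : Fin m → ℝ), C m n A b → ∃ ans nums steps,
      run ∅ (α m n) (p.eval (m + n)) [] (start A b) = some (ans, nums, steps) ∧
      (ans = true ↔ ∃ x : Fin n → ℝ, b ≤ A.mulVec x) ∧ steps ≤ p.eval (m + n)

/-- The left-hand side of one of the equations `u = c v` (with `|c - 1| ≤ ε`) and `u = v + w`, for
different variables `u`, `v`, `w`, in the form `… = 0`. -/
def IsEquation {n : ℕ} (ε : ℝ) (a : Fin n → ℝ) : Prop :=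
  (∃ u v c, u ≠ v ∧ |c - 1| ≤ ε ∧ a = Pi.single u 1 - Pi.single v c) ∨
  (∃ u v w, u ≠ v ∧ u ≠ w ∧ v ≠ w ∧ a = Pi.single u 1 - Pi.single v 1 - Pi.single w 1)

/-- The variables of the `i`-th constraint. -/
def vars {m n : ℕ} (A : Matrix (Fin m) (Fin n) ℝ) (i : Fin m) : Set (Fin n) := {j | A i j ≠ 0}

/-- The lattice points at which there are constraints with at least two variables, one of them
being the variable `j`. -/
def sites {m n : ℕ} (A : Matrix (Fin m) (Fin n) ℝ) (p : Fin m → ℤ × ℤ) (j : Fin n) :
    Set (ℤ × ℤ) := {s | ∃ i, p i = s ∧ 2 ≤ (vars A i).ncard ∧ j ∈ vars A i}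

/-- The system `A x ≥ b` is a planar lattice network with gains in `[1 - ε, 1 + ε]`, its
constraints (rows of `A`) being placed at the points `p i` and its variables (columns of `A`) at
the points `q j` of the square lattice. -/
structure IsNetwork {m n : ℕ} (ε : ℝ) (A : Matrix (Fin m) (Fin n) ℝ) (b : Fin m → ℝ)
    (p : Fin m → ℤ × ℤ) (q : Fin n → ℤ × ℤ) : Prop where
  /-- every row is `u ≥ 0` or `u ≥ 1` for a variable `u`, or one of the two inequalities of an
  equation `u = c v` with `|c - 1| ≤ ε` or `u = v + w`, the other one being placed at the same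
  point -/
  rows : ∀ i, (∃ u, A i = Pi.single u 1 ∧ (b i = 0 ∨ b i = 1)) ∨
    (b i = 0 ∧ (IsEquation ε (A i) ∨ IsEquation ε (-(A i))) ∧
      ∃ i', p i' = p i ∧ A i' = -(A i) ∧ b i' = 0)
  /-- every variable is nonnegative -/
  nonneg : ∀ j, ∃ i, A i = Pi.single j 1 ∧ (b i = 0 ∨ b i = 1)
  /-- there is at most one inequality `u ≥ 1` -/
  one : ∀ i i', b i ≠ 0 → b i' ≠ 0 → i = i'
  /-- variables are placed at different points -/
  inj : Function.Injective q
  /-- variables are placed at even points -/
  even : ∀ j, Even ((q j).1 + (q j).2)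
  /-- constraints are placed at odd points -/
  odd : ∀ i, Odd ((p i).1 + (p i).2)
  /-- at most one equation is placed at a point -/
  single : ∀ i i', 2 ≤ (vars A i).ncard → 2 ≤ (vars A i').ncard → p i = p i' →
    A i' = A i ∨ A i' = -(A i)
  /-- the variables of an equation are placed next to it -/
  adjacent : ∀ i j, 2 ≤ (vars A i).ncard → j ∈ vars A i →
    |(p i).1 - (q j).1| + |(p i).2 - (q j).2| = 1
  /-- every variable occurs in at most three equations -/
  three : ∀ j, (sites A p j).ncard ≤ 3
  /-- every variable of an equation `u = v + w` occurs in at most two equations -/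
  two : ∀ i j, 3 ≤ (vars A i).ncard → j ∈ vars A i → (sites A p j).ncard ≤ 2
  /-- every variable occurs in at most one equation with a coefficient other than `0`, `1`, `-1` -/
  gain : ∀ j, {s | ∃ i, p i = s ∧ j ∈ vars A i ∧ ∃ j' ∈ vars A i, |A i j'| ≠ 1}.ncard ≤ 1

/-- The class of planar lattice networks with gains in `[1 - ε, 1 + ε]`. -/
def LatticeNetwork (ε : ℝ) : SysClass := fun _ _ A b => ∃ p q, IsNetwork ε A b p q

/-- There are straight-line programs `P m n` over the reals, computed in polynomial time by a Turing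
machine and of length at most `c m n`, which transform every real system `A x ≥ b` with `m`
inequalities and `n` variables into a planar lattice network with gains in `[1 - ε, 1 + ε]`, with at
most `1000 m n` constraints and variables, which is solvable if and only if the given system is. -/
def StraightLineReduction (ε : ℝ) : Prop :=
  ∃ (c : ℕ) (M N : ℕ → ℕ → ℕ) (P : ℕ → ℕ → List Instr),
    Computed (fun p : List Unit × List Unit => P p.1.length p.2.length) ∧
    ∀ m n : ℕ, 1 ≤ m → 1 ≤ n →
      M m n ≤ 1000 * (m * n) ∧ N m n ≤ 1000 * (m * n) ∧ (P m n).length ≤ c * (m * n) ∧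
      ∀ (A : Matrix (Fin m) (Fin n) ℝ) (b : Fin m → ℝ),
        ∃ (ρ : Reg → ℝ) (l : List ℝ) (A' : Matrix (Fin (M m n)) (Fin (N m n)) ℝ)
          (b' : Fin (M m n) → ℝ),
          exec (P m n) (start A b) = some (ρ, l) ∧ (∀ r, ρ (9 :: 9 :: r) = start A' b' r) ∧
          LatticeNetwork ε (M m n) (N m n) A' b' ∧
          ((∃ y : Fin (N m n) → ℝ, b' ≤ A'.mulVec y) ↔ ∃ x : Fin n → ℝ, b ≤ A.mulVec x)

end Pool.Agent.Y592.LN
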