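import Pool.Agent.Y592.LN.Mach

set_option autoImplicit false

/-!
# Execution of blocks, and encoding lengths
-/

namespace Pool.Agent.Y592.LN

open Pool.Agent.NPC Pool.Agent.NPC.ER Pool.Agent.NPC.H612 Pool.Agent.H558R2 Pool.Agent.H622R3.SM

/-- From every store which agrees with `V` on `S`, the program `P` computes the values `V`, and the
final store agrees with `V` on `S'`. -/
def Tr (V : Reg → ℝ) (S : Set Reg) (P : List Instr) (S' : Set Reg) : Prop :=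
  ∀ ρ : Reg → ℝ, (∀ r ∈ S, ρ r = V r) →
    ∃ ρ', exec P ρ = some (ρ', P.map fun I => V I.dst) ∧ ∀ r ∈ S', ρ' r = V r

theorem exec_block (V : Reg → ℝ) (P : List Instr) : ∀ ρ : Reg → ℝ,
    (∀ I ∈ P, ρ I.fst = V I.fst ∧ ρ I.snd = V I.snd ∧
      V I.dst = I.op.eval (V I.fst) (V I.snd) ∧ (I.op = Op.div → V I.snd ≠ 0)) →
    ∃ ρ', exec P ρ = some (ρ', P.map fun I => V I.dst) ∧ (∀ r, ρ r = V r → ρ' r = V r) ∧
      ∀ I ∈ P, ρ' I.dst = V I.dst := by
  induction P with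
  | nil =>
    intro ρ _
    exact ⟨ρ, rfl, fun r hr => hr, fun I hI => absurd hI List.not_mem_nil⟩
  | cons I P ih =>
    intro ρ hP
    obtain ⟨h1, h2, h3, h4⟩ := hP I List.mem_cons_self
    have hval : I.op.eval (ρ I.fst) (ρ I.snd) = V I.dst := by rw [h1, h2, h3]
    have hkeep : ∀ r, ρ r = V r → Function.update ρ I.dst (V I.dst) r = V r := by
      intro r hr
      by_cases h : r = I.dst
      · subst h
        rw [Function.update_self]
      · rw [Function.update_of_ne h, hr]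
    obtain ⟨ρ', e1, e2, e3⟩ := ih (Function.update ρ I.dst (V I.dst)) (fun J hJ => by
      obtain ⟨a1, a2, a3, a4⟩ := hP J (List.mem_cons_of_mem _ hJ)
      exact ⟨hkeep _ a1, hkeep _ a2, a3, a4⟩)
    refine ⟨ρ', ?_, fun r hr => e2 r (hkeep r hr), ?_⟩
    · have hno : ¬ (I.op = Op.div ∧ ρ I.snd = 0) := by
        rintro ⟨ha, hb⟩
        rw [h2] at hb
        exact h4 ha hb
      rw [exec, if_neg hno, hval, e1]
      rfl
    · intro J hJ
      rcases List.mem_cons.1 hJ with rfl | hJ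
      · exact e2 _ (by rw [Function.update_self])
      · exact e3 J hJ

theorem Tr.block {V : Reg → ℝ} {S S' : Set Reg} {P : List Instr}
    (hP : ∀ I ∈ P, I.fst ∈ S ∧ I.snd ∈ S ∧
      V I.dst = I.op.eval (V I.fst) (V I.snd) ∧ (I.op = Op.div → V I.snd ≠ 0))
    (hS' : ∀ r ∈ S', r ∈ S ∨ ∃ I ∈ P, r = I.dst) : Tr V S P S' := by
  intro ρ hρ
  obtain ⟨ρ', e1, e2, e3⟩ := exec_block V P ρ (fun I hI => by
    obtain ⟨a1, a2, a3, a4⟩ := hP I hI
    exact ⟨hρ _ a1, hρ _ a2, a3, a4⟩)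
  refine ⟨ρ', e1, fun r hr => ?_⟩
  rcases hS' r hr with h | ⟨I, hI, rfl⟩
  · exact e2 r (hρ r h)
  · exact e3 I hI

theorem Tr.append {V : Reg → ℝ} {S S' S'' : Set Reg} {P Q : List Instr} (h1 : Tr V S P S')
    (h2 : Tr V S' Q S'') : Tr V S (P ++ Q) S'' := by
  intro ρ hρ
  obtain ⟨ρ', e1, e2⟩ := h1 ρ hρ
  obtain ⟨ρ'', e3, e4⟩ := h2 ρ' e2
  refine ⟨ρ'', ?_, e4⟩
  rw [TELIM.exec_append P Q ρ ρ' _ e1, e3]
  simp

theorem Tr.nil (V : Reg → ℝ) (S : Set Reg) : Tr V S [] S := fun ρ hρ => ⟨ρ, rfl, hρ⟩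

theorem Tr.range {V : Reg → ℝ} {S : ℕ → Set Reg} {P : ℕ → List Instr} (n : ℕ)
    (h : ∀ k < n, Tr V (S k) (P k) (S (k + 1))) : Tr V (S 0) ((List.range n).flatMap P) (S n) := by
  induction n with
  | zero => exact Tr.nil V (S 0)
  | succ n ih =>
    rw [List.range_succ, List.flatMap_append, List.flatMap_singleton]
    exact (ih fun k hk => h k (by omega)).append (h n (by omega))

/-! ### Heights of rational numbers -/

/-- `v` is a rational number with numerator and denominator below `2 ^ h` -/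
def Hb (h : ℕ) (v : ℝ) : Prop := ∃ q : ℚ, (q : ℝ) = v ∧ q.num.natAbs < 2 ^ h ∧ q.den < 2 ^ h

theorem Hb.mono {h h' : ℕ} {v : ℝ} (hv : Hb h v) (hh : h ≤ h') : Hb h' v := by
  obtain ⟨q, h1, h2, h3⟩ := hv
  have h4 : 2 ^ h ≤ 2 ^ h' := Nat.pow_le_pow_right (by norm_num) hh
  exact ⟨q, h1, by omega, by omega⟩

theorem Hb.toRb {h : ℕ} {v : ℝ} (hv : Hb h v) : Rb (2 * h + 1) v := by
  obtain ⟨q, h1, h2, h3⟩ := hv
  refine ⟨q, h1, ?_⟩
  have h4 := Nat.size_le.2 h2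
  have h5 := Nat.size_le.2 h3
  unfold bitLength
  omega

theorem Rb.mono {h h' : ℕ} {v : ℝ} (hv : Rb h v) (hh : h ≤ h') : Rb h' v := by
  obtain ⟨q, h1, h2⟩ := hv
  exact ⟨q, h1, by omega⟩

theorem Hb.of_bitLength (q : ℚ) : Hb (bitLength q) (q : ℝ) := by
  refine ⟨q, rfl, ?_, ?_⟩
  · exact Nat.size_le.1 (by unfold bitLength; omega)
  · exact Nat.size_le.1 (by unfold bitLength; omega)

/-- numerator and denominator of a fraction are at most the given ones -/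
theorem hb_frac {h : ℕ} {v : ℝ} (a b : ℤ) (hb : b ≠ 0) (hv : v = (a : ℝ) / (b : ℝ))
    (ha' : a.natAbs < 2 ^ h) (hb' : b.natAbs < 2 ^ h) : Hb h v := by
  refine ⟨(a : ℚ) / (b : ℚ), by rw [hv]; push_cast; rfl, ?_, ?_⟩
  · have h1 : ((a : ℚ) / (b : ℚ)).num ∣ a := by
      rw [← Rat.divInt_eq_div]
      exact Rat.num_dvd a hb
    by_cases ha : a = 0
    · subst ha
      simp
    · have h2 := Int.natAbs_dvd_natAbs.2 h1
      have h3 := Nat.le_of_dvd (Int.natAbs_pos.2 ha) h2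
      omega
  · have h1 : ((((a : ℚ) / (b : ℚ)).den : ℕ) : ℤ) ∣ b := by
      rw [← Rat.divInt_eq_div]
      exact Rat.den_dvd a b
    have h2 := Int.natAbs_dvd_natAbs.2 h1
    rw [Int.natAbs_natCast] at h2
    have h3 := Nat.le_of_dvd (Int.natAbs_pos.2 hb) h2
    omega

theorem Hb.mul {h k : ℕ} {u v : ℝ} (hu : Hb h u) (hv : Hb k v) : Hb (h + k) (u * v) := by
  obtain ⟨p, rfl, h2, h3⟩ := hu
  obtain ⟨q, rfl, h5, h6⟩ := hv
  refine hb_frac (p.num * q.num) ((p.den : ℤ) * (q.den : ℤ)) (by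
    have := p.den_ne_zero; have := q.den_ne_zero; positivity) ?_ ?_ ?_
  · have e1 : (p : ℝ) = (p.num : ℝ) / (p.den : ℝ) := by exact_mod_cast (Rat.num_div_den p).symm
    have e2 : (q : ℝ) = (q.num : ℝ) / (q.den : ℝ) := by exact_mod_cast (Rat.num_div_den q).symm
    rw [e1, e2, div_mul_div_comm]
    push_cast
    rfl
  · rw [Int.natAbs_mul, pow_add]
    exact Nat.mul_lt_mul'' h2 h5
  · rw [Int.natAbs_mul, Int.natAbs_natCast, Int.natAbs_natCast, pow_add]
    exact Nat.mul_lt_mul'' h3 h6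

theorem Hb.inv {h : ℕ} {v : ℝ} (hv : Hb h v) (hh : 1 ≤ h) : Hb h v⁻¹ := by
  obtain ⟨q, rfl, h5, h6⟩ := hv
  by_cases hq : q = 0
  · subst hq
    refine ⟨0, by simp, by simp, ?_⟩
    simpa using Nat.one_lt_two_pow (by omega)
  · refine hb_frac (q.den : ℤ) q.num (Rat.num_ne_zero.2 hq) ?_ ?_ ?_
    · have e2 : (q : ℝ) = (q.num : ℝ) / (q.den : ℝ) := by exact_mod_cast (Rat.num_div_den q).symm
      rw [e2, inv_div]
      push_cast
      rfl
    · rw [Int.natAbs_natCast]; exact h6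
    · exact h5

theorem Hb.div {h k : ℕ} {u v : ℝ} (hu : Hb h u) (hv : Hb k v) (hk : 1 ≤ k) :
    Hb (h + k) (u / v) := by
  rw [div_eq_mul_inv]
  exact hu.mul (hv.inv hk)

theorem Hb.add {h k : ℕ} {u v : ℝ} (hu : Hb h u) (hv : Hb k v) : Hb (h + k + 1) (u + v) := by
  obtain ⟨p, rfl, h2, h3⟩ := hu
  obtain ⟨q, rfl, h5, h6⟩ := hv
  refine hb_frac (p.num * q.den + q.num * p.den) ((p.den : ℤ) * (q.den : ℤ)) (by
    have := p.den_ne_zero; have := q.den_ne_zero; positivity) ?_ ?_ ?_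
  · have e1 : (p : ℝ) = (p.num : ℝ) / (p.den : ℝ) := by exact_mod_cast (Rat.num_div_den p).symm
    have e2 : (q : ℝ) = (q.num : ℝ) / (q.den : ℝ) := by exact_mod_cast (Rat.num_div_den q).symm
    have e3 : (p.den : ℝ) ≠ 0 := by exact_mod_cast p.den_ne_zero
    have e4 : (q.den : ℝ) ≠ 0 := by exact_mod_cast q.den_ne_zero
    rw [e1, e2]
    push_cast
    field_simp
  · have e1 : (p.num * q.den).natAbs < 2 ^ (h + k) := by
      rw [Int.natAbs_mul, Int.natAbs_natCast, pow_add]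
      exact Nat.mul_lt_mul'' h2 h6
    have e2 : (q.num * p.den).natAbs < 2 ^ (h + k) := by
      rw [Int.natAbs_mul, Int.natAbs_natCast, pow_add, mul_comm (2 ^ h)]
      exact Nat.mul_lt_mul'' h5 h3
    have e3 := Int.natAbs_add_le (p.num * q.den) (q.num * p.den)
    rw [pow_succ]
    omega
  · rw [Int.natAbs_mul, Int.natAbs_natCast, Int.natAbs_natCast, pow_succ, pow_add]
    have := Nat.mul_lt_mul'' h3 h6
    omega

theorem Hb.neg {h : ℕ} {v : ℝ} (hv : Hb h v) : Hb h (-v) := by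
  obtain ⟨q, rfl, h5, h6⟩ := hv
  exact ⟨-q, by push_cast; rfl, by simpa using h5, by simpa using h6⟩

theorem Hb.sub {h k : ℕ} {u v : ℝ} (hu : Hb h u) (hv : Hb k v) : Hb (h + k + 1) (u - v) := by
  rw [sub_eq_add_neg]
  exact hu.add hv.neg

theorem Hb.zero : Hb 1 0 := ⟨0, by simp, by simp, by simp⟩

theorem Hb.one : Hb 1 1 := ⟨1, by simp, by simp, by simp⟩

theorem Hb.nat (n : ℕ) : Hb (n + 1) (n : ℝ) := by
  refine ⟨n, by simp, ?_, ?_⟩
  · have : n < 2 ^ (n + 1) := lt_trans Nat.lt_two_pow_self (Nat.pow_lt_pow_right (by norm_num) (by omega))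
    simpa using this
  · simp

end Pool.Agent.Y592.LN
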