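import Pool.Agent.Y592.LN.Norm2

set_option autoImplicit false

/-!
# The lattice: cells and equations
-/

namespace Pool.Agent.Y592.LN

open Pool.Agent.NPC Pool.Agent.NPC.ER Pool.Agent.NPC.H612 Pool.Agent.H558R2 Pool.Agent.H622R3.SM

/-- the equations inside a cell, for the five kinds of cells -/
def locT : List (List (List (ℕ × Bool))) :=
  [[[(0, true), (1, false)], [(2, true), (6, false), (1, false)], [(2, true), (3, false)],
    [(3, true), (4, false)], [(4, true), (10, false), (5, false)], [(0, true), (5, false)],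
    [(6, true), (7, false)], [(8, true), (7, false)], [(9, true), (11, false), (8, false)],
    [(3, true), (9, false)]],
   [[], [], [], [(3, true), (4, false)], [(4, true), (10, false)], [], [], [],
    [(9, true), (11, false)], [(3, true), (9, false)]],
   [[], [], [], [], [], [], [], [(8, true), (7, false)], [(8, true), (11, false)], []],
   [[], [], [], [], [(5, true), (10, false), (4, false)], [(0, true), (5, false)], [], [], [], []],
   [[(0, true), (1, false)], [(1, true), (6, false)], [], [], [], [], [(6, true), (7, false)], [],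
    [], []]]

/-- the equation at the point `k` of a cell of kind `kd` -/
def loc (kd k : ℕ) : List (ℕ × Bool) := (locT.getD kd []).getD k []

/-- kind of the cell `t` -/
def kind (W t : ℕ) : ℕ :=
  if t % W = 0 then (if t / W % 2 = 0 then 1 else 2)
  else if t % W + 1 = W then (if t / W % 2 = 0 then 3 else 4) else 0

/-- the register of the gain of the cell `t` -/
def gr (W t : ℕ) : Reg :=
  if kind W t = 0 ∧ t / W % 2 = (t % W - 1) % 2 then [0, t / W / 2, (t % W - 1) / 2] else [3]

/-- local equations -/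
def eqsL (kd k t : ℕ) (g : Reg) : List (ℕ × Reg × Reg) :=
  (loc kd k).map fun e => (12 * t + e.1,
    if e.2 = true then [2] else (if k = 7 then g else [3]), if e.2 = true then [3] else [2])

/-- the equation at the point `k` of the cell `t` -/
def eqs (W T t k : ℕ) : List (ℕ × Reg × Reg) :=
  if k < 10 then eqsL (kind W t) k t (gr W t)
  else if k = 10 then
    (if (kind W t = 0 ∧ t + W < T) ∨ kind W t = 1 ∨ kind W t = 3 then
      [(12 * t + 10, [2], [3]), (12 * (t + W) + 7, [3], [2])] else [])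
  else (if t % W = 0 then [] else [(12 * (t - 1) + 11, [2], [3]), (12 * t, [3], [2])])

/-- the terms of the row `r` -/
def tms (W T r : ℕ) : List (ℕ × Reg × Reg) :=
  if r % 3 = 2 ∨ eqs W T (r / 3 / 12) (r / 3 % 12) = [] then [(r / 3, [2], [3])]
  else if r % 3 = 0 then eqs W T (r / 3 / 12) (r / 3 % 12)
  else (eqs W T (r / 3 / 12) (r / 3 % 12)).map fun e => (e.1, e.2.2, e.2.1)

/-- the lattice points of the variables of a cell -/
def siteVT : List (ℤ × ℤ) :=
  [(0, 0), (0, 2), (1, 3), (3, 3), (3, 1), (2, 0), (0, 4), (0, 6), (2, 6), (3, 5), (4, 0), (3, 7)]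
def siteV (l : ℕ) : ℤ × ℤ := siteVT.getD l (0, 0)

/-- the lattice points of the equations of a cell -/
def siteCT : List (ℤ × ℤ) :=
  [(0, 1), (0, 3), (2, 3), (3, 2), (3, 0), (1, 0), (0, 5), (1, 6), (3, 6), (3, 4), (5, 0), (0, -1)]
def siteC (k : ℕ) : ℤ × ℤ := siteCT.getD k (0, 0)

/-- the lattice points of the equations of a variable -/
def nbrT : List (List (ℤ × ℤ)) :=
  [[(0, 1), (1, 0), (0, -1)], [(0, 1), (0, 3)], [(0, 3), (2, 3)], [(2, 3), (3, 2), (3, 4)],
   [(3, 2), (3, 0)], [(3, 0), (1, 0)], [(0, 3), (0, 5)], [(0, 5), (1, 6), (-1, 6)],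
   [(1, 6), (3, 6)], [(3, 6), (3, 4)], [(3, 0), (5, 0)], [(3, 6), (3, 8)]]
def nbr (l : ℕ) : List (ℤ × ℤ) := nbrT.getD l []

/-- origin of the cell `t` -/
def org (W t : ℕ) : ℤ × ℤ :=
  (6 * ((t / W : ℕ) : ℤ) + 3 * ((t % W : ℕ) : ℤ), -6 * ((t / W : ℕ) : ℤ) + 9 * ((t % W : ℕ) : ℤ))

/-- position of a row -/
def posR (W r : ℕ) : ℤ × ℤ := org W (r / 3 / 12) + siteC (r / 3 % 12)

/-- position of a column -/
def posC (W c : ℕ) : ℤ × ℤ := org W (c / 12) + siteV (c % 12)

theorem kind_lt (W t : ℕ) : kind W t < 5 := by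
  unfold kind
  split_ifs <;> omega

theorem eqsL_class {kd k : ℕ} (t : ℕ) (g : Reg) (hkd : kd < 5) (hk : k < 10) :
    eqsL kd k t g = [] ∨
    (∃ u v, u ≠ v ∧ eqsL kd k t g = [(u, [2], [3]), (v, [3], [2])]) ∨
    (∃ u v, u ≠ v ∧ k = 7 ∧ u / 12 = t ∧ v / 12 = t ∧
      eqsL kd k t g = [(u, [2], [3]), (v, g, [2])]) ∨
    (∃ u v w, u ≠ v ∧ u ≠ w ∧ v ≠ w ∧
      (nbr (u % 12)).length ≤ 2 ∧ (nbr (v % 12)).length ≤ 2 ∧ (nbr (w % 12)).length ≤ 2 ∧
      eqsL kd k t g = [(u, [2], [3]), (v, [3], [2]), (w, [3], [2])]) := by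
  have hm : ∀ l, l < 12 → (12 * t + l) % 12 = l := fun l hl => by omega
  interval_cases kd <;> interval_cases k <;>
  first
  | exact Or.inl rfl
  | exact Or.inr (Or.inl ⟨_, _, by omega, rfl⟩)
  | exact Or.inr (Or.inr (Or.inl ⟨12 * t + 8, 12 * t + 7, by omega, rfl, by omega, by omega, rfl⟩))
  | exact Or.inr (Or.inr (Or.inr ⟨_, _, _, by omega, by omega, by omega,
      by rw [hm _ (by norm_num)]; decide, by rw [hm _ (by norm_num)]; decide,
      by rw [hm _ (by norm_num)]; decide, rfl⟩))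

theorem eqs_class (W T t k : ℕ) :
    eqs W T t k = [] ∨
    (∃ u v, u ≠ v ∧ eqs W T t k = [(u, [2], [3]), (v, [3], [2])]) ∨
    (∃ u v, u ≠ v ∧ k = 7 ∧ u / 12 = t ∧ v / 12 = t ∧
      eqs W T t k = [(u, [2], [3]), (v, gr W t, [2])]) ∨
    (∃ u v w, u ≠ v ∧ u ≠ w ∧ v ≠ w ∧
      (nbr (u % 12)).length ≤ 2 ∧ (nbr (v % 12)).length ≤ 2 ∧ (nbr (w % 12)).length ≤ 2 ∧
      eqs W T t k = [(u, [2], [3]), (v, [3], [2]), (w, [3], [2])]) := by
  unfold eqs
  by_cases hk : k < 10
  · simp only [hk, if_true]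
    exact eqsL_class t (gr W t) (kind_lt W t) hk
  · simp only [hk, if_false]
    split_ifs with h1 h2 h3
    · exact Or.inr (Or.inl ⟨_, _, by omega, rfl⟩)
    · exact Or.inl rfl
    · exact Or.inl rfl
    · refine Or.inr (Or.inl ⟨_, _, ?_, rfl⟩)
      have : 0 < t := by
        rcases Nat.eq_zero_or_pos t with rfl | h
        · simp at h3
        · exact h
      omega

/-- the local site check -/
theorem loc_sites' : ∀ kd < 5, ∀ k < 10,
    (loc kd k).all (fun e => decide (e.1 < 12) && decide (siteC k ∈ nbr e.1)) = true := by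
  decide

theorem loc_sites : ∀ kd < 5, ∀ k < 10, ∀ e ∈ loc kd k, e.1 < 12 ∧ siteC k ∈ nbr e.1 := by
  intro kd hkd k hk e he
  have h := List.all_eq_true.1 (loc_sites' kd hkd k hk) e he
  simpa using h

theorem nbr_dist : ∀ l < 12, ∀ s ∈ nbr l, |s.1 - (siteV l).1| + |s.2 - (siteV l).2| = 1 := by
  decide

theorem nbr_length : ∀ l < 12, (nbr l).length ≤ 3 := by decide

theorem siteV_even : ∀ l < 12, Even ((siteV l).1 + (siteV l).2) := by decide

theorem siteC_odd : ∀ k < 12, Odd ((siteC k).1 + (siteC k).2) := by decide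

theorem org_even (W t : ℕ) : Even ((org W t).1 + (org W t).2) := by
  simp only [org]
  exact ⟨6 * ((t % W : ℕ) : ℤ), by ring⟩

theorem div_add_self (W t : ℕ) (hW : 0 < W) : (t + W) / W = t / W + 1 ∧ (t + W) % W = t % W :=
  ⟨Nat.add_div_right t hW, Nat.add_mod_right t W⟩

theorem div_pred {W t : ℕ} (hW : 0 < W) (h : t % W ≠ 0) :
    (t - 1) / W = t / W ∧ (t - 1) % W = t % W - 1 := by
  have h1 := Nat.div_add_mod t W
  have h2 : t - 1 = W * (t / W) + (t % W - 1) := by omega
  have h3 : t % W - 1 < W := by have := Nat.mod_lt t hW; omega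
  constructor
  · rw [h2, Nat.mul_add_div hW, Nat.div_eq_of_lt h3, add_zero]
  · rw [h2, Nat.mul_add_mod, Nat.mod_eq_of_lt h3]

/-- the basic facts on the terms of an equation -/
theorem mem_eqs {W T t k : ℕ} (hW : 0 < W) (hT : t < T) (hn : t + W < T ∨ kind W t = 0 ∨
    kind W t = 2 ∨ kind W t = 4) (hk : k < 12) {e : ℕ × Reg × Reg} (he : e ∈ eqs W T t k) :
    e.1 < 12 * T ∧ org W t + siteC k - org W (e.1 / 12) ∈ nbr (e.1 % 12) := by
  unfold eqs at he
  split_ifs at he with h1 h2 h3 h4
  · unfold eqsL at he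
    rw [List.mem_map] at he
    obtain ⟨e', he', rfl⟩ := he
    obtain ⟨h5, h6⟩ := loc_sites _ (kind_lt W t) k h1 e' he'
    simp only
    rw [show (12 * t + e'.1) / 12 = t by omega, show (12 * t + e'.1) % 12 = e'.1 by omega]
    refine ⟨by omega, ?_⟩
    rw [add_sub_cancel_left]
    exact h6
  · subst h2
    have h6 : t + W < T := by omega
    obtain ⟨h7, h8⟩ := div_add_self W t hW
    simp only [List.mem_cons, List.not_mem_nil, or_false] at he
    rcases he with rfl | rfl
    · simp only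
      rw [show (12 * t + 10) / 12 = t by omega, show (12 * t + 10) % 12 = 10 by omega]
      refine ⟨by omega, ?_⟩
      rw [add_sub_cancel_left]
      decide
    · simp only
      rw [show (12 * (t + W) + 7) / 12 = t + W by omega,
        show (12 * (t + W) + 7) % 12 = 7 by omega]
      refine ⟨by omega, ?_⟩
      have : org W t + siteC 10 - org W (t + W) = (-1, 6) := by
        simp only [org, h7, h8, siteC, siteCT, List.getD_cons_succ, List.getD_cons_zero,
          Prod.mk_add_mk, Prod.mk_sub_mk, Prod.mk.injEq]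
        push_cast
        constructor <;> ring
      rw [this]
      decide
  · exact absurd he List.not_mem_nil
  · exact absurd he List.not_mem_nil
  · obtain rfl : k = 11 := by omega
    obtain ⟨h7, h8⟩ := div_pred hW h4
    have h9 : 0 < t := by
      rcases Nat.eq_zero_or_pos t with rfl | h
      · simp at h4
      · exact h
    simp only [List.mem_cons, List.not_mem_nil, or_false] at he
    rcases he with rfl | rfl
    · simp only
      rw [show (12 * (t - 1) + 11) / 12 = t - 1 by omega,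
        show (12 * (t - 1) + 11) % 12 = 11 by omega]
      refine ⟨by omega, ?_⟩
      have : org W t + siteC 11 - org W (t - 1) = (3, 8) := by
        simp only [org, h7, h8, siteC, siteCT, List.getD_cons_succ, List.getD_cons_zero,
          Prod.mk_add_mk, Prod.mk_sub_mk, Prod.mk.injEq]
        rw [Nat.cast_sub (by omega : 1 ≤ t % W)]
        push_cast
        constructor <;> ring
      rw [this]
      decide
    · simp only
      rw [show 12 * t / 12 = t by omega, show 12 * t % 12 = 0 by omega]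
      refine ⟨by omega, ?_⟩
      rw [add_sub_cancel_left]
      decide

/-! ### Injectivity of the placement -/

theorem siteV_lat : ∀ l < 12, ∀ l' < 12, ∀ x y : ℤ,
    (siteV l).1 - (siteV l').1 = 6 * x + 3 * y → (siteV l).2 - (siteV l').2 = -6 * x + 9 * y →
    x = 0 ∧ y = 0 ∧ l = l' := by
  intro l hl l' hl' x y h1 h2
  interval_cases l <;> interval_cases l' <;>
    simp only [siteV, siteVT, List.getD_cons_succ, List.getD_cons_zero] at h1 h2 <;> omega

theorem siteC_lat : ∀ l < 12, ∀ l' < 12, ∀ x y : ℤ,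
    (siteC l).1 - (siteC l').1 = 6 * x + 3 * y → (siteC l).2 - (siteC l').2 = -6 * x + 9 * y →
    x = 0 ∧ y = 0 ∧ l = l' := by
  intro l hl l' hl' x y h1 h2
  interval_cases l <;> interval_cases l' <;>
    simp only [siteC, siteCT, List.getD_cons_succ, List.getD_cons_zero] at h1 h2 <;> omega

theorem org_inj {W a a' l l' : ℕ} {s : ℕ → ℤ × ℤ}
    (hs : ∀ l < 12, ∀ l' < 12, ∀ x y : ℤ,
      (s l).1 - (s l').1 = 6 * x + 3 * y → (s l).2 - (s l').2 = -6 * x + 9 * y →
      x = 0 ∧ y = 0 ∧ l = l')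
    (hl : l < 12) (hl' : l' < 12) (h : org W a + s l = org W a' + s l') : a = a' ∧ l = l' := by
  have h1 := congrArg Prod.fst h
  have h2 := congrArg Prod.snd h
  simp only [org, Prod.fst_add, Prod.snd_add] at h1 h2
  set x : ℤ := ((a' / W : ℕ) : ℤ) - ((a / W : ℕ) : ℤ) with hx
  set y : ℤ := ((a' % W : ℕ) : ℤ) - ((a % W : ℕ) : ℤ) with hy
  have e1 : (s l).1 - (s l').1 = 6 * x + 3 * y := by rw [hx, hy]; linarith
  have e2 : (s l).2 - (s l').2 = -6 * x + 9 * y := by rw [hx, hy]; linarith
  obtain ⟨e3, e4, e5⟩ := hs l hl l' hl' x y e1 e2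
  refine ⟨?_, e5⟩
  have f1 : a / W = a' / W := by omega
  have f2 : a % W = a' % W := by omega
  rw [← Nat.div_add_mod a W, ← Nat.div_add_mod a' W, f1, f2]

theorem posC_inj {W c c' : ℕ} (h : posC W c = posC W c') : c = c' := by
  obtain ⟨h1, h2⟩ := org_inj siteV_lat (Nat.mod_lt c (by norm_num))
    (Nat.mod_lt c' (by norm_num)) h
  omega

theorem posR_inj {W r r' : ℕ} (h : posR W r = posR W r') : r / 3 = r' / 3 := by
  obtain ⟨h1, h2⟩ := org_inj siteC_lat (Nat.mod_lt (r / 3) (by norm_num))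
    (Nat.mod_lt (r' / 3) (by norm_num)) h
  omega

end Pool.Agent.Y592.LN
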