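import Pool.Agent.Y592.LN.Lat1

set_option autoImplicit false

/-!
# The lattice system is a network
-/

namespace Pool.Agent.Y592.LN

open Pool.Agent.NPC Pool.Agent.NPC.ER Pool.Agent.NPC.H612 Pool.Agent.H558R2 Pool.Agent.H622R3.SM

/-- a row from its terms -/
noncomputable def rowOf (N : ℕ) (l : List (ℕ × ℝ)) : Fin N → ℝ :=
  fun c => (l.map fun e => if e.1 = (c : ℕ) then e.2 else 0).sum

/-- real terms -/
noncomputable def rt (ρ : Reg → ℝ) (l : List (ℕ × Reg × Reg)) : List (ℕ × ℝ) :=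
  l.map fun e => (e.1, ρ e.2.1 - ρ e.2.2)

/-- width of the grid of cells -/
def Wd (n : ℕ) : ℕ := 2 * n + 2

/-- number of cells -/
def Td (m n : ℕ) : ℕ := 2 * m * (2 * n + 2)

theorem rowOf_nil (N : ℕ) : rowOf N [] = 0 := by
  funext c
  simp [rowOf]

theorem rowOf_cons {N u : ℕ} (hu : u < N) (x : ℝ) (l : List (ℕ × ℝ)) :
    rowOf N ((u, x) :: l) = Pi.single ⟨u, hu⟩ x + rowOf N l := by
  funext c
  simp only [rowOf, List.map_cons, List.sum_cons, Pi.add_apply]
  congr 1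
  by_cases h : u = (c : ℕ)
  · rw [if_pos h]
    have : c = ⟨u, hu⟩ := Fin.ext h.symm
    rw [this, Pi.single_eq_same]
  · rw [if_neg h, Pi.single_eq_of_ne]
    intro hc
    exact h (by rw [hc])

theorem rowOf_swap (N : ℕ) (ρ : Reg → ℝ) (l : List (ℕ × Reg × Reg)) :
    rowOf N (rt ρ (l.map fun e => (e.1, e.2.2, e.2.1))) = -rowOf N (rt ρ l) := by
  funext c
  simp only [rowOf, rt, List.map_map, Pi.neg_apply]
  induction l with
  | nil => simp
  | cons e l ih =>
    simp only [List.map_cons, List.sum_cons, Function.comp_apply, ih]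
    split_ifs <;> ring

theorem rowOf_ne_zero {N : ℕ} {l : List (ℕ × ℝ)} {c : Fin N} (h : rowOf N l c ≠ 0) :
    ∃ e ∈ l, e.1 = (c : ℕ) := by
  by_contra hc
  push Not at hc
  apply h
  unfold rowOf
  apply List.sum_eq_zero
  intro x hx
  rw [List.mem_map] at hx
  obtain ⟨e, he, rfl⟩ := hx
  rw [if_neg (hc e he)]

theorem eqs_nodup (W T t k : ℕ) : ((eqs W T t k).map fun e => e.1).Nodup := by
  rcases eqs_class W T t k with h | ⟨u, v, huv, h⟩ | ⟨u, v, huv, -, -, -, h⟩ |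
    ⟨u, v, w, huv, huw, hvw, -, -, -, h⟩ <;> rw [h] <;> simp_all

theorem eqs_len (W T t k : ℕ) : (eqs W T t k).length ≤ 3 := by
  rcases eqs_class W T t k with h | ⟨u, v, huv, h⟩ | ⟨u, v, huv, -, -, -, h⟩ |
    ⟨u, v, w, huv, huw, hvw, -, -, -, h⟩ <;> rw [h] <;> simp

theorem tms_nodup (W T r : ℕ) : ((tms W T r).map fun e => e.1).Nodup := by
  unfold tms
  split_ifs
  · simp
  · exact eqs_nodup _ _ _ _
  · rw [List.map_map]
    exact eqs_nodup _ _ _ _

theorem tms_len (W T r : ℕ) : (tms W T r).length ≤ 3 := by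
  unfold tms
  split_ifs
  · simp
  · exact eqs_len _ _ _ _
  · rw [List.length_map]
    exact eqs_len _ _ _ _

theorem rowOf_mem {N : ℕ} : ∀ (l : List (ℕ × ℝ)), (l.map fun e => e.1).Nodup → ∀ e ∈ l,
    ∀ c : Fin N, e.1 = (c : ℕ) → rowOf N l c = e.2 := by
  intro l
  induction l with
  | nil => intro _ e he; exact absurd he List.not_mem_nil
  | cons a l ih =>
    intro hnd e he c hc
    rw [List.map_cons, List.nodup_cons] at hnd
    rcases List.mem_cons.1 he with rfl | he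
    · have h0 : rowOf N l c = 0 := by
        by_contra h
        obtain ⟨e', he', hc'⟩ := rowOf_ne_zero h
        exact hnd.1 (List.mem_map.2 ⟨e', he', by rw [hc', hc]⟩)
      have h1 : rowOf N (e :: l) c = e.2 + rowOf N l c := by
        simp only [rowOf, List.map_cons, List.sum_cons]
        rw [if_pos hc]
      rw [h1, h0, add_zero]
    · have h1 : rowOf N (a :: l) c = rowOf N l c := by
        simp only [rowOf, List.map_cons, List.sum_cons]
        rw [if_neg, zero_add]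
        intro h
        exact hnd.1 (List.mem_map.2 ⟨e, he, by rw [hc, h]⟩)
      rw [h1]
      exact ih hnd.2 e he c hc

theorem eqs_gain {W T t k : ℕ} {e : ℕ × Reg × Reg} (he : e ∈ eqs W T t k) :
    (e.2 = ([2], [3]) ∨ e.2 = ([3], [2])) ∨ (k = 7 ∧ ∀ e' ∈ eqs W T t k, e'.1 / 12 = t) := by
  rcases eqs_class W T t k with h | ⟨u, v, huv, h⟩ | ⟨u, v, huv, h7, hu, hv, h⟩ |
    ⟨u, v, w, huv, huw, hvw, -, -, -, h⟩
  · rw [h] at he
    exact absurd he List.not_mem_nil
  · rw [h] at he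
    simp only [List.mem_cons, List.not_mem_nil, or_false] at he
    rcases he with rfl | rfl
    · exact Or.inl (Or.inl rfl)
    · exact Or.inl (Or.inr rfl)
  · refine Or.inr ⟨h7, fun e' he' => ?_⟩
    rw [h] at he'
    simp only [List.mem_cons, List.not_mem_nil, or_false] at he'
    rcases he' with rfl | rfl
    · exact hu
    · exact hv
  · rw [h] at he
    simp only [List.mem_cons, List.not_mem_nil, or_false] at he
    rcases he with rfl | rfl | rfl
    · exact Or.inl (Or.inl rfl)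
    · exact Or.inl (Or.inr rfl)
    · exact Or.inl (Or.inr rfl)

theorem tms_gain {W T r : ℕ} {e : ℕ × Reg × Reg} (he : e ∈ tms W T r) :
    (e.2 = ([2], [3]) ∨ e.2 = ([3], [2])) ∨
    (¬ (r % 3 = 2 ∨ eqs W T (r / 3 / 12) (r / 3 % 12) = []) ∧ r / 3 % 12 = 7 ∧
      ∀ e' ∈ eqs W T (r / 3 / 12) (r / 3 % 12), e'.1 / 12 = r / 3 / 12) := by
  unfold tms at he
  split_ifs at he with h1 h2
  · rw [List.mem_singleton] at he
    rw [he]
    exact Or.inl (Or.inl rfl)
  · rcases eqs_gain he with h | ⟨h3, h4⟩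
    · exact Or.inl h
    · exact Or.inr ⟨h1, h3, h4⟩
  · rw [List.mem_map] at he
    obtain ⟨e', he', rfl⟩ := he
    rcases eqs_gain he' with (h | h) | ⟨h3, h4⟩
    · exact Or.inl (Or.inr (by rw [h]))
    · exact Or.inl (Or.inl (by rw [h]))
    · exact Or.inr ⟨h1, h3, h4⟩

section
variable {m n : ℕ} (A : Matrix (Fin m) (Fin n) ℝ) (b : Fin m → ℝ)

/-- the matrix of the network -/
noncomputable def lA : Matrix (Fin (36 * Td m n)) (Fin (12 * Td m n)) ℝ :=
  fun r => rowOf _ (rt (start A b) (tms (Wd n) (Td m n) r))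

/-- the right-hand side of the network -/
noncomputable def lb : Fin (36 * Td m n) → ℝ := fun r =>
  if (r : ℕ) % 3 = 2 ∧ (r : ℕ) / 3 % 12 = 4 ∧ kind (Wd n) ((r : ℕ) / 3 / 12) = 3 then
    start A b [1, (r : ℕ) / 3 / 12 / Wd n / 2] else 0

theorem lA_mem {r : Fin (36 * Td m n)} {e : ℕ × Reg × Reg}
    (he : e ∈ tms (Wd n) (Td m n) r) (c : Fin (12 * Td m n)) (hc : e.1 = (c : ℕ)) :
    lA A b r c = start A b e.2.1 - start A b e.2.2 := by
  unfold lA rt
  refine rowOf_mem _ ?_ (e.1, start A b e.2.1 - start A b e.2.2) (List.mem_map.2 ⟨e, he, rfl⟩) c hc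
  rw [List.map_map]
  exact tms_nodup _ _ _

theorem lA_not_mem {r : Fin (36 * Td m n)} (c : Fin (12 * Td m n))
    (h : ∀ e ∈ tms (Wd n) (Td m n) r, e.1 ≠ (c : ℕ)) : lA A b r c = 0 := by
  by_contra hc
  unfold lA rt at hc
  obtain ⟨e, he, hc'⟩ := rowOf_ne_zero hc
  rw [List.mem_map] at he
  obtain ⟨e', he', rfl⟩ := he
  exact h e' he' hc'

theorem Wd_pos (n : ℕ) : 0 < Wd n := by unfold Wd; omega

theorem Td_eq (m n : ℕ) : Td m n = 2 * m * Wd n := rfl

theorem hn_of {t : ℕ} (ht : t < Td m n) : t + Wd n < Td m n ∨ kind (Wd n) t = 0 ∨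
    kind (Wd n) t = 2 ∨ kind (Wd n) t = 4 := by
  have h1 : t / Wd n < 2 * m := by
    rw [Nat.div_lt_iff_lt_mul (Wd_pos n), ← Td_eq]
    exact ht
  by_cases h2 : t / Wd n % 2 = 0
  · left
    have h3 : (t + Wd n) / Wd n < 2 * m := by
      rw [(div_add_self (Wd n) t (Wd_pos n)).1]
      omega
    rw [Nat.div_lt_iff_lt_mul (Wd_pos n), ← Td_eq] at h3
    exact h3
  · right
    unfold kind
    split_ifs <;> simp

theorem lA_single {r : Fin (36 * Td m n)} (h : (r : ℕ) % 3 = 2 ∨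
    eqs (Wd n) (Td m n) ((r : ℕ) / 3 / 12) ((r : ℕ) / 3 % 12) = []) :
    lA A b r = Pi.single ⟨(r : ℕ) / 3, by omega⟩ 1 := by
  unfold lA tms
  rw [if_pos h]
  simp only [rt, List.map_cons, List.map_nil]
  rw [rowOf_cons (by omega), rowOf_nil, add_zero, start_two, start_three, sub_zero]

theorem lA_pos {r : Fin (36 * Td m n)} (h : ¬ ((r : ℕ) % 3 = 2 ∨
    eqs (Wd n) (Td m n) ((r : ℕ) / 3 / 12) ((r : ℕ) / 3 % 12) = [])) (h0 : (r : ℕ) % 3 = 0) :
    lA A b r = rowOf _ (rt (start A b)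
      (eqs (Wd n) (Td m n) ((r : ℕ) / 3 / 12) ((r : ℕ) / 3 % 12))) := by
  unfold lA tms
  rw [if_neg h, if_pos h0]

theorem lA_neg {r : Fin (36 * Td m n)} (h : ¬ ((r : ℕ) % 3 = 2 ∨
    eqs (Wd n) (Td m n) ((r : ℕ) / 3 / 12) ((r : ℕ) / 3 % 12) = [])) (h0 : (r : ℕ) % 3 = 1) :
    lA A b r = -rowOf _ (rt (start A b)
      (eqs (Wd n) (Td m n) ((r : ℕ) / 3 / 12) ((r : ℕ) / 3 % 12))) := by
  unfold lA tms
  rw [if_neg h, if_neg (by omega), rowOf_swap]

theorem eqs_lt {t k : ℕ} (ht : t < Td m n) (hk : k < 12) {e : ℕ × Reg × Reg}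
    (he : e ∈ eqs (Wd n) (Td m n) t k) : e.1 < 12 * Td m n :=
  (mem_eqs (Wd_pos n) ht (hn_of ht) hk he).1

variable {A b} in
theorem gr_small {ε : ℝ} (hε : 0 ≤ ε) (hA : ∀ i j, |A i j| ≤ ε) (W t : ℕ) :
    |start A b (gr W t)| ≤ ε := by
  unfold gr
  split_ifs
  · simp only [start]
    split_ifs
    · exact hA _ _
    · simpa using hε
  · simpa [start] using hε

variable {A b} in
theorem rowOf_eqs {ε : ℝ} (hε : 0 ≤ ε) (hA : ∀ i j, |A i j| ≤ ε) {t k : ℕ} (ht : t < Td m n)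
    (hk : k < 12) (hne : eqs (Wd n) (Td m n) t k ≠ []) :
    IsEquation ε (rowOf (12 * Td m n) (rt (start A b) (eqs (Wd n) (Td m n) t k))) := by
  have hlt : ∀ e ∈ eqs (Wd n) (Td m n) t k, e.1 < 12 * Td m n := fun e he => eqs_lt ht hk he
  have hs : ∀ {N : ℕ} (v : Fin N) (x : ℝ), (Pi.single v (-x) : Fin N → ℝ) = -Pi.single v x :=
    fun v x => by
      funext c
      by_cases h : c = v
      · subst h
        simp
      · simp [h]
  rcases eqs_class (Wd n) (Td m n) t k with h | ⟨u, v, huv, h⟩ | ⟨u, v, huv, -, -, -, h⟩ |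
    ⟨u, v, w, huv, huw, hvw, -, -, -, h⟩
  · exact absurd h hne
  · rw [h] at hlt
    have hu := hlt (u, [2], [3]) (by simp)
    have hv := hlt (v, [3], [2]) (by simp)
    refine Or.inl ⟨⟨u, hu⟩, ⟨v, hv⟩, 1, by simpa using huv, by simpa using hε, ?_⟩
    rw [h]
    simp only [rt, List.map_cons, List.map_nil]
    rw [rowOf_cons hu, rowOf_cons hv, rowOf_nil, add_zero, start_two, start_three, sub_zero,
      zero_sub, hs]
    rfl
  · rw [h] at hlt
    have hu := hlt (u, [2], [3]) (by simp)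
    have hv := hlt (v, gr (Wd n) t, [2]) (by simp)
    refine Or.inl ⟨⟨u, hu⟩, ⟨v, hv⟩, 1 - start A b (gr (Wd n) t), by simpa using huv, ?_, ?_⟩
    · rw [sub_sub_cancel_left, abs_neg]
      exact gr_small hε hA _ _
    · rw [h]
      simp only [rt, List.map_cons, List.map_nil]
      rw [rowOf_cons hu, rowOf_cons hv, rowOf_nil, add_zero, start_two, start_three, sub_zero,
        ← neg_sub 1 (start A b (gr (Wd n) t)), hs]
      rfl
  · rw [h] at hlt
    have hu := hlt (u, [2], [3]) (by simp)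
    have hv := hlt (v, [3], [2]) (by simp)
    have hw := hlt (w, [3], [2]) (by simp)
    refine Or.inr ⟨⟨u, hu⟩, ⟨v, hv⟩, ⟨w, hw⟩, by simpa using huv, by simpa using huw,
      by simpa using hvw, ?_⟩
    rw [h]
    simp only [rt, List.map_cons, List.map_nil]
    rw [rowOf_cons hu, rowOf_cons hv, rowOf_cons hw, rowOf_nil, add_zero, start_two, start_three,
      sub_zero, zero_sub, hs, hs]
    abel

theorem ncard_single {N : ℕ} {M : ℕ} {B : Matrix (Fin M) (Fin N) ℝ} {i : Fin M} {u : Fin N}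
    (h : B i = Pi.single u 1) : (vars B i).ncard = 1 := by
  have : vars B i = {u} := by
    ext j
    simp only [vars, Set.mem_ofPred_eq, Set.mem_singleton_iff, h]
    constructor
    · intro hj
      by_contra hne
      exact hj (Pi.single_eq_of_ne hne _)
    · rintro rfl
      simp
  rw [this, Set.ncard_singleton]

variable {A b}

theorem eqRow {r : Fin (36 * Td m n)} (h : 2 ≤ (vars (lA A b) r).ncard) :
    ¬ ((r : ℕ) % 3 = 2 ∨ eqs (Wd n) (Td m n) ((r : ℕ) / 3 / 12) ((r : ℕ) / 3 % 12) = []) := by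
  intro hc
  rw [ncard_single (lA_single A b hc)] at h
  omega

theorem mem_vars {r : Fin (36 * Td m n)} (h : ¬ ((r : ℕ) % 3 = 2 ∨
    eqs (Wd n) (Td m n) ((r : ℕ) / 3 / 12) ((r : ℕ) / 3 % 12) = [])) {j : Fin (12 * Td m n)}
    (hj : j ∈ vars (lA A b) r) :
    ∃ e ∈ eqs (Wd n) (Td m n) ((r : ℕ) / 3 / 12) ((r : ℕ) / 3 % 12), e.1 = (j : ℕ) := by
  have h1 : rowOf (12 * Td m n) (rt (start A b)
      (eqs (Wd n) (Td m n) ((r : ℕ) / 3 / 12) ((r : ℕ) / 3 % 12))) j ≠ 0 := by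
    have h2 : lA A b r j ≠ 0 := hj
    rcases (by omega : (r : ℕ) % 3 = 0 ∨ (r : ℕ) % 3 = 1 ∨ (r : ℕ) % 3 = 2) with h0 | h0 | h0
    · rw [lA_pos A b h h0] at h2
      exact h2
    · rw [lA_neg A b h h0, Pi.neg_apply, neg_ne_zero] at h2
      exact h2
    · exact absurd (Or.inl h0) h
  obtain ⟨e, he, he'⟩ := rowOf_ne_zero h1
  unfold rt at he
  rw [List.mem_map] at he
  obtain ⟨e', he'', rfl⟩ := he
  exact ⟨e', he'', he'⟩

theorem vars_ncard_le {r : Fin (36 * Td m n)} (h : ¬ ((r : ℕ) % 3 = 2 ∨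
    eqs (Wd n) (Td m n) ((r : ℕ) / 3 / 12) ((r : ℕ) / 3 % 12) = [])) :
    (vars (lA A b) r).ncard ≤
      (eqs (Wd n) (Td m n) ((r : ℕ) / 3 / 12) ((r : ℕ) / 3 % 12)).length := by
  classical
  set E := eqs (Wd n) (Td m n) ((r : ℕ) / 3 / 12) ((r : ℕ) / 3 % 12) with hE
  have h1 : (Fin.val '' vars (lA A b) r) ⊆ ((E.map fun e => e.1).toFinset : Set ℕ) := by
    rintro _ ⟨j, hj, rfl⟩
    obtain ⟨e, he, he'⟩ := mem_vars h hj
    simp only [List.coe_toFinset, List.mem_map, Set.mem_ofPred_eq]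
    exact ⟨e, he, he'⟩
  have h2 := Set.ncard_le_ncard h1 (Finset.finite_toSet _)
  rw [Set.ncard_image_of_injective _ Fin.val_injective, Set.ncard_coe_finset] at h2
  exact h2.trans ((List.toFinset_card_le _).trans (by simp))

theorem site_nbr {r : Fin (36 * Td m n)} (h : ¬ ((r : ℕ) % 3 = 2 ∨
    eqs (Wd n) (Td m n) ((r : ℕ) / 3 / 12) ((r : ℕ) / 3 % 12) = [])) {j : Fin (12 * Td m n)}
    (hj : j ∈ vars (lA A b) r) :
    ∃ s ∈ nbr ((j : ℕ) % 12), posR (Wd n) r = org (Wd n) ((j : ℕ) / 12) + s := by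
  obtain ⟨e, he, he'⟩ := mem_vars h hj
  have ht : (r : ℕ) / 3 / 12 < Td m n := by have := r.2; omega
  have h1 := (mem_eqs (Wd_pos n) ht (hn_of ht) (Nat.mod_lt _ (by norm_num)) he).2
  rw [he'] at h1
  exact ⟨_, h1, by rw [posR]; abel⟩

theorem sites_ncard (j : Fin (12 * Td m n)) :
    (sites (lA A b) (fun r => posR (Wd n) r) j).ncard ≤ (nbr ((j : ℕ) % 12)).length := by
  classical
  have h1 : sites (lA A b) (fun r => posR (Wd n) r) j ⊆
      (((nbr ((j : ℕ) % 12)).map fun s => org (Wd n) ((j : ℕ) / 12) + s).toFinset :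
        Set (ℤ × ℤ)) := by
    rintro s ⟨r, rfl, h2, h3⟩
    obtain ⟨s, hs, hs'⟩ := site_nbr (eqRow h2) h3
    simp only [List.coe_toFinset, List.mem_map, Set.mem_ofPred_eq]
    exact ⟨s, hs, hs'.symm⟩
  have h2 := Set.ncard_le_ncard h1 (Finset.finite_toSet _)
  rw [Set.ncard_coe_finset] at h2
  exact h2.trans ((List.toFinset_card_le _).trans (by simp))

theorem lb_cases (hb : ∀ i, b i = 0 ∨ b i = 1) (r : Fin (36 * Td m n)) :
    lb A b r = 0 ∨ lb A b r = 1 := by
  unfold lb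
  split_ifs with h
  · simp only [start]
    split_ifs
    · exact hb _
    · left; rfl
  · left; rfl

theorem lb_eq_zero {r : Fin (36 * Td m n)} (h : (r : ℕ) % 3 ≠ 2) : lb A b r = 0 := by
  unfold lb
  rw [if_neg]
  rintro ⟨h1, -⟩
  exact h h1

theorem lb_ne_zero {r : Fin (36 * Td m n)} (h : lb A b r ≠ 0) :
    (r : ℕ) % 3 = 2 ∧ (r : ℕ) / 3 % 12 = 4 ∧ kind (Wd n) ((r : ℕ) / 3 / 12) = 3 ∧
      ∃ i : Fin m, (i : ℕ) = (r : ℕ) / 3 / 12 / Wd n / 2 ∧ b i ≠ 0 := by
  unfold lb at h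
  split_ifs at h with h1
  · refine ⟨h1.1, h1.2.1, h1.2.2, ?_⟩
    simp only [start] at h
    split_ifs at h with h2
    · exact ⟨_, rfl, h⟩
    · exact absurd rfl h
  · exact absurd rfl h

theorem kind_three {W t : ℕ} (h : kind W t = 3) : t % W + 1 = W ∧ t / W % 2 = 0 := by
  unfold kind at h
  split_ifs at h
  all_goals omega

/-- the lattice system is a network -/
theorem isNetwork {ε : ℝ} (hε : 0 ≤ ε) (h : SmallRows ε m n A b) :
    IsNetwork ε (lA A b) (lb A b) (fun r => posR (Wd n) r) (fun c => posC (Wd n) c) := by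
  obtain ⟨hA, hb, hone⟩ := h
  have hcell : ∀ r : Fin (36 * Td m n), (r : ℕ) / 3 / 12 < Td m n := fun r => by
    have := r.2; omega
  have heq : ∀ r : Fin (36 * Td m n), ¬ ((r : ℕ) % 3 = 2 ∨
      eqs (Wd n) (Td m n) ((r : ℕ) / 3 / 12) ((r : ℕ) / 3 % 12) = []) →
      IsEquation ε (rowOf (12 * Td m n) (rt (start A b)
        (eqs (Wd n) (Td m n) ((r : ℕ) / 3 / 12) ((r : ℕ) / 3 % 12)))) := fun r hr =>
    rowOf_eqs hε hA (hcell r) (Nat.mod_lt _ (by norm_num)) (fun hc => hr (Or.inr hc))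
  refine ⟨fun r => ?_, fun j => ?_, fun r r' hr hr' => ?_, fun c c' hc => ?_, fun j => ?_,
    fun r => ?_, fun r r' h2 h2' hp => ?_, fun r j h2 hj => ?_, fun j => ?_, fun r j h3 hj => ?_,
    fun j => ?_⟩
  · -- rows
    by_cases hr : (r : ℕ) % 3 = 2 ∨
      eqs (Wd n) (Td m n) ((r : ℕ) / 3 / 12) ((r : ℕ) / 3 % 12) = []
    · exact Or.inl ⟨_, lA_single A b hr, lb_cases hb r⟩
    · right
      have h2 : (r : ℕ) % 3 ≠ 2 := fun hc => hr (Or.inl hc)
      refine ⟨lb_eq_zero h2, ?_, ?_⟩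
      · rcases (by omega : (r : ℕ) % 3 = 0 ∨ (r : ℕ) % 3 = 1) with h0 | h0
        · left
          rw [lA_pos A b hr h0]
          exact heq r hr
        · right
          rw [lA_neg A b hr h0, neg_neg]
          exact heq r hr
      · rcases (by omega : (r : ℕ) % 3 = 0 ∨ (r : ℕ) % 3 = 1) with h0 | h0
        · obtain ⟨r', hr'⟩ : ∃ r' : Fin (36 * Td m n), (r' : ℕ) = r + 1 :=
            ⟨⟨r + 1, by have := r.2; omega⟩, rfl⟩
          have e1 : (r' : ℕ) / 3 = (r : ℕ) / 3 := by omega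
          have e2 : (r' : ℕ) % 3 = 1 := by omega
          have hr2 : ¬ ((r' : ℕ) % 3 = 2 ∨
              eqs (Wd n) (Td m n) ((r' : ℕ) / 3 / 12) ((r' : ℕ) / 3 % 12) = []) := by
            rw [e1, e2]
            rintro (hc | hc)
            · omega
            · exact hr (Or.inr hc)
          refine ⟨r', by simp only [posR, e1], ?_, lb_eq_zero (by omega)⟩
          rw [lA_neg A b hr2 e2, lA_pos A b hr h0, e1]
        · obtain ⟨r', hr'⟩ : ∃ r' : Fin (36 * Td m n), (r' : ℕ) + 1 = r :=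
            ⟨⟨r - 1, by have := r.2; omega⟩, by simp only; omega⟩
          have e1 : (r' : ℕ) / 3 = (r : ℕ) / 3 := by omega
          have e2 : (r' : ℕ) % 3 = 0 := by omega
          have hr2 : ¬ ((r' : ℕ) % 3 = 2 ∨
              eqs (Wd n) (Td m n) ((r' : ℕ) / 3 / 12) ((r' : ℕ) / 3 % 12) = []) := by
            rw [e1, e2]
            rintro (hc | hc)
            · omega
            · exact hr (Or.inr hc)
          refine ⟨r', by simp only [posR, e1], ?_, lb_eq_zero (by omega)⟩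
          rw [lA_pos A b hr2 e2, lA_neg A b hr h0, e1, neg_neg]
  · -- nonneg
    obtain ⟨r, hr⟩ : ∃ r : Fin (36 * Td m n), (r : ℕ) = 3 * j + 2 :=
      ⟨⟨3 * j + 2, by have := j.2; omega⟩, rfl⟩
    refine ⟨r, ?_, lb_cases hb r⟩
    rw [lA_single A b (Or.inl (by omega))]
    congr 1
    exact Fin.ext (by simp only; omega)
  · -- one
    obtain ⟨a1, a2, a3, i, a4, a5⟩ := lb_ne_zero hr
    obtain ⟨b1, b2, b3, i', b4, b5⟩ := lb_ne_zero hr'
    obtain rfl := hone i i' a5 b5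
    obtain ⟨a6, a7⟩ := kind_three a3
    obtain ⟨b6, b7⟩ := kind_three b3
    have e1 : (r : ℕ) / 3 / 12 / Wd n = (r' : ℕ) / 3 / 12 / Wd n := by omega
    have e2 : (r : ℕ) / 3 / 12 % Wd n = (r' : ℕ) / 3 / 12 % Wd n := by omega
    have e3 : (r : ℕ) / 3 / 12 = (r' : ℕ) / 3 / 12 := by
      rw [← Nat.div_add_mod ((r : ℕ) / 3 / 12) (Wd n), ← Nat.div_add_mod ((r' : ℕ) / 3 / 12) (Wd n),
        e1, e2]
    exact Fin.ext (by omega)
  · exact Fin.ext (posC_inj hc)
  · have h1 := org_even (Wd n) ((j : ℕ) / 12)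
    have h2 := siteV_even _ (Nat.mod_lt (j : ℕ) (by norm_num : 0 < 12))
    simp only [posC, Prod.fst_add, Prod.snd_add]
    rw [add_add_add_comm]
    exact h1.add h2
  · have h1 := org_even (Wd n) ((r : ℕ) / 3 / 12)
    have h2 := siteC_odd _ (Nat.mod_lt ((r : ℕ) / 3) (by norm_num : 0 < 12))
    simp only [posR, Prod.fst_add, Prod.snd_add]
    rw [add_add_add_comm]
    exact h1.add_odd h2
  · -- single
    have hr := eqRow h2
    have hr' := eqRow h2'
    have e1 := posR_inj hp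
    rcases (by omega : (r : ℕ) % 3 = 0 ∨ (r : ℕ) % 3 = 1 ∨ (r : ℕ) % 3 = 2) with h0 | h0 | h0
    · rcases (by omega : (r' : ℕ) % 3 = 0 ∨ (r' : ℕ) % 3 = 1 ∨ (r' : ℕ) % 3 = 2) with h1 | h1 | h1
      · left; rw [lA_pos A b hr h0, lA_pos A b hr' h1, e1]
      · right; rw [lA_pos A b hr h0, lA_neg A b hr' h1, e1]
      · exact absurd (Or.inl h1) hr'
    · rcases (by omega : (r' : ℕ) % 3 = 0 ∨ (r' : ℕ) % 3 = 1 ∨ (r' : ℕ) % 3 = 2) with h1 | h1 | h1
      · right; rw [lA_neg A b hr h0, lA_pos A b hr' h1, e1, neg_neg]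
      · left; rw [lA_neg A b hr h0, lA_neg A b hr' h1, e1]
      · exact absurd (Or.inl h1) hr'
    · exact absurd (Or.inl h0) hr
  · -- adjacent
    obtain ⟨s, hs, hs'⟩ := site_nbr (eqRow h2) hj
    have h1 := nbr_dist _ (Nat.mod_lt (j : ℕ) (by norm_num)) s hs
    simp only [hs', posC, Prod.fst_add, Prod.snd_add]
    rw [add_sub_add_left_eq_sub, add_sub_add_left_eq_sub]
    exact h1
  · exact (sites_ncard j).trans (nbr_length _ (Nat.mod_lt _ (by norm_num)))
  · -- two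
    have hr := eqRow (by omega : 2 ≤ (vars (lA A b) r).ncard)
    have h4 := vars_ncard_le (A := A) (b := b) hr
    obtain ⟨e, he, he'⟩ := mem_vars hr hj
    refine (sites_ncard j).trans ?_
    rw [← he']
    rcases eqs_class (Wd n) (Td m n) ((r : ℕ) / 3 / 12) ((r : ℕ) / 3 % 12) with h | ⟨u, v, huv, h⟩ |
      ⟨u, v, huv, -, -, -, h⟩ | ⟨u, v, w, huv, huw, hvw, hu, hv, hw, h⟩
    · rw [h] at he
      exact absurd he List.not_mem_nil
    · rw [h] at h4
      simp only [List.length_cons, List.length_nil] at h4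
      omega
    · rw [h] at h4
      simp only [List.length_cons, List.length_nil] at h4
      omega
    · rw [h] at he
      simp only [List.mem_cons, List.not_mem_nil, or_false] at he
      rcases he with rfl | rfl | rfl
      · exact hu
      · exact hv
      · exact hw
  · -- gain
    have hsub : {s | ∃ r : Fin (36 * Td m n), posR (Wd n) r = s ∧ j ∈ vars (lA A b) r ∧
        ∃ j' ∈ vars (lA A b) r, |lA A b r j'| ≠ 1} ⊆
        {org (Wd n) ((j : ℕ) / 12) + siteC 7} := by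
      rintro s ⟨r, rfl, hj, j', hj', habs⟩
      rw [Set.mem_singleton_iff]
      have hex : ∃ e ∈ tms (Wd n) (Td m n) r, e.1 = (j' : ℕ) := by
        by_contra hc
        push Not at hc
        exact hj' (lA_not_mem A b j' hc)
      obtain ⟨e, he, he'⟩ := hex
      have hval := lA_mem A b he j' he'
      rcases tms_gain he with (h | h) | ⟨h1, h2, h3⟩
      · rw [h] at hval
        simp only [start_two, start_three, sub_zero] at hval
        rw [hval, abs_one] at habs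
        exact absurd rfl habs
      · rw [h] at hval
        simp only [start_two, start_three, zero_sub] at hval
        rw [hval, abs_neg, abs_one] at habs
        exact absurd rfl habs
      · obtain ⟨e₂, he₂, he₂'⟩ := mem_vars h1 hj
        have h4 := h3 e₂ he₂
        rw [he₂'] at h4
        rw [posR, h2, h4]
    have h2 := Set.ncard_le_ncard hsub (Set.finite_singleton _)
    rwa [Set.ncard_singleton] at h2

end

end Pool.Agent.Y592.LN
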