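import Pool.Agent.Y592.LN.Lat2

set_option autoImplicit false

/-!
# The lattice system is equivalent to the given system
-/

namespace Pool.Agent.Y592.LN

open Pool.Agent.NPC Pool.Agent.NPC.ER Pool.Agent.NPC.H612 Pool.Agent.H558R2 Pool.Agent.H622R3.SM

/-- value of a list of terms -/
noncomputable def dot (ρ : Reg → ℝ) (Y : ℕ → ℝ) (E : List (ℕ × Reg × Reg)) : ℝ :=
  (E.map fun e => (ρ e.2.1 - ρ e.2.2) * Y e.1).sum

/-- extension by zero -/
noncomputable def ext0 {N : ℕ} (y : Fin N → ℝ) : ℕ → ℝ := fun a => if h : a < N then y ⟨a, h⟩ else 0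

theorem rowOf_dot {N : ℕ} (l : List (ℕ × ℝ)) (y : Fin N → ℝ) :
    ∑ c, rowOf N l c * y c = (l.map fun e => e.2 * ext0 y e.1).sum := by
  induction l with
  | nil => simp [rowOf_nil]
  | cons e l ih =>
    obtain ⟨u, x⟩ := e
    rw [List.map_cons, List.sum_cons, ← ih]
    by_cases hu : u < N
    · rw [rowOf_cons hu]
      simp only [Pi.add_apply, add_mul, Finset.sum_add_distrib]
      congr 1
      rw [Finset.sum_eq_single (⟨u, hu⟩ : Fin N)]
      · simp [ext0, hu]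
      · intro c _ hc
        rw [Pi.single_eq_of_ne hc, zero_mul]
      · intro h
        exact absurd (Finset.mem_univ _) h
    · have h1 : rowOf N ((u, x) :: l) = rowOf N l := by
        funext c
        simp only [rowOf, List.map_cons, List.sum_cons]
        rw [if_neg (by have := c.2; omega), zero_add]
      rw [h1]
      simp [ext0, hu]

theorem dot_swap (ρ : Reg → ℝ) (Y : ℕ → ℝ) (E : List (ℕ × Reg × Reg)) :
    dot ρ Y (E.map fun e => (e.1, e.2.2, e.2.1)) = -dot ρ Y E := by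
  unfold dot
  induction E with
  | nil => simp
  | cons e l ih =>
    simp only [List.map_cons, List.sum_cons] at ih ⊢
    rw [ih]
    ring

section
variable {m n : ℕ} {A : Matrix (Fin m) (Fin n) ℝ} {b : Fin m → ℝ}

theorem tms_lt {r : ℕ} (hr : r < 36 * Td m n) {e : ℕ × Reg × Reg}
    (he : e ∈ tms (Wd n) (Td m n) r) : e.1 < 12 * Td m n := by
  have ht : r / 3 / 12 < Td m n := by omega
  unfold tms at he
  split_ifs at he with h1 h2
  · rw [List.mem_singleton] at he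
    rw [he]
    simp only
    omega
  · exact eqs_lt ht (Nat.mod_lt _ (by norm_num)) he
  · rw [List.mem_map] at he
    obtain ⟨e', he', rfl⟩ := he
    exact eqs_lt (e := e') ht (Nat.mod_lt _ (by norm_num)) he'

theorem lA_mulVec (y : Fin (12 * Td m n) → ℝ) (r : Fin (36 * Td m n)) :
    (lA A b).mulVec y r = dot (start A b) (ext0 y) (tms (Wd n) (Td m n) r) := by
  simp only [Matrix.mulVec, dotProduct, lA]
  rw [rowOf_dot]
  simp only [rt, List.map_map, dot]
  rfl

theorem feas_iff : (∃ y, lb A b ≤ (lA A b).mulVec y) ↔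
    ∃ Y : ℕ → ℝ, ∀ r : Fin (36 * Td m n), lb A b r ≤
      dot (start A b) Y (tms (Wd n) (Td m n) r) := by
  constructor
  · rintro ⟨y, hy⟩
    exact ⟨ext0 y, fun r => by rw [← lA_mulVec]; exact hy r⟩
  · rintro ⟨Y, hY⟩
    refine ⟨fun c => Y c, fun r => ?_⟩
    rw [lA_mulVec]
    refine (hY r).trans (le_of_eq ?_)
    unfold dot
    congr 1
    refine List.map_congr_left fun e he => ?_
    have := tms_lt r.2 he
    simp [ext0, this]

/-- the conditions on a solution -/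
structure Sol (A : Matrix (Fin m) (Fin n) ℝ) (b : Fin m → ℝ) (Y : ℕ → ℝ) : Prop where
  nn : ∀ a < 12 * Td m n, 0 ≤ Y a
  eq : ∀ t < Td m n, ∀ k < 12, dot (start A b) Y (eqs (Wd n) (Td m n) t k) = 0
  sl : ∀ i : Fin m, b i ≤ Y (12 * (2 * (i : ℕ) * Wd n + (2 * n + 1)) + 4)

theorem dot_single (Y : ℕ → ℝ) (a : ℕ) : dot (start A b) Y [(a, [2], [3])] = Y a := by
  simp [dot, start_two, start_three]

theorem slack_lt (i : Fin m) : 2 * (i : ℕ) * Wd n + (2 * n + 1) < Td m n := by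
  unfold Td Wd
  have h1 := i.2
  have h2 : 2 * (i : ℕ) * (2 * n + 2) + (2 * n + 2) ≤ 2 * m * (2 * n + 2) := by
    rw [← Nat.succ_mul]
    exact Nat.mul_le_mul_right _ (by omega)
  omega

theorem slack_div (i : ℕ) : (2 * i * Wd n + (2 * n + 1)) / Wd n = 2 * i ∧
    (2 * i * Wd n + (2 * n + 1)) % Wd n = 2 * n + 1 := by
  have h : 2 * n + 1 < Wd n := by unfold Wd; omega
  constructor
  · rw [mul_comm (2 * i), Nat.mul_add_div (Wd_pos n), Nat.div_eq_of_lt h, add_zero]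
  · rw [mul_comm (2 * i), Nat.mul_add_mod, Nat.mod_eq_of_lt h]

theorem kind_slack (i : ℕ) : kind (Wd n) (2 * i * Wd n + (2 * n + 1)) = 3 := by
  obtain ⟨h1, h2⟩ := slack_div (n := n) i
  unfold kind
  rw [h1, h2]
  unfold Wd
  rw [if_neg (by omega), if_pos (by omega), if_pos (by omega)]

theorem sol_of_rows (hb : ∀ i, b i = 0 ∨ b i = 1) {Y : ℕ → ℝ}
    (h : ∀ r : Fin (36 * Td m n), lb A b r ≤ dot (start A b) Y (tms (Wd n) (Td m n) r)) :
    Sol A b Y := by
  refine ⟨fun a ha => ?_, fun t ht k hk => ?_, fun i => ?_⟩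
  · obtain ⟨r, hr⟩ : ∃ r : Fin (36 * Td m n), (r : ℕ) = 3 * a + 2 := ⟨⟨3 * a + 2, by omega⟩, rfl⟩
    have h1 := h r
    have h2 : 0 ≤ lb A b r := by rcases lb_cases (A := A) hb r with h2 | h2 <;> rw [h2]; norm_num
    unfold tms at h1
    rw [if_pos (Or.inl (by omega)), dot_single, show (r : ℕ) / 3 = a by omega] at h1
    exact h2.trans h1
  · by_cases hE : eqs (Wd n) (Td m n) t k = []
    · rw [hE]; rfl
    · obtain ⟨r, hr⟩ : ∃ r : Fin (36 * Td m n), (r : ℕ) = 3 * (12 * t + k) :=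
        ⟨⟨3 * (12 * t + k), by omega⟩, rfl⟩
      obtain ⟨r', hr'⟩ : ∃ r : Fin (36 * Td m n), (r : ℕ) = 3 * (12 * t + k) + 1 :=
        ⟨⟨3 * (12 * t + k) + 1, by omega⟩, rfl⟩
      have h1 := h r
      have h1' := h r'
      rw [lb_eq_zero (by omega)] at h1 h1'
      unfold tms at h1 h1'
      rw [show (r : ℕ) / 3 / 12 = t by omega, show (r : ℕ) / 3 % 12 = k by omega, if_neg (by
        rintro (hc | hc)
        · omega
        · exact hE hc), if_pos (by omega)] at h1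
      rw [show (r' : ℕ) / 3 / 12 = t by omega, show (r' : ℕ) / 3 % 12 = k by omega, if_neg (by
        rintro (hc | hc)
        · omega
        · exact hE hc), if_neg (by omega), dot_swap] at h1'
      linarith
  · have hi := slack_lt (n := n) i
    obtain ⟨h3, h4⟩ := slack_div (n := n) (i : ℕ)
    set t := 2 * (i : ℕ) * Wd n + (2 * n + 1) with ht
    obtain ⟨r, hr⟩ : ∃ r : Fin (36 * Td m n), (r : ℕ) = 3 * (12 * t + 4) + 2 :=
      ⟨⟨3 * (12 * t + 4) + 2, by omega⟩, rfl⟩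
    have h1 := h r
    unfold tms at h1
    rw [if_pos (Or.inl (by omega)), dot_single, show (r : ℕ) / 3 = 12 * t + 4 by omega] at h1
    refine le_trans (le_of_eq ?_) h1
    unfold lb
    have e1 : (r : ℕ) / 3 / 12 = t := by omega
    rw [e1, h3, if_pos ⟨by omega, by omega, by rw [ht]; exact kind_slack _⟩]
    simp only [start]
    rw [show 2 * (i : ℕ) / 2 = i by omega, dif_pos i.2]

theorem rows_of_sol {Y : ℕ → ℝ} (h : Sol A b Y) (r : Fin (36 * Td m n)) :
    lb A b r ≤ dot (start A b) Y (tms (Wd n) (Td m n) r) := by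
  have hcell : (r : ℕ) / 3 / 12 < Td m n := by have := r.2; omega
  by_cases hr : (r : ℕ) % 3 = 2 ∨
      eqs (Wd n) (Td m n) ((r : ℕ) / 3 / 12) ((r : ℕ) / 3 % 12) = []
  · unfold tms
    rw [if_pos hr, dot_single]
    by_cases hl : lb A b r = 0
    · rw [hl]
      exact h.nn _ (by omega)
    · obtain ⟨a1, a2, a3, i, a4, a5⟩ := lb_ne_zero hl
      obtain ⟨a6, a7⟩ := kind_three a3
      have e1 : (r : ℕ) / 3 / 12 / Wd n = 2 * i := by omega
      have e2 : (r : ℕ) / 3 / 12 % Wd n = 2 * n + 1 := by unfold Wd at a6 ⊢; omega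
      have e3 : (r : ℕ) / 3 / 12 = 2 * (i : ℕ) * Wd n + (2 * n + 1) := by
        rw [← Nat.div_add_mod ((r : ℕ) / 3 / 12) (Wd n), e1, e2, mul_comm (Wd n)]
      have e4 : (r : ℕ) / 3 = 12 * (2 * (i : ℕ) * Wd n + (2 * n + 1)) + 4 := by omega
      rw [e4]
      refine le_trans (le_of_eq ?_) (h.sl i)
      unfold lb
      rw [if_pos ⟨a1, a2, a3⟩, ← a4]
      simp only [start]
      rw [dif_pos i.2]
  · have h0 := h.eq _ hcell _ (Nat.mod_lt ((r : ℕ) / 3) (by norm_num : 0 < 12))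
    unfold tms
    rw [lb_eq_zero (fun hc => hr (Or.inl hc)), if_neg hr]
    split_ifs
    · rw [h0]
    · rw [dot_swap, h0, neg_zero]

/-! ### Local consequences of the equations -/

section cells
variable {ρ : Reg → ℝ} {Y : ℕ → ℝ} {W T t : ℕ}

theorem eqs_of_lt {k : ℕ} (hk : k < 10) : eqs W T t k = eqsL (kind W t) k t (gr W t) := by
  unfold eqs
  rw [if_pos hk]

theorem cell0 (h2 : ρ [2] = 1) (h3 : ρ [3] = 0) (hk : kind W t = 0)
    (hE : ∀ k < 10, dot ρ Y (eqs W T t k) = 0) :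
    Y (12 * t + 10) = Y (12 * t + 7) ∧
      Y (12 * t + 11) = Y (12 * t) + ρ (gr W t) * Y (12 * t + 7) := by
  have hd : ∀ k < 10, dot ρ Y (eqsL 0 k t (gr W t)) = 0 := fun k hk' => by
    rw [← hE k hk', eqs_of_lt hk', hk]
  have e0 := hd 0 (by norm_num)
  have e1 := hd 1 (by norm_num)
  have e2 := hd 2 (by norm_num)
  have e3 := hd 3 (by norm_num)
  have e4 := hd 4 (by norm_num)
  have e5 := hd 5 (by norm_num)
  have e6 := hd 6 (by norm_num)
  have e7 := hd 7 (by norm_num)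
  have e8 := hd 8 (by norm_num)
  have e9 := hd 9 (by norm_num)
  simp [dot, eqsL, loc, locT, h2, h3] at e0 e1 e2 e3 e4 e5 e6 e7 e8 e9
  constructor <;> linarith

theorem cell1 (h2 : ρ [2] = 1) (h3 : ρ [3] = 0) (hk : kind W t = 1)
    (hE : ∀ k < 10, dot ρ Y (eqs W T t k) = 0) : Y (12 * t + 11) = Y (12 * t + 10) := by
  have hd : ∀ k < 10, dot ρ Y (eqsL 1 k t (gr W t)) = 0 := fun k hk' => by
    rw [← hE k hk', eqs_of_lt hk', hk]
  have e3 := hd 3 (by norm_num)
  have e4 := hd 4 (by norm_num)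
  have e8 := hd 8 (by norm_num)
  have e9 := hd 9 (by norm_num)
  simp [dot, eqsL, loc, locT, h2, h3] at e3 e4 e8 e9
  linarith

theorem cell2 (h2 : ρ [2] = 1) (h3 : ρ [3] = 0) (hk : kind W t = 2)
    (hE : ∀ k < 10, dot ρ Y (eqs W T t k) = 0) : Y (12 * t + 11) = Y (12 * t + 7) := by
  have hd : ∀ k < 10, dot ρ Y (eqsL 2 k t (gr W t)) = 0 := fun k hk' => by
    rw [← hE k hk', eqs_of_lt hk', hk]
  have e7 := hd 7 (by norm_num)
  have e8 := hd 8 (by norm_num)
  have hg : ρ (gr W t) = 0 := by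
    unfold gr
    rw [if_neg (by rintro ⟨h, -⟩; omega), h3]
  simp [dot, eqsL, loc, locT, h2, h3, hg] at e7 e8
  linarith

theorem cell3 (h2 : ρ [2] = 1) (h3 : ρ [3] = 0) (hk : kind W t = 3)
    (hE : ∀ k < 10, dot ρ Y (eqs W T t k) = 0) :
    Y (12 * t) = Y (12 * t + 10) + Y (12 * t + 4) := by
  have hd : ∀ k < 10, dot ρ Y (eqsL 3 k t (gr W t)) = 0 := fun k hk' => by
    rw [← hE k hk', eqs_of_lt hk', hk]
  have e4 := hd 4 (by norm_num)
  have e5 := hd 5 (by norm_num)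
  simp [dot, eqsL, loc, locT, h2, h3] at e4 e5
  linarith

theorem cell4 (h2 : ρ [2] = 1) (h3 : ρ [3] = 0) (hk : kind W t = 4)
    (hE : ∀ k < 10, dot ρ Y (eqs W T t k) = 0) : Y (12 * t) = Y (12 * t + 7) := by
  have hd : ∀ k < 10, dot ρ Y (eqsL 4 k t (gr W t)) = 0 := fun k hk' => by
    rw [← hE k hk', eqs_of_lt hk', hk]
  have e0 := hd 0 (by norm_num)
  have e1 := hd 1 (by norm_num)
  have e6 := hd 6 (by norm_num)
  simp [dot, eqsL, loc, locT, h2, h3] at e0 e1 e6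
  linarith

theorem wire10 (h2 : ρ [2] = 1) (h3 : ρ [3] = 0)
    (hc : (kind W t = 0 ∧ t + W < T) ∨ kind W t = 1 ∨ kind W t = 3) :
    dot ρ Y (eqs W T t 10) = Y (12 * t + 10) - Y (12 * (t + W) + 7) := by
  unfold eqs
  rw [if_neg (by norm_num), if_pos rfl, if_pos hc]
  simp [dot, h2, h3]
  ring

theorem wire11 (h2 : ρ [2] = 1) (h3 : ρ [3] = 0) (hc : t % W ≠ 0) :
    dot ρ Y (eqs W T t 11) = Y (12 * (t - 1) + 11) - Y (12 * t) := by
  unfold eqs
  rw [if_neg (by norm_num), if_neg (by norm_num), if_neg hc]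
  simp [dot, h2, h3]
  ring

end cells

end

end Pool.Agent.Y592.LN
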