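import Pool.Agent.Y592.LN.Lat3

set_option autoImplicit false

/-!
# The lattice system is equivalent to the given system: both directions
-/

namespace Pool.Agent.Y592.LN

open Pool.Agent.NPC Pool.Agent.NPC.ER Pool.Agent.NPC.H612 Pool.Agent.H558R2 Pool.Agent.H622R3.SM

section
variable {m n : ℕ} {A : Matrix (Fin m) (Fin n) ℝ} {b : Fin m → ℝ}

theorem crd {I J : ℕ} (hJ : J < Wd n) : (I * Wd n + J) / Wd n = I ∧ (I * Wd n + J) % Wd n = J := by
  constructor
  · rw [mul_comm I, Nat.mul_add_div (Wd_pos n), Nat.div_eq_of_lt hJ, add_zero]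
  · rw [mul_comm I, Nat.mul_add_mod, Nat.mod_eq_of_lt hJ]

theorem crd_lt {I J : ℕ} (hI : I < 2 * m) (hJ : J < Wd n) : I * Wd n + J < Td m n := by
  rw [Td_eq]
  have h : (I + 1) * Wd n ≤ 2 * m * Wd n := Nat.mul_le_mul_right _ hI
  rw [Nat.succ_mul] at h
  omega

/-- the gain of a cell, as a function of its coordinates -/
noncomputable def G (A : Matrix (Fin m) (Fin n) ℝ) (b : Fin m → ℝ) (I J : ℕ) : ℝ :=
  if J ≠ 0 ∧ J ≠ 2 * n + 1 ∧ I % 2 = (J - 1) % 2 then start A b [0, I / 2, (J - 1) / 2] else 0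

theorem kind_crd {I J : ℕ} (hJ : J < Wd n) : kind (Wd n) (I * Wd n + J) =
    if J = 0 then (if I % 2 = 0 then 1 else 2)
    else if J = 2 * n + 1 then (if I % 2 = 0 then 3 else 4) else 0 := by
  obtain ⟨h1, h2⟩ := crd (I := I) hJ
  unfold kind
  rw [h1, h2]
  unfold Wd at hJ ⊢
  by_cases h3 : J = 0
  · rw [if_pos h3, if_pos h3]
  · rw [if_neg h3, if_neg h3]
    by_cases h4 : J = 2 * n + 1
    · rw [if_pos (by omega), if_pos h4]
    · rw [if_neg (by omega), if_neg h4]

theorem gr_crd {I J : ℕ} (hJ : J < Wd n) :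
    start A b (gr (Wd n) (I * Wd n + J)) = G A b I J := by
  obtain ⟨h1, h2⟩ := crd (I := I) hJ
  have hiff : ((if J = 0 then (if I % 2 = 0 then 1 else 2)
      else if J = 2 * n + 1 then (if I % 2 = 0 then 3 else 4) else 0) = 0 ∧
        I % 2 = (J - 1) % 2) ↔ (J ≠ 0 ∧ J ≠ 2 * n + 1 ∧ I % 2 = (J - 1) % 2) := by
    split_ifs <;> simp_all
  unfold gr G
  rw [kind_crd hJ, h1, h2]
  by_cases hc : J ≠ 0 ∧ J ≠ 2 * n + 1 ∧ I % 2 = (J - 1) % 2
  · rw [if_pos (hiff.2 hc), if_pos hc]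
  · rw [if_neg (fun h => hc (hiff.1 h)), if_neg hc, start_three]

/-! ### From a solution of the network -/

theorem sol_to (hn : 1 ≤ n) {Y : ℕ → ℝ} (h : Sol A b Y) : ∃ x : Fin n → ℝ, b ≤ A.mulVec x := by
  have h2 : start A b [2] = 1 := rfl
  have h3 : start A b [3] = 0 := rfl
  have hWd : Wd n = 2 * n + 2 := rfl
  -- cells
  have c0 : ∀ I < 2 * m, ∀ J, 1 ≤ J → J ≤ 2 * n →
      Y (12 * (I * Wd n + J) + 10) = Y (12 * (I * Wd n + J) + 7) ∧
      Y (12 * (I * Wd n + J) + 11) = Y (12 * (I * Wd n + J)) +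
        G A b I J * Y (12 * (I * Wd n + J) + 7) := by
    intro I hI J hJ hJ'
    have hJ2 : J < Wd n := by omega
    have h4 := cell0 (ρ := start A b) (Y := Y) (W := Wd n) (T := Td m n) (t := I * Wd n + J) h2 h3
      (by rw [kind_crd hJ2, if_neg (by omega), if_neg (by omega)])
      (fun k hk => h.eq _ (crd_lt hI hJ2) k (by omega))
    rwa [gr_crd hJ2] at h4
  -- horizontal wires
  have hw : ∀ I < 2 * m, ∀ J, J ≤ 2 * n →
      Y (12 * (I * Wd n + (J + 1))) = Y (12 * (I * Wd n + J) + 11) := by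
    intro I hI J hJ
    have hJ2 : J + 1 < Wd n := by omega
    have h4 := h.eq _ (crd_lt hI hJ2) 11 (by norm_num)
    rw [wire11 h2 h3 (by rw [(crd (I := I) hJ2).2]; omega),
      show I * Wd n + (J + 1) - 1 = I * Wd n + J by omega] at h4
    linarith
  -- vertical wires
  have hv : ∀ I, I + 1 < 2 * m → ∀ J, J < Wd n →
      (kind (Wd n) (I * Wd n + J) = 0 ∨ kind (Wd n) (I * Wd n + J) = 1 ∨
        kind (Wd n) (I * Wd n + J) = 3) →
      Y (12 * (I * Wd n + J) + 10) = Y (12 * ((I + 1) * Wd n + J) + 7) := by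
    intro I hI J hJ hk
    have e1 : I * Wd n + J + Wd n = (I + 1) * Wd n + J := by ring
    have h5 := crd_lt (m := m) hI hJ
    have h4 := h.eq _ (crd_lt (by omega : I < 2 * m) hJ) 10 (by norm_num)
    rw [wire10 h2 h3 (by
      rcases hk with hk | hk | hk
      · exact Or.inl ⟨hk, by rw [e1]; exact h5⟩
      · exact Or.inr (Or.inl hk)
      · exact Or.inr (Or.inr hk)), e1] at h4
    linarith
  -- the columns
  have hx : ∀ I < 2 * m, ∀ J, 1 ≤ J → J ≤ 2 * n →
      Y (12 * (I * Wd n + J) + 7) = Y (12 * (0 * Wd n + J) + 7) := by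
    intro I
    induction I with
    | zero => intro _ J _ _; rfl
    | succ I ih =>
      intro hI J hJ hJ'
      rw [← hv I hI J (by omega) (Or.inl (by
        rw [kind_crd (by omega), if_neg (by omega), if_neg (by omega)])),
        (c0 I (by omega) J hJ hJ').1]
      exact ih (by omega) J hJ hJ'
  -- one step to the right
  have hs : ∀ I < 2 * m, ∀ J, 1 ≤ J → J ≤ 2 * n →
      Y (12 * (I * Wd n + (J + 1))) = Y (12 * (I * Wd n + J)) +
        G A b I J * Y (12 * (0 * Wd n + J) + 7) := by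
    intro I hI J hJ hJ'
    rw [hw I hI J hJ', (c0 I hI J hJ hJ').2, hx I hI J hJ hJ']
  set x : Fin n → ℝ := fun j => Y (12 * (0 * Wd n + (2 * (j : ℕ) + 1)) + 7) -
    Y (12 * (0 * Wd n + (2 * (j : ℕ) + 2)) + 7) with hxdef
  refine ⟨x, fun i => ?_⟩
  have hi := i.2
  -- the left end
  have hl : Y (12 * (2 * (i : ℕ) * Wd n + 1)) = Y (12 * ((2 * (i : ℕ) + 1) * Wd n + 1)) := by
    have hk1 : kind (Wd n) (2 * (i : ℕ) * Wd n + 0) = 1 := by
      rw [kind_crd (Wd_pos n), if_pos rfl, if_pos (by omega)]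
    have hk2 : kind (Wd n) ((2 * (i : ℕ) + 1) * Wd n + 0) = 2 := by
      rw [kind_crd (Wd_pos n), if_pos rfl, if_neg (by omega)]
    have e1 := hw (2 * (i : ℕ)) (by omega) 0 (by omega)
    have e2 := hw (2 * (i : ℕ) + 1) (by omega) 0 (by omega)
    have e3 := cell1 h2 h3 hk1 (fun k hk => h.eq _ (crd_lt (by omega) (Wd_pos n)) k (by omega))
    have e4 := cell2 h2 h3 hk2 (fun k hk => h.eq _ (crd_lt (by omega) (Wd_pos n)) k (by omega))
    have e5 := hv (2 * (i : ℕ)) (by omega) 0 (Wd_pos n) (Or.inr (Or.inl hk1))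
    rw [zero_add] at e1 e2
    rw [e1, e2, e3, e4, e5]
  -- the right end
  have hr : Y (12 * (2 * (i : ℕ) * Wd n + (2 * n + 1))) =
      Y (12 * ((2 * (i : ℕ) + 1) * Wd n + (2 * n + 1))) +
        Y (12 * (2 * (i : ℕ) * Wd n + (2 * n + 1)) + 4) := by
    have hJ : 2 * n + 1 < Wd n := by omega
    have hk1 : kind (Wd n) (2 * (i : ℕ) * Wd n + (2 * n + 1)) = 3 := kind_slack _
    have hk2 : kind (Wd n) ((2 * (i : ℕ) + 1) * Wd n + (2 * n + 1)) = 4 := by
      rw [kind_crd hJ, if_neg (by omega), if_pos rfl, if_neg (by omega)]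
    have e3 := cell3 h2 h3 hk1 (fun k hk => h.eq _ (crd_lt (by omega) hJ) k (by omega))
    have e4 := cell4 h2 h3 hk2 (fun k hk => h.eq _ (crd_lt (by omega) hJ) k (by omega))
    have e5 := hv (2 * (i : ℕ)) (by omega) (2 * n + 1) hJ (Or.inr (Or.inr hk1))
    rw [e3, e5, ← e4]
  -- the sums
  have hsum : ∀ j, j ≤ n → Y (12 * (2 * (i : ℕ) * Wd n + (2 * j + 1))) -
      Y (12 * ((2 * (i : ℕ) + 1) * Wd n + (2 * j + 1))) =
      ∑ j' ∈ Finset.range j, start A b [0, (i : ℕ), j'] *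
        (Y (12 * (0 * Wd n + (2 * j' + 1)) + 7) - Y (12 * (0 * Wd n + (2 * j' + 2)) + 7)) := by
    intro j
    induction j with
    | zero =>
      intro _
      rw [mul_zero, zero_add, hl]
      simp
    | succ j ih =>
      intro hj
      have a1 := hs (2 * (i : ℕ)) (by omega) (2 * j + 1) (by omega) (by omega)
      have a2 := hs (2 * (i : ℕ)) (by omega) (2 * j + 2) (by omega) (by omega)
      have a3 := hs (2 * (i : ℕ) + 1) (by omega) (2 * j + 1) (by omega) (by omega)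
      have a4 := hs (2 * (i : ℕ) + 1) (by omega) (2 * j + 2) (by omega) (by omega)
      have g1 : G A b (2 * (i : ℕ)) (2 * j + 1) = start A b [0, (i : ℕ), j] := by
        unfold G
        rw [if_pos ⟨by omega, by omega, by omega⟩, show 2 * (i : ℕ) / 2 = i by omega,
          show (2 * j + 1 - 1) / 2 = j by omega]
      have g2 : G A b (2 * (i : ℕ)) (2 * j + 2) = 0 := by
        unfold G
        rw [if_neg (by rintro ⟨-, -, h⟩; omega)]
      have g3 : G A b (2 * (i : ℕ) + 1) (2 * j + 1) = 0 := by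
        unfold G
        rw [if_neg (by rintro ⟨-, -, h⟩; omega)]
      have g4 : G A b (2 * (i : ℕ) + 1) (2 * j + 2) = start A b [0, (i : ℕ), j] := by
        unfold G
        rw [if_pos ⟨by omega, by omega, by omega⟩, show (2 * (i : ℕ) + 1) / 2 = i by omega,
          show (2 * j + 2 - 1) / 2 = j by omega]
      rw [Finset.sum_range_succ, ← ih (by omega)]
      rw [g1] at a1
      rw [g2] at a2
      rw [g3] at a3
      rw [g4] at a4
      rw [show 2 * (j + 1) + 1 = 2 * j + 2 + 1 by ring, a2, a4,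
        show 2 * j + 2 = 2 * j + 1 + 1 by ring, a1, a3]
      ring
  have h4 := hsum n le_rfl
  have h5 : A.mulVec x i = ∑ j' ∈ Finset.range n, start A b [0, (i : ℕ), j'] *
      (Y (12 * (0 * Wd n + (2 * j' + 1)) + 7) - Y (12 * (0 * Wd n + (2 * j' + 2)) + 7)) := by
    rw [Finset.sum_range]
    simp only [Matrix.mulVec, dotProduct]
    refine Finset.sum_congr rfl fun j _ => ?_
    simp only [start]
    rw [dif_pos ⟨i.2, j.2⟩]
  rw [h5, ← h4]
  have h6 := h.sl i
  linarith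

end

end Pool.Agent.Y592.LN
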