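import Pool.Agent.Y592.LN.Lat4

set_option autoImplicit false

/-!
# From a solution of the given system to a solution of the network
-/

namespace Pool.Agent.Y592.LN

open Pool.Agent.NPC Pool.Agent.NPC.ER Pool.Agent.NPC.H612 Pool.Agent.H558R2 Pool.Agent.H622R3.SM

section
variable {m n : ℕ} (A : Matrix (Fin m) (Fin n) ℝ) (b : Fin m → ℝ) (x : Fin n → ℝ)

/-- value of a column -/
noncomputable def xi (J : ℕ) : ℝ :=
  if J % 2 = 1 then max (ext0 x ((J - 1) / 2)) 0 else max (-ext0 x ((J - 1) / 2)) 0

/-- start value of a pair of rows -/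
noncomputable def Xb (i : ℕ) : ℝ :=
  ∑ J ∈ Finset.range (2 * n + 1), (|G A b (2 * i) J| + |G A b (2 * i + 1) J|) * xi x J

/-- running sums -/
noncomputable def S (I J : ℕ) : ℝ := Xb A b x (I / 2) + ∑ J' ∈ Finset.range J, G A b I J' * xi x J'

/-- the solution of the network -/
noncomputable def val (I J l : ℕ) : ℝ :=
  if J = 0 then Xb A b x (I / 2)
  else if J = 2 * n + 1 then
    (if I % 2 = 0 then
      (if l = 0 ∨ l = 5 then S A b x I J else if l = 4 then S A b x I J - S A b x (I + 1) J
        else S A b x (I + 1) J)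
    else S A b x I J)
  else [S A b x I J, S A b x I J, S A b x I J + xi x J, S A b x I J + xi x J,
    S A b x I J + xi x J, S A b x I J, xi x J, xi x J, (1 - G A b I J) * xi x J,
    S A b x I J + xi x J, xi x J, S A b x I J + G A b I J * xi x J].getD l 0

/-- the solution of the network, as a function of the address -/
noncomputable def Yv (a : ℕ) : ℝ := val A b x (a / 12 / Wd n) (a / 12 % Wd n) (a % 12)

theorem xi_nonneg (J : ℕ) : 0 ≤ xi x J := by
  unfold xi
  split_ifs <;> exact le_max_right _ _

theorem Xb_nonneg (i : ℕ) : 0 ≤ Xb A b x i :=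
  Finset.sum_nonneg fun J _ => mul_nonneg (by positivity) (xi_nonneg x J)

theorem S_nonneg (I J : ℕ) (hJ : J ≤ 2 * n + 1) : 0 ≤ S A b x I J := by
  unfold S Xb
  have h1 : ∑ J' ∈ Finset.range J, -(G A b I J' * xi x J') ≤
      ∑ J' ∈ Finset.range J, (|G A b (2 * (I / 2)) J'| + |G A b (2 * (I / 2) + 1) J'|) * xi x J' := by
    refine Finset.sum_le_sum fun J' _ => ?_
    rw [← neg_mul]
    refine mul_le_mul_of_nonneg_right ?_ (xi_nonneg x J')
    have h2 := neg_le_abs (G A b I J')
    have h3 := abs_nonneg (G A b (2 * (I / 2)) J')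
    have h4 := abs_nonneg (G A b (2 * (I / 2) + 1) J')
    rcases (by omega : 2 * (I / 2) = I ∨ 2 * (I / 2) + 1 = I) with h | h
    · rw [h] at h3 h4 ⊢
      linarith
    · rw [h] at h4 ⊢
      linarith
  have h2 : ∑ J' ∈ Finset.range J, (|G A b (2 * (I / 2)) J'| + |G A b (2 * (I / 2) + 1) J'|) *
      xi x J' ≤ ∑ J' ∈ Finset.range (2 * n + 1),
        (|G A b (2 * (I / 2)) J'| + |G A b (2 * (I / 2) + 1) J'|) * xi x J' :=
    Finset.sum_le_sum_of_subset_of_nonneg
      (fun a ha => Finset.mem_range.2 (lt_of_lt_of_le (Finset.mem_range.1 ha) hJ))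
      (fun J' _ _ => mul_nonneg (by positivity) (xi_nonneg x J'))
  rw [Finset.sum_neg_distrib] at h1
  linarith

theorem S_succ (I J : ℕ) : S A b x I (J + 1) = S A b x I J + G A b I J * xi x J := by
  unfold S
  rw [Finset.sum_range_succ]
  ring

theorem G_zero (I : ℕ) : G A b I 0 = 0 := by
  unfold G
  rw [if_neg (by rintro ⟨h, -⟩; exact h rfl)]

theorem S_one (I : ℕ) : S A b x I 1 = Xb A b x (I / 2) := by
  rw [show (1 : ℕ) = 0 + 1 from rfl, S_succ, G_zero]
  simp [S]

theorem slack_eq (i : Fin m) :
    S A b x (2 * (i : ℕ)) (2 * n + 1) - S A b x (2 * (i : ℕ) + 1) (2 * n + 1) =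
      A.mulVec x i := by
  have h1 : ∀ j, j ≤ n → S A b x (2 * (i : ℕ)) (2 * j + 1) - S A b x (2 * (i : ℕ) + 1) (2 * j + 1) =
      ∑ j' ∈ Finset.range j, start A b [0, (i : ℕ), j'] * ext0 x j' := by
    intro j
    induction j with
    | zero =>
      intro _
      rw [mul_zero, zero_add, S_one, S_one, show 2 * (i : ℕ) / 2 = i by omega,
        show (2 * (i : ℕ) + 1) / 2 = i by omega]
      simp
    | succ j ih =>
      intro hj
      have g1 : G A b (2 * (i : ℕ)) (2 * j + 1) = start A b [0, (i : ℕ), j] := by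
        unfold G
        rw [if_pos ⟨by omega, by omega, by omega⟩, show 2 * (i : ℕ) / 2 = i by omega,
          show (2 * j + 1 - 1) / 2 = j by omega]
      have g2 : G A b (2 * (i : ℕ)) (2 * j + 2) = 0 := by
        unfold G
        rw [if_neg (by rintro ⟨-, -, h⟩; omega)]
      have g3 : G A b (2 * (i : ℕ) + 1) (2 * j + 1) = 0 := by
        unfold G
        rw [if_neg (by rintro ⟨-, -, h⟩; omega)]
      have g4 : G A b (2 * (i : ℕ) + 1) (2 * j + 2) = start A b [0, (i : ℕ), j] := by
        unfold G
        rw [if_pos ⟨by omega, by omega, by omega⟩, show (2 * (i : ℕ) + 1) / 2 = i by omega,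
          show (2 * j + 2 - 1) / 2 = j by omega]
      have x1 : xi x (2 * j + 1) = max (ext0 x j) 0 := by
        unfold xi
        rw [if_pos (by omega), show (2 * j + 1 - 1) / 2 = j by omega]
      have x2 : xi x (2 * j + 2) = max (-ext0 x j) 0 := by
        unfold xi
        rw [if_neg (by omega), show (2 * j + 2 - 1) / 2 = j by omega]
      have x3 : max (ext0 x j) 0 - max (-ext0 x j) 0 = ext0 x j := by
        rcases le_total 0 (ext0 x j) with h | h
        · rw [max_eq_left h, max_eq_right (by linarith)]; ring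
        · rw [max_eq_right h, max_eq_left (by linarith)]; ring
      have a1 : S A b x (2 * (i : ℕ)) (2 * j + 2) = S A b x (2 * (i : ℕ)) (2 * j + 1) +
          G A b (2 * (i : ℕ)) (2 * j + 1) * xi x (2 * j + 1) := S_succ A b x _ (2 * j + 1)
      have a2 : S A b x (2 * (i : ℕ)) (2 * j + 3) = S A b x (2 * (i : ℕ)) (2 * j + 2) +
          G A b (2 * (i : ℕ)) (2 * j + 2) * xi x (2 * j + 2) := S_succ A b x _ (2 * j + 2)
      have a3 : S A b x (2 * (i : ℕ) + 1) (2 * j + 2) = S A b x (2 * (i : ℕ) + 1) (2 * j + 1) +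
          G A b (2 * (i : ℕ) + 1) (2 * j + 1) * xi x (2 * j + 1) := S_succ A b x _ (2 * j + 1)
      have a4 : S A b x (2 * (i : ℕ) + 1) (2 * j + 3) = S A b x (2 * (i : ℕ) + 1) (2 * j + 2) +
          G A b (2 * (i : ℕ) + 1) (2 * j + 2) * xi x (2 * j + 2) := S_succ A b x _ (2 * j + 2)
      rw [g1, x1] at a1
      rw [g2] at a2
      rw [g3] at a3
      rw [g4, x2] at a4
      have x4 : start A b [0, (i : ℕ), j] * ext0 x j = start A b [0, (i : ℕ), j] *
          (max (ext0 x j) 0 - max (-ext0 x j) 0) := by rw [x3]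
      rw [Finset.sum_range_succ, ← ih (by omega), show 2 * (j + 1) + 1 = 2 * j + 3 by ring,
        a2, a1, a4, a3, x4]
      ring
  rw [h1 n le_rfl, Finset.sum_range]
  simp only [Matrix.mulVec, dotProduct]
  refine Finset.sum_congr rfl fun j _ => ?_
  simp only [start, ext0]
  rw [dif_pos ⟨i.2, j.2⟩, dif_pos j.2]

variable {A b}

theorem G_small {ε : ℝ} (hε : 0 ≤ ε) (hA : ∀ i j, |A i j| ≤ ε) (I J : ℕ) : |G A b I J| ≤ ε := by
  unfold G
  split_ifs
  · simp only [start]
    split_ifs
    · exact hA _ _
    · simpa using hε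
  · simpa using hε

theorem Yv_crd {I J l : ℕ} (hJ : J < Wd n) (hl : l < 12) :
    Yv A b x (12 * (I * Wd n + J) + l) = val A b x I J l := by
  unfold Yv
  rw [show (12 * (I * Wd n + J) + l) / 12 = I * Wd n + J by omega,
    show (12 * (I * Wd n + J) + l) % 12 = l by omega, (crd hJ).1, (crd hJ).2]

theorem sol_of (hn : 1 ≤ n) (hA : ∀ i j, |A i j| ≤ 1) (hb : ∀ i, b i = 0 ∨ b i = 1)
    (hx : b ≤ A.mulVec x) : Sol A b (Yv A b x) := by
  have hWd : Wd n = 2 * n + 2 := rfl
  have h2 : start A b [2] = 1 := rfl
  have h3 : start A b [3] = 0 := rfl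
  have hsl : ∀ i : Fin m, b i ≤ S A b x (2 * (i : ℕ)) (2 * n + 1) -
      S A b x (2 * (i : ℕ) + 1) (2 * n + 1) := fun i => by
    rw [slack_eq]
    exact hx i
  have hbn : ∀ i, 0 ≤ b i := fun i => by rcases hb i with h | h <;> rw [h]; norm_num
  refine ⟨fun a ha => ?_, fun t ht k hk => ?_, fun i => ?_⟩
  · -- nonnegative
    unfold Yv
    set I := a / 12 / Wd n with hI
    set J := a / 12 % Wd n with hJ
    have hJlt : J < Wd n := Nat.mod_lt _ (Wd_pos n)
    have hIlt : I < 2 * m := by
      rw [hI, Nat.div_lt_iff_lt_mul (Wd_pos n), ← Td_eq]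
      omega
    have hl : a % 12 < 12 := Nat.mod_lt _ (by norm_num)
    set l := a % 12 with hl'
    unfold val
    split_ifs with h4 h5 h6 h7 h8
    · exact Xb_nonneg A b x _
    · exact S_nonneg A b x _ _ (by omega)
    · obtain ⟨i, hi⟩ : ∃ i : Fin m, 2 * (i : ℕ) = I := ⟨⟨I / 2, by omega⟩, by simp only; omega⟩
      have := hsl i
      rw [hi] at this
      rw [h5]
      linarith [hbn i]
    · exact S_nonneg A b x _ _ (by omega)
    · exact S_nonneg A b x _ _ (by omega)
    · have s1 := S_nonneg A b x I J (by omega)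
      have s2 := S_nonneg A b x I (J + 1) (by omega)
      rw [S_succ] at s2
      have s3 := xi_nonneg x J
      have s4 := (abs_le.1 (G_small (b := b) (by norm_num) hA I J)).2
      have s5 : 0 ≤ (1 - G A b I J) * xi x J := mul_nonneg (by linarith) s3
      interval_cases l <;>
        simp only [List.getD_cons_zero, List.getD_cons_succ] <;> first | assumption | positivity
  · -- equations
    obtain ⟨I, J, hJ, rfl⟩ : ∃ I J, J < Wd n ∧ t = I * Wd n + J :=
      ⟨t / Wd n, t % Wd n, Nat.mod_lt _ (Wd_pos n), by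
        rw [mul_comm]; exact (Nat.div_add_mod t (Wd n)).symm⟩
    have hI : I < 2 * m := by
      have : (I * Wd n + J) / Wd n < 2 * m := by
        rw [Nat.div_lt_iff_lt_mul (Wd_pos n), ← Td_eq]
        exact ht
      rwa [(crd hJ).1] at this
    have hv : ∀ l < 12, Yv A b x (12 * (I * Wd n + J) + l) = val A b x I J l :=
      fun l hl => Yv_crd x hJ hl
    have hv0 := hv 0 (by norm_num)
    rw [add_zero] at hv0
    have hv1 := hv 1 (by norm_num)
    have hv2 := hv 2 (by norm_num)
    have hv3 := hv 3 (by norm_num)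
    have hv4 := hv 4 (by norm_num)
    have hv5 := hv 5 (by norm_num)
    have hv6 := hv 6 (by norm_num)
    have hv7 := hv 7 (by norm_num)
    have hv8 := hv 8 (by norm_num)
    have hv9 := hv 9 (by norm_num)
    have hv10 := hv 10 (by norm_num)
    have hv11 := hv 11 (by norm_num)
    rcases Nat.lt_or_ge k 10 with hk10 | hk10
    · rw [eqs_of_lt hk10, kind_crd hJ]
      have hg := gr_crd (A := A) (b := b) (I := I) hJ
      by_cases hJ0 : J = 0
      · have hg0 : start A b (gr (Wd n) (I * Wd n + J)) = 0 := by rw [hg, hJ0, G_zero]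
        have hvv : ∀ l, val A b x I J l = Xb A b x (I / 2) := fun l => by
          unfold val
          rw [if_pos hJ0]
        rw [hvv] at hv0 hv1 hv2 hv3 hv4 hv5 hv6 hv7 hv8 hv9 hv10 hv11
        rw [if_pos hJ0]
        split_ifs
        · interval_cases k <;>
            simp [dot, eqsL, loc, locT, h2, h3, hv3, hv4, hv9, hv10, hv11]
        · interval_cases k <;>
            simp [dot, eqsL, loc, locT, h2, h3, hg0, hv7, hv8, hv11]
      · rw [if_neg hJ0]
        by_cases hJ1 : J = 2 * n + 1
        · rw [if_pos hJ1]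
          by_cases hI2 : I % 2 = 0
          · rw [if_pos hI2]
            have e0 : Yv A b x (12 * (I * Wd n + J)) = S A b x I J := by
              rw [hv0]; unfold val; rw [if_neg hJ0, if_pos hJ1, if_pos hI2, if_pos (Or.inl rfl)]
            have e5 : Yv A b x (12 * (I * Wd n + J) + 5) = S A b x I J := by
              rw [hv5]; unfold val; rw [if_neg hJ0, if_pos hJ1, if_pos hI2, if_pos (Or.inr rfl)]
            have e4 : Yv A b x (12 * (I * Wd n + J) + 4) = S A b x I J - S A b x (I + 1) J := by
              rw [hv4]; unfold val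
              rw [if_neg hJ0, if_pos hJ1, if_pos hI2, if_neg (by omega), if_pos rfl]
            have e10 : Yv A b x (12 * (I * Wd n + J) + 10) = S A b x (I + 1) J := by
              rw [hv10]; unfold val
              rw [if_neg hJ0, if_pos hJ1, if_pos hI2, if_neg (by omega), if_neg (by omega)]
            interval_cases k <;>
              simp [dot, eqsL, loc, locT, h2, h3, e0, e5, e4, e10]
            ring
          · rw [if_neg hI2]
            have hvv : ∀ l, val A b x I J l = S A b x I J := fun l => by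
              unfold val
              rw [if_neg hJ0, if_pos hJ1, if_neg hI2]
            rw [hvv] at hv0 hv1 hv2 hv3 hv4 hv5 hv6 hv7 hv8 hv9 hv10 hv11
            interval_cases k <;>
              simp [dot, eqsL, loc, locT, h2, h3, hv0, hv1, hv6, hv7]
        · rw [if_neg hJ1]
          unfold val at hv0 hv1 hv2 hv3 hv4 hv5 hv6 hv7 hv8 hv9 hv10 hv11
          rw [if_neg hJ0, if_neg hJ1] at hv0 hv1 hv2 hv3 hv4 hv5 hv6 hv7 hv8 hv9 hv10 hv11
          simp only [List.getD_cons_zero, List.getD_cons_succ] at hv0 hv1 hv2 hv3 hv4 hv5 hv6 hv7 hv8 hv9 hv10 hv11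
          interval_cases k <;>
            simp [dot, eqsL, loc, locT, h2, h3, hg, hv0, hv1, hv2, hv3, hv4, hv5, hv6, hv7, hv8,
              hv9, hv10, hv11] <;> ring
    · rcases (by omega : k = 10 ∨ k = 11) with rfl | rfl
      · by_cases hc : (kind (Wd n) (I * Wd n + J) = 0 ∧ I * Wd n + J + Wd n < Td m n) ∨
            kind (Wd n) (I * Wd n + J) = 1 ∨ kind (Wd n) (I * Wd n + J) = 3
        · rw [wire10 h2 h3 hc, show I * Wd n + J + Wd n = (I + 1) * Wd n + J by ring,
            Yv_crd x hJ (by norm_num), Yv_crd x hJ (by norm_num), sub_eq_zero]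
          rw [kind_crd hJ] at hc
          unfold val
          by_cases hJ0 : J = 0
          · simp only [hJ0, if_true] at hc ⊢
            have hI2 : I % 2 = 0 := by
              by_contra hI2
              simp [hI2] at hc
            rw [show (I + 1) / 2 = I / 2 by omega]
          · by_cases hJ1 : J = 2 * n + 1
            · have hI2 : I % 2 = 0 := by
                by_contra hI2
                simp [hJ1, hI2] at hc
              rw [if_neg hJ0, if_pos hJ1, if_pos hI2, if_neg (by omega), if_neg (by omega),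
                if_neg hJ0, if_pos hJ1, if_neg (by omega)]
            · rw [if_neg hJ0, if_neg hJ1, if_neg hJ0, if_neg hJ1]
              simp
        · unfold eqs
          rw [if_neg (by norm_num), if_pos rfl, if_neg hc]
          rfl
      · by_cases hJ0 : J = 0
        · unfold eqs
          rw [if_neg (by norm_num), if_neg (by norm_num), if_pos (by rw [(crd hJ).2]; exact hJ0)]
          rfl
        · rw [wire11 h2 h3 (by rw [(crd hJ).2]; exact hJ0),
            show I * Wd n + J - 1 = I * Wd n + (J - 1) by omega,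
            Yv_crd x (by omega) (by norm_num), sub_eq_zero, hv0]
          obtain ⟨J', rfl⟩ : ∃ J', J = J' + 1 := ⟨J - 1, by omega⟩
          rw [Nat.add_sub_cancel]
          have e1 : val A b x I (J' + 1) 0 = S A b x I (J' + 1) := by
            unfold val
            rw [if_neg (by omega)]
            split_ifs with h4 h5 h6
            · rfl
            · exact absurd (Or.inl rfl) h6
            · exact absurd (Or.inl rfl) h6
            · rfl
            · simp
          rw [e1]
          unfold val
          by_cases h4 : J' = 0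
          · subst h4
            rw [if_pos rfl, zero_add, S_one]
          · rw [if_neg h4, if_neg (by omega), S_succ]
            simp
  · -- slack
    have hJ : 2 * n + 1 < Wd n := by omega
    rw [Yv_crd x hJ (by norm_num)]
    unfold val
    rw [if_neg (by omega), if_pos rfl, if_pos (by omega), if_neg (by omega), if_pos rfl]
    exact hsl i

/-- the network is feasible if and only if the given system is -/
theorem lfeas (hn : 1 ≤ n) (hA : ∀ i j, |A i j| ≤ 1) (hb : ∀ i, b i = 0 ∨ b i = 1) :
    (∃ y, lb A b ≤ (lA A b).mulVec y) ↔ ∃ x : Fin n → ℝ, b ≤ A.mulVec x := by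
  rw [feas_iff]
  constructor
  · rintro ⟨Y, hY⟩
    exact sol_to hn (sol_of_rows hb hY)
  · rintro ⟨x, hx⟩
    exact ⟨Yv A b x, rows_of_sol (sol_of x hn hA hb hx)⟩

end

end Pool.Agent.Y592.LN
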