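import Pool.Agent.Y592.LN.Lat5

set_option autoImplicit false

/-!
# The lattice reduction
-/

namespace Pool.Agent.Y592.LN

open Pool.Agent.NPC Pool.Agent.NPC.ER Pool.Agent.NPC.H612 Pool.Agent.H558R2 Pool.Agent.H622R3.SM

/-- the program -/
def lprog (m n : ℕ) : List Instr :=
  ((List.range (36 * Td m n)).flatMap fun r => (tms (Wd n) (Td m n) r).map fun e =>
    ⟨Op.sub, [9, 0, r, e.1], e.2.1, e.2.2⟩) ++
  (((List.range (36 * Td m n)).flatMap fun r =>
    if r % 3 = 2 ∧ r / 3 % 12 = 4 ∧ kind (Wd n) (r / 3 / 12) = 3 then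
      [⟨Op.add, [9, 1, r], [1, r / 3 / 12 / Wd n / 2], [3]⟩] else []) ++
    [⟨Op.add, [9, 2], [2], [3]⟩])

/-- a register which is read by the program -/
def BaseReg (r : Reg) : Prop := r = [2] ∨ r = [3] ∨ (∃ i j, r = [0, i, j]) ∨ ∃ i, r = [1, i]

theorem gr_base (W t : ℕ) : BaseReg (gr W t) := by
  unfold gr
  split_ifs
  · exact Or.inr (Or.inr (Or.inl ⟨_, _, rfl⟩))
  · exact Or.inr (Or.inl rfl)

theorem eqs_base (W T t k : ℕ) {e : ℕ × Reg × Reg} (he : e ∈ eqs W T t k) :
    BaseReg e.2.1 ∧ BaseReg e.2.2 := by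
  have h2 : BaseReg [2] := Or.inl rfl
  have h3 : BaseReg [3] := Or.inr (Or.inl rfl)
  rcases eqs_class W T t k with h | ⟨u, v, huv, h⟩ | ⟨u, v, huv, -, -, -, h⟩ |
    ⟨u, v, w, huv, huw, hvw, -, -, -, h⟩ <;> rw [h] at he <;>
    simp only [List.mem_cons, List.not_mem_nil, or_false] at he
  · rcases he with rfl | rfl
    · exact ⟨h2, h3⟩
    · exact ⟨h3, h2⟩
  · rcases he with rfl | rfl
    · exact ⟨h2, h3⟩
    · exact ⟨gr_base _ _, h2⟩
  · rcases he with rfl | rfl | rfl
    · exact ⟨h2, h3⟩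
    · exact ⟨h3, h2⟩
    · exact ⟨h3, h2⟩

theorem tms_base (W T r : ℕ) {e : ℕ × Reg × Reg} (he : e ∈ tms W T r) :
    BaseReg e.2.1 ∧ BaseReg e.2.2 := by
  unfold tms at he
  split_ifs at he
  · rw [List.mem_singleton] at he
    subst he
    exact ⟨Or.inl rfl, Or.inr (Or.inl rfl)⟩
  · exact eqs_base _ _ _ _ he
  · rw [List.mem_map] at he
    obtain ⟨e', he', rfl⟩ := he
    exact (eqs_base _ _ _ _ he').symm

section
variable {m n : ℕ} (A : Matrix (Fin m) (Fin n) ℝ) (b : Fin m → ℝ)

/-- the values of the registers -/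
noncomputable def lV : Reg → ℝ
  | 9 :: r => start (lA A b) (lb A b) r
  | r => start A b r

theorem lV_base {r : Reg} (h : BaseReg r) : lV A b r = start A b r := by
  rcases h with rfl | rfl | ⟨i, j, rfl⟩ | ⟨i, rfl⟩ <;> rfl

theorem lexec : ∃ ρ', exec (lprog m n) (start A b) =
      some (ρ', (lprog m n).map fun I => lV A b I.dst) ∧
    ρ' ∘ sh = start (lA A b) (lb A b) := by
  have t : Tr (lV A b) {r | start A b r = lV A b r} (lprog m n) {r | ∃ r', r = 9 :: r'} := by
    refine Tr.block ?_ ?_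
    · intro I hI
      unfold lprog at hI
      rw [List.mem_append, List.mem_append] at hI
      rcases hI with hI | hI | hI
      · rw [List.mem_flatMap] at hI
        obtain ⟨r, hr, hI⟩ := hI
        rw [List.mem_range] at hr
        rw [List.mem_map] at hI
        obtain ⟨e, he, rfl⟩ := hI
        obtain ⟨b1, b2⟩ := tms_base _ _ _ he
        have hc := tms_lt hr he
        refine ⟨(lV_base A b b1).symm, (lV_base A b b2).symm, ?_, by simp⟩
        simp only [Op.eval]
        rw [lV_base A b b1, lV_base A b b2]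
        simp only [lV, start]
        rw [dif_pos ⟨hr, hc⟩]
        exact lA_mem A b (r := ⟨r, hr⟩) he ⟨e.1, hc⟩ rfl
      · rw [List.mem_flatMap] at hI
        obtain ⟨r, hr, hI⟩ := hI
        rw [List.mem_range] at hr
        split_ifs at hI with h
        · rw [List.mem_singleton] at hI
          subst hI
          refine ⟨rfl, rfl, ?_, by simp⟩
          simp only [Op.eval, lV]
          rw [start_three, add_zero]
          have : start (lA A b) (lb A b) [1, r] = lb A b ⟨r, hr⟩ := by
            simp only [start]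
            rw [dif_pos hr]
          rw [this]
          unfold lb
          rw [if_pos h]
        · exact absurd hI List.not_mem_nil
      · rw [List.mem_singleton] at hI
        subst hI
        refine ⟨rfl, rfl, ?_, by simp⟩
        simp [Op.eval, lV, start]
    · rintro r ⟨r', rfl⟩
      by_cases h : (∃ i, ∃ hi : i < 36 * Td m n, ∃ e ∈ tms (Wd n) (Td m n) i,
          r' = [0, i, e.1]) ∨ (∃ i, i < 36 * Td m n ∧ (i % 3 = 2 ∧ i / 3 % 12 = 4 ∧
            kind (Wd n) (i / 3 / 12) = 3) ∧ r' = [1, i]) ∨ r' = [2]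
      · right
        rcases h with ⟨i, hi, e, he, rfl⟩ | ⟨i, hi, hc, rfl⟩ | rfl
        · refine ⟨⟨Op.sub, [9, 0, i, e.1], e.2.1, e.2.2⟩, ?_, rfl⟩
          unfold lprog
          rw [List.mem_append]
          left
          rw [List.mem_flatMap]
          exact ⟨i, List.mem_range.2 hi, List.mem_map.2 ⟨e, he, rfl⟩⟩
        · refine ⟨⟨Op.add, [9, 1, i], [1, i / 3 / 12 / Wd n / 2], [3]⟩, ?_, rfl⟩
          unfold lprog
          rw [List.mem_append, List.mem_append]
          right; left
          rw [List.mem_flatMap]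
          exact ⟨i, List.mem_range.2 hi, by rw [if_pos hc]; exact List.mem_singleton.2 rfl⟩
        · exact ⟨⟨Op.add, [9, 2], [2], [3]⟩, by simp [lprog], rfl⟩
      · left
        show start A b (9 :: r') = lV A b (9 :: r')
        rw [start_nine, lV]
        unfold start
        split
        · rename_i i j
          split_ifs with h1
          · rw [lA_not_mem]
            intro e he hc
            exact h (Or.inl ⟨i, h1.1, e, he, by rw [hc]⟩)
          · rfl
        · rename_i i
          split_ifs with h1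
          · unfold lb
            rw [if_neg]
            intro hc
            exact h (Or.inr (Or.inl ⟨i, h1, hc, rfl⟩))
          · rfl
        · exact absurd (Or.inr (Or.inr rfl)) h
        · rfl
  obtain ⟨ρ', e1, e2⟩ := t (start A b) (fun r hr => hr)
  refine ⟨ρ', e1, ?_⟩
  funext r
  exact e2 (9 :: r) ⟨r, rfl⟩

variable {A b}

theorem lV_hb {L : ℕ} (hL : 1 ≤ L) (hA : ∀ i j, Hb L (A i j)) (hb : ∀ i, Hb L (b i)) (r : Reg) :
    Hb (2 * L + 1) (lV A b r) := by
  have hs := start_hb hL hA hb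
  have h0 : Hb (2 * L + 1) 0 := Hb.zero.mono (by omega)
  unfold lV
  split
  · refine start_hb (by omega) (fun r c => ?_) (fun r => ?_) _
    · by_cases h : ∃ e ∈ tms (Wd n) (Td m n) r, e.1 = (c : ℕ)
      · obtain ⟨e, he, hc⟩ := h
        rw [lA_mem A b he c hc]
        exact ((hs _).sub (hs _)).mono (by omega)
      · push Not at h
        rw [lA_not_mem A b c h]
        exact h0
    · unfold lb
      split_ifs
      · exact (hs _).mono (by omega)
      · exact h0
  · exact (hs _).mono (by omega)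

end

theorem lprog_length (m n : ℕ) : (lprog m n).length ≤ 36 * Td m n * 3 + 36 * Td m n + 1 := by
  unfold lprog
  rw [List.length_append, List.length_append, List.length_flatMap, List.length_flatMap,
    List.length_singleton]
  have h1 : ((List.range (36 * Td m n)).map fun r => ((tms (Wd n) (Td m n) r).map fun e =>
      (⟨Op.sub, [9, 0, r, e.1], e.2.1, e.2.2⟩ : Instr)).length).sum ≤ 36 * Td m n * 3 := by
    have := List.sum_le_card_nsmul ((List.range (36 * Td m n)).map fun r =>
      ((tms (Wd n) (Td m n) r).map fun e =>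
      (⟨Op.sub, [9, 0, r, e.1], e.2.1, e.2.2⟩ : Instr)).length) 3 (by
        intro x hx
        rw [List.mem_map] at hx
        obtain ⟨r, -, rfl⟩ := hx
        rw [List.length_map]
        exact tms_len _ _ _)
    simpa using this
  have h2 : ((List.range (36 * Td m n)).map fun r =>
      (if r % 3 = 2 ∧ r / 3 % 12 = 4 ∧ kind (Wd n) (r / 3 / 12) = 3 then
      [(⟨Op.add, [9, 1, r], [1, r / 3 / 12 / Wd n / 2], [3]⟩ : Instr)] else []).length).sum ≤
      36 * Td m n := by
    have := List.sum_le_card_nsmul ((List.range (36 * Td m n)).map fun r =>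
      (if r % 3 = 2 ∧ r / 3 % 12 = 4 ∧ kind (Wd n) (r / 3 / 12) = 3 then
      [(⟨Op.add, [9, 1, r], [1, r / 3 / 12 / Wd n / 2], [3]⟩ : Instr)] else []).length) 1 (by
        intro x hx
        rw [List.mem_map] at hx
        obtain ⟨r, -, rfl⟩ := hx
        split_ifs <;> simp)
    simpa using this
  omega

/-! ### Polynomial time -/

section
variable {α : Type} [TEnc α]

attribute [local fun_prop] TPM.pInstr

theorem poly_kind {W t : α → ℕ} (hW : Poly W) (ht : Poly t) :
    Poly (fun a => kind (W a) (t a)) := by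
  unfold kind
  fun_prop

attribute [local fun_prop] poly_kind

theorem poly_gr {W t : α → ℕ} (hW : Poly W) (ht : Poly t) : Poly (fun a => gr (W a) (t a)) := by
  unfold gr
  fun_prop

attribute [local fun_prop] poly_gr

theorem poly_loc {kd k : α → ℕ} (hkd : Poly kd) (hk : Poly k) :
    Poly (fun a => loc (kd a) (k a)) := by
  unfold loc
  fun_prop

attribute [local fun_prop] poly_loc

theorem poly_eqsL {kd k t : α → ℕ} {g : α → Reg} (hkd : Poly kd) (hk : Poly k) (ht : Poly t)
    (hg : Poly g) : Poly (fun a => eqsL (kd a) (k a) (t a) (g a)) := by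
  unfold eqsL
  fun_prop

attribute [local fun_prop] poly_eqsL

theorem poly_eqs {W T t k : α → ℕ} (hW : Poly W) (hT : Poly T) (ht : Poly t) (hk : Poly k) :
    Poly (fun a => eqs (W a) (T a) (t a) (k a)) := by
  unfold eqs
  fun_prop

attribute [local fun_prop] poly_eqs

theorem poly_tms {W T r : α → ℕ} (hW : Poly W) (hT : Poly T) (hr : Poly r) :
    Poly (fun a => tms (W a) (T a) (r a)) := by
  unfold tms
  fun_prop

attribute [local fun_prop] poly_tms

theorem upoly_Wd {n : α → ℕ} (hn : UPoly n) : UPoly (fun a => Wd (n a)) :=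
  UPoly.add (UPoly.mul (UPoly.const 2) hn) (UPoly.const 2)

theorem upoly_Td {m n : α → ℕ} (hm : UPoly m) (hn : UPoly n) : UPoly (fun a => Td (m a) (n a)) :=
  UPoly.mul (UPoly.mul (UPoly.const 2) hm) (UPoly.add (UPoly.mul (UPoly.const 2) hn)
    (UPoly.const 2))

theorem poly_lprog {m n : α → ℕ} (hm : UPoly m) (hn : UPoly n) :
    Poly (fun a => lprog (m a) (n a)) := by
  have hW : Poly (fun a => Wd (n a)) := (upoly_Wd hn).toPoly
  have hT : Poly (fun a => Td (m a) (n a)) := (upoly_Td hm hn).toPoly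
  have hR : Poly (fun a => List.range (36 * Td (m a) (n a))) :=
    UPoly.range (UPoly.mul (UPoly.const 36) (upoly_Td hm hn))
  unfold lprog
  have key : ∀ (W T : α → ℕ) (R : α → List ℕ), Poly W → Poly T → Poly R →
      Poly (fun a => ((R a).flatMap fun r => (tms (W a) (T a) r).map fun e =>
        (⟨Op.sub, [9, 0, r, e.1], e.2.1, e.2.2⟩ : Instr)) ++
      (((R a).flatMap fun r =>
        if r % 3 = 2 ∧ r / 3 % 12 = 4 ∧ kind (W a) (r / 3 / 12) = 3 then
          [(⟨Op.add, [9, 1, r], [1, r / 3 / 12 / W a / 2], [3]⟩ : Instr)] else []) ++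
        [(⟨Op.add, [9, 2], [2], [3]⟩ : Instr)])) := by
    intro W T R hW hT hR
    fun_prop
  exact key _ _ _ hW hT hR

end

/-- a polynomial bound for the lattice reduction -/
noncomputable def lPol : Polynomial ℕ := 1000 * (Polynomial.X + 1) ^ 2 + 4 * Polynomial.X + 10

theorem lPol_eval (x : ℕ) : lPol.eval x = 1000 * (x + 1) ^ 2 + 4 * x + 10 := by
  simp [lPol]

theorem Td_pos {m n : ℕ} (hm : 1 ≤ m) : 1 ≤ Td m n := by
  unfold Td
  have : 0 < 2 * m * (2 * n + 2) := by positivity
  omega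

theorem lsize (m n : ℕ) : 36 * Td m n + 12 * Td m n ≤ lPol.eval (m + n) ∧
    (lprog m n).length ≤ lPol.eval (m + n) := by
  have h2 := lprog_length m n
  have h3 : Td m n ≤ 4 * (m + n + 1) ^ 2 := by
    unfold Td
    nlinarith [Nat.zero_le m, Nat.zero_le n]
  rw [lPol_eval]
  constructor
  · omega
  · omega

theorem lattice {ε : ℝ} (h0 : 0 < ε) (h1 : ε ≤ 1)
    (h : HasStronglyPolynomial (LatticeNetwork ε)) : HasStronglyPolynomial (SmallRows ε) := by
  refine transfer (C := SmallRows ε) (C' := LatticeNetwork ε) (fun m n => 36 * Td m n)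
    (fun m n => 12 * Td m n) lprog (fun m n A b => lA A b) (fun m n A b => lb A b) lPol
    (UPoly.mul (UPoly.const 36) (upoly_Td u_m u_n)) (UPoly.mul (UPoly.const 12) (upoly_Td u_m u_n))
    (poly_lprog u_m u_n) (fun m n hm hn => ?_) (fun m n hm hn => lsize m n)
    (fun m n A b hm hn _ => ?_)
    (fun m n A b hm hn hC => lfeas hn (fun i j => (hC.1 i j).trans h1) hC.2.1)
    (fun m n A b hm hn hC => ⟨_, _, isNetwork h0.le hC⟩)
    (fun m n A b hm hn _ => ?_) h
  · have := Td_pos (n := n) hm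
    constructor <;> omega
  · obtain ⟨ρ', e1, e2⟩ := lexec A b
    exact ⟨ρ', _, e1, e2⟩
  · set L := inputLength A b with hL
    have hL1 : m + n ≤ L := dims_le_inputLength hm hn A b
    have hA : ∀ i j, Hb L ((A i j : ℚ) : ℝ) := fun i j =>
      (Hb.of_bitLength _).mono (bit_le_A A b i j)
    have hb : ∀ i, Hb L ((b i : ℚ) : ℝ) := fun i => (Hb.of_bitLength _).mono (bit_le_b A b i)
    have hbd := lV_hb (A := fun i j => ((A i j : ℚ) : ℝ)) (b := fun i => ((b i : ℚ) : ℝ))
      (by omega) hA hb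
    have hrb : ∀ r, Rb (lPol.eval L)
        (lV (fun i j => ((A i j : ℚ) : ℝ)) (fun i => ((b i : ℚ) : ℝ)) r) := by
      intro r
      refine (hbd r).toRb.mono ?_
      rw [lPol_eval]
      omega
    refine ⟨fun r c => ?_, fun r => ?_, fun ρ' l hl v hv => ?_⟩
    · have h1 := hrb [9, 0, r, c]
      simp only [lV, start] at h1
      rw [dif_pos ⟨r.2, c.2⟩] at h1
      exact h1
    · have h1 := hrb [9, 1, r]
      simp only [lV, start] at h1
      rw [dif_pos r.2] at h1
      exact h1
    · obtain ⟨ρ'', e1, e2⟩ := lexec (fun i j => ((A i j : ℚ) : ℝ)) (fun i => ((b i : ℚ) : ℝ))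
      rw [e1] at hl
      simp only [Option.some.injEq, Prod.mk.injEq] at hl
      rw [← hl.2, List.mem_map] at hv
      obtain ⟨I, hI, rfl⟩ := hv
      exact hrb _

theorem latticeR {ε : ℝ} (h0 : 0 < ε) (h1 : ε ≤ 1)
    (h : HasRealPolynomial (LatticeNetwork ε)) : HasRealPolynomial (SmallRows ε) := by
  refine transferR (C := SmallRows ε) (C' := LatticeNetwork ε) (fun m n => 36 * Td m n)
    (fun m n => 12 * Td m n) lprog (fun m n A b => lA A b) (fun m n A b => lb A b) lPol
    (UPoly.mul (UPoly.const 36) (upoly_Td u_m u_n)) (UPoly.mul (UPoly.const 12) (upoly_Td u_m u_n))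
    (poly_lprog u_m u_n) (fun m n hm hn => ?_) (fun m n hm hn => lsize m n)
    (fun m n A b hm hn _ => ?_)
    (fun m n A b hm hn hC => lfeas hn (fun i j => (hC.1 i j).trans h1) hC.2.1)
    (fun m n A b hm hn hC => ⟨_, _, isNetwork h0.le hC⟩) h
  · have := Td_pos (n := n) hm
    constructor <;> omega
  · obtain ⟨ρ', e1, e2⟩ := lexec A b
    exact ⟨ρ', _, e1, e2⟩

/-! ### The main theorem -/

theorem HasStronglyPolynomial.mono {C C' : SysClass} (h : ∀ m n A b, C m n A b → C' m n A b)
    (hC : HasStronglyPolynomial C') : HasStronglyPolynomial C := by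
  obtain ⟨α, h1, h2, p, h3⟩ := hC
  refine ⟨α, h1, h2, p, fun m n hm hn => ⟨fun A b hA => ?_, fun A b hA => ?_⟩⟩
  · exact (h3 m n hm hn).1 A b (h _ _ _ _ hA)
  · exact (h3 m n hm hn).2 A b (h _ _ _ _ hA)

theorem IsEquation.mono {n : ℕ} {ε ε' : ℝ} (h : ε ≤ ε') {a : Fin n → ℝ} (ha : IsEquation ε a) :
    IsEquation ε' a := by
  rcases ha with ⟨u, v, c, h1, h2, h3⟩ | ha
  · exact Or.inl ⟨u, v, c, h1, h2.trans h, h3⟩
  · exact Or.inr ha

theorem LatticeNetwork.mono {ε ε' : ℝ} (h : ε ≤ ε') {m n : ℕ} {A : Matrix (Fin m) (Fin n) ℝ}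
    {b : Fin m → ℝ} (hA : LatticeNetwork ε m n A b) : LatticeNetwork ε' m n A b := by
  obtain ⟨p, q, h1⟩ := hA
  refine ⟨p, q, fun i => ?_, h1.nonneg, h1.one, h1.inj, h1.even, h1.odd, h1.single, h1.adjacent,
    h1.three, h1.two, h1.gain⟩
  rcases h1.rows i with h2 | ⟨h2, h3, h4⟩
  · exact Or.inl h2
  · exact Or.inr ⟨h2, h3.imp (IsEquation.mono h) (IsEquation.mono h), h4⟩

theorem HasRealPolynomial.mono {C C' : SysClass} (h : ∀ m n A b, C m n A b → C' m n A b)
    (hC : HasRealPolynomial C') : HasRealPolynomial C := by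
  obtain ⟨α, h1, h2, p, h3⟩ := hC
  exact ⟨α, h1, h2, p, fun m n hm hn A b hA => h3 m n hm hn A b (h _ _ _ _ hA)⟩

theorem mainR {ε : ℝ} (h0 : 0 < ε) :
    HasRealPolynomial All ↔ HasRealPolynomial (LatticeNetwork ε) := by
  constructor
  · exact HasRealPolynomial.mono fun _ _ _ _ _ => trivial
  · intro h
    have h1 : 0 < min ε 1 := lt_min h0 one_pos
    refine normaliseR h1 (latticeR h1 (min_le_right _ _) ?_)
    exact HasRealPolynomial.mono (fun _ _ _ _ hA => LatticeNetwork.mono (min_le_left _ _) hA) h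

theorem straight {ε : ℝ} (h0 : 0 < ε) : StraightLineReduction ε := by
  have h1 : 0 < min ε 1 := lt_min h0 one_pos
  obtain ⟨K, hK, hKε⟩ := exists_K h1
  have u1 : UPoly (fun p : List Unit × List Unit => p.1.length) :=
    UPoly.length (NPC.Poly.fst NPC.Poly.id)
  have u2 : UPoly (fun p : List Unit × List Unit => p.2.length) :=
    UPoly.length (NPC.Poly.snd NPC.Poly.id)
  refine ⟨K + 4000, fun m n => 36 * Td (m + 1) (n + 1), fun m n => 12 * Td (m + 1) (n + 1),
    fun m n => nprog K m n ++ (lprog (m + 1) (n + 1)).map shI, t_COMP _ _ _ ?_,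
    fun m n hm hn => ?_⟩
  · refine NPC.Poly.append (poly_nprog K u1 u2) (NPC.Poly.map (F := fun _ I => shI I) ?_
      (poly_shI (NPC.Poly.snd NPC.Poly.id)))
    exact poly_lprog (UPoly.add u1 (UPoly.const 1)) (UPoly.add u2 (UPoly.const 1))
  · have hTd : Td (m + 1) (n + 1) ≤ 24 * (m * n) := by
      unfold Td
      have e1 : m + 1 ≤ 2 * m := by omega
      have e2 : 2 * (n + 1) + 2 ≤ 6 * n := by omega
      calc 2 * (m + 1) * (2 * (n + 1) + 2) ≤ 2 * (2 * m) * (6 * n) :=
            Nat.mul_le_mul (Nat.mul_le_mul le_rfl e1) e2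
        _ = 24 * (m * n) := by ring
    have hmn : 1 ≤ m * n := Nat.mul_pos hm hn
    refine ⟨by beta_reduce; omega, by beta_reduce; omega, ?_, fun A b => ?_⟩
    · rw [List.length_append, List.length_map, nprog_length]
      have e3 := lprog_length (m + 1) (n + 1)
      have e4 : (m + 1) * (n + 1) ≤ 4 * (m * n) := by
        have e5 : m + 1 ≤ 2 * m := by omega
        have e6 : n + 1 ≤ 2 * n := by omega
        calc (m + 1) * (n + 1) ≤ (2 * m) * (2 * n) := Nat.mul_le_mul e5 e6
          _ = 4 * (m * n) := by ring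
      have e7 : m ≤ m * n := Nat.le_mul_of_pos_right m hn
      have e8 : K ≤ K * (m * n) := Nat.le_mul_of_pos_right K hmn
      have e9 : (K + 4000) * (m * n) = K * (m * n) + 4000 * (m * n) := by ring
      omega
    · obtain ⟨ρ', f1, f2⟩ := nexec hK A b
      obtain ⟨ρ'', g1, g2⟩ := lexec (nA K A b) (nb m)
      rw [← f2] at g1
      obtain ⟨ρ₃, k1, k2⟩ := exec_two f1 g1
      have hC := nclass A b hK hKε
      refine ⟨ρ₃, _, lA (nA K A b) (nb m), lb (nA K A b) (nb m), k1, fun r => ?_, ?_, ?_⟩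
      · have e1 : ρ₃ (9 :: 9 :: r) = (ρ₃ ∘ sh) (sh r) := rfl
        rw [e1, k2]
        exact congrFun g2 r
      · exact LatticeNetwork.mono (min_le_left _ _) ⟨_, _, isNetwork h1.le hC⟩
      · rw [lfeas (by omega) (fun i j => (hC.1 i j).trans (min_le_right _ _)) hC.2.1]
        exact nfeas A b hK

theorem main {ε : ℝ} (h0 : 0 < ε) :
    HasStronglyPolynomial All ↔ HasStronglyPolynomial (LatticeNetwork ε) := by
  constructor
  · exact HasStronglyPolynomial.mono fun _ _ _ _ _ => trivial
  · intro h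
    have h1 : 0 < min ε 1 := lt_min h0 one_pos
    refine normalise h1 (lattice h1 (min_le_right _ _) ?_)
    exact HasStronglyPolynomial.mono (fun _ _ _ _ hA => LatticeNetwork.mono (min_le_left _ _) hA) h

end Pool.Agent.Y592.LN
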