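import Pool.Agent.Y592.LN.Defs
import Pool.Agent.H622R3.SM.T_ELIM
import Pool.Agent.H622R3.SM.T_COMP
import Pool.Agent.H622R3.SM.T_PM

set_option autoImplicit false

/-!
# Reductions by straight-line programs
-/

namespace Pool.Agent.Y592.LN

open Pool.Agent.NPC Pool.Agent.NPC.ER Pool.Agent.NPC.H612 Pool.Agent.H558R2 Pool.Agent.H622R3.SM

/-- shifted register -/
def sh (r : Reg) : Reg := 9 :: r

theorem sh_inj : Function.Injective sh := fun a b h => by simpa [sh] using h

/-- shifted instruction -/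
def shI (I : Instr) : Instr := ⟨I.op, sh I.dst, sh I.fst, sh I.snd⟩

/-- shifted test -/
def shT : Test → Test
  | Test.sign r => Test.sign (sh r)
  | Test.ask w => Test.ask w
  | Test.answer a => Test.answer a

theorem exec_sh (P : List Instr) : ∀ ρ : Reg → ℝ,
    (exec (P.map shI) ρ).map (fun r => (r.1 ∘ sh, r.2)) = exec P (ρ ∘ sh) := by
  induction P with
  | nil => intro ρ; rfl
  | cons I P ih =>
    intro ρ
    have h : Function.update ρ (sh I.dst) (I.op.eval (ρ (sh I.fst)) (ρ (sh I.snd))) ∘ sh =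
        Function.update (ρ ∘ sh) I.dst (I.op.eval (ρ (sh I.fst)) (ρ (sh I.snd))) :=
      Function.update_comp_eq_of_injective _ sh_inj _ _
    simp only [List.map_cons, exec, shI, Function.comp_apply]
    split_ifs
    · rfl
    · rw [← h, ← ih, Option.map_map, Option.map_map]
      rfl

theorem run_sh {O : Set (List Bool)} {α β : List Outcome → List Instr × Test}
    (hβ : ∀ h, h ≠ [] → β h = ((α h).1.map shI, shT (α h).2)) :
    ∀ (k : ℕ) (h : List Outcome) (ρ : Reg → ℝ), h ≠ [] →
      run O β k h ρ = run O α k h (ρ ∘ sh) := by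
  classical
  intro k
  induction k with
  | zero => intro h ρ _; rfl
  | succ k ih =>
    intro h ρ hh
    rw [run, run, hβ h hh]
    simp only
    rw [← exec_sh]
    cases exec ((α h).1.map shI) ρ with
    | none => rfl
    | some r =>
      simp only [Option.map_some, Option.bind_some]
      cases (α h).2 with
      | answer a => rfl
      | sign x =>
        simp only [shT]
        rw [ih _ _ (by simp)]
        rfl
      | ask w =>
        simp only [shT]
        rw [ih _ _ (by simp)]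

theorem run_first {O : Set (List Bool)} {α β : List Outcome → List Instr × Test}
    {prog : List Instr}
    (hβ : ∀ h, h ≠ [] → β h = ((α h).1.map shI, shT (α h).2))
    (hβ0 : β [] = (prog ++ (α []).1.map shI, shT (α []).2)) {ρ ρ' : Reg → ℝ} {l : List ℝ}
    (hp : exec prog ρ = some (ρ', l)) (k : ℕ) :
    run O β k [] ρ = (run O α k [] (ρ' ∘ sh)).map
      (fun q => (q.1, l ++ q.2.1, l.length + q.2.2)) := by
  classical
  cases k with
  | zero => rfl
  | succ k =>
    rw [run, run, hβ0]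
    simp only
    rw [TELIM.exec_append prog _ ρ ρ' l hp, ← exec_sh]
    cases exec ((α []).1.map shI) ρ' with
    | none => rfl
    | some r =>
      simp only [Option.map_some, Option.bind_some]
      cases (α []).2 with
      | answer a => simp [shT]
      | sign x =>
        simp only [shT]
        rw [run_sh hβ _ _ _ (by simp), Option.map_map]
        congr 1
        funext q
        simp [add_assoc]
      | ask w =>
        simp only [shT]
        rw [run_sh hβ _ _ _ (by simp), Option.map_map]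
        congr 1
        funext q
        simp [add_assoc]

theorem exec_length : ∀ (P : List Instr) (ρ ρ' : Reg → ℝ) (l : List ℝ),
    exec P ρ = some (ρ', l) → l.length = P.length := by
  intro P
  induction P with
  | nil =>
    intro ρ ρ' l h
    simp only [exec, Option.some.injEq, Prod.mk.injEq] at h
    rw [← h.2]
    rfl
  | cons I P ih =>
    intro ρ ρ' l h
    simp only [exec] at h
    split_ifs at h with h1
    cases h2 : exec P (Function.update ρ I.dst (I.op.eval (ρ I.fst) (ρ I.snd))) with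
    | none => rw [h2] at h; simp at h
    | some r =>
      rw [h2] at h
      simp only [Option.map_some, Option.some.injEq, Prod.mk.injEq] at h
      rw [← h.2, List.length_cons, List.length_cons, ih _ r.1 r.2 h2]

/-- The algorithm which first runs `prog`, then `α` on the shifted registers. -/
def redAlg (M N : ℕ → ℕ → ℕ) (prog : ℕ → ℕ → List Instr) (α : Alg) : Alg := fun m n h =>
  ((if h = [] then prog m n else []) ++ (α (M m n) (N m n) h).1.map shI,
    shT (α (M m n) (N m n) h).2)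

theorem oracleFree_redAlg {M N : ℕ → ℕ → ℕ} {prog : ℕ → ℕ → List Instr} {α : Alg}
    (h : OracleFree α) : OracleFree (redAlg M N prog α) := by
  intro m n k w
  have h1 := h (M m n) (N m n) k w
  unfold redAlg
  simp only
  cases h2 : (α (M m n) (N m n) k).2 with
  | sign r => simp [shT]
  | ask w' => rw [h2] at h1; simpa [shT] using h1
  | answer a => simp [shT]

/-! ### Polynomial time -/

theorem poly_shI {α : Type} [TEnc α] {I : α → Instr} (h : Poly I) : Poly (fun a => shI (I a)) := by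
  have key : ∀ c : α → ℕ × Reg × Reg × Reg, Poly c →
      Poly (fun a => ((c a).1, 9 :: (c a).2.1, 9 :: (c a).2.2.1, 9 :: (c a).2.2.2)) := by
    intro c hc
    fun_prop
  exact key (fun a => (I a).code) h

theorem poly_shT {α : Type} [TEnc α] {t : α → Test} (h : Poly t) : Poly (fun a => shT (t a)) := by
  have key : ∀ c : α → Reg ⊕ (List Bool ⊕ Bool), Poly c →
      Poly (fun a => Sum.elim (fun r : Reg => (Sum.inl (9 :: r) : Reg ⊕ (List Bool ⊕ Bool)))
        (fun c => Sum.inr c) (c a)) := by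
    intro c hc
    fun_prop
  have h1 := key (fun a => (t a).code) h
  have h2 : Poly (fun a => (shT (t a)).code) := h1.congr fun a => by cases t a <;> rfl
  exact h2

theorem poly_redAlg {M N : ℕ → ℕ → ℕ} {prog : ℕ → ℕ → List Instr} {α : Alg}
    (hα : Poly (fun p : HistIn => α p.1.1.length p.1.2.length p.2))
    (hM : UPoly (fun p : HistIn => M p.1.1.length p.1.2.length))
    (hN : UPoly (fun p : HistIn => N p.1.1.length p.1.2.length))
    (hp : Poly (fun p : HistIn => prog p.1.1.length p.1.2.length)) :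
    Poly (fun p : HistIn => redAlg M N prog α p.1.1.length p.1.2.length p.2) := by
  have h1 : Poly (fun p : HistIn => α (M p.1.1.length p.1.2.length) (N p.1.1.length p.1.2.length)
      p.2) := by
    refine (Poly.comp (g := fun p : HistIn => α p.1.1.length p.1.2.length p.2)
      (f := fun p : HistIn => (((List.replicate (M p.1.1.length p.1.2.length) (),
        List.replicate (N p.1.1.length p.1.2.length) ()), p.2) : HistIn)) hα
      (Poly.pair (Poly.pair hM hN) (Poly.snd Poly.id))).congr fun p => ?_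
    simp only [List.length_replicate]
  unfold redAlg
  refine NPC.Poly.pair (NPC.Poly.append (NPC.Poly.ite ?_ hp (NPC.Poly.const []))
    (NPC.Poly.map (F := fun _ I => shI I) (NPC.Poly.fst h1)
    (poly_shI (NPC.Poly.snd NPC.Poly.id)))) (poly_shT (NPC.Poly.snd h1))
  exact NPC.Poly.decide_eq (NPC.Poly.snd NPC.Poly.id) (NPC.Poly.const [])

/-! ### The transfer theorem -/

/-- `v` is a rational number of encoding length at most `B`. -/
def Rb (B : ℕ) (v : ℝ) : Prop := ∃ q : ℚ, (q : ℝ) = v ∧ bitLength q ≤ B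

theorem bitLength_two_le (q : ℚ) : 2 ≤ bitLength q := by
  unfold bitLength
  have : 0 < Nat.size q.den := Nat.size_pos.2 q.den_pos
  omega

theorem dims_le_inputLength {m n : ℕ} (hm : 1 ≤ m) (hn : 1 ≤ n) (A : Matrix (Fin m) (Fin n) ℚ)
    (b : Fin m → ℚ) : m + n ≤ inputLength A b := by
  unfold inputLength
  have h1 : ∑ i : Fin m, ∑ j : Fin n, 2 ≤ ∑ i, ∑ j, bitLength (A i j) :=
    Finset.sum_le_sum fun i _ => Finset.sum_le_sum fun j _ => bitLength_two_le _
  simp only [Finset.sum_const, Finset.card_univ, Fintype.card_fin, smul_eq_mul] at h1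
  have h2 : m + n ≤ m * (n * 2) := by
    have h3 : m ≤ m * n := Nat.le_mul_of_pos_right m hn
    have h4 : n ≤ m * n := Nat.le_mul_of_pos_left n hm
    have h5 : m * (n * 2) = m * n + m * n := by ring
    omega
  omega

open Classical in
theorem transfer {C C' : SysClass} (M N : ℕ → ℕ → ℕ) (prog : ℕ → ℕ → List Instr)
    (A' : ∀ m n, Matrix (Fin m) (Fin n) ℝ → (Fin m → ℝ) → Matrix (Fin (M m n)) (Fin (N m n)) ℝ)
    (b' : ∀ m n, Matrix (Fin m) (Fin n) ℝ → (Fin m → ℝ) → Fin (M m n) → ℝ)
    (P : Polynomial ℕ)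
    (hM : UPoly (fun p : HistIn => M p.1.1.length p.1.2.length))
    (hN : UPoly (fun p : HistIn => N p.1.1.length p.1.2.length))
    (hp : Poly (fun p : HistIn => prog p.1.1.length p.1.2.length))
    (hpos : ∀ m n, 1 ≤ m → 1 ≤ n → 1 ≤ M m n ∧ 1 ≤ N m n)
    (hP : ∀ m n, 1 ≤ m → 1 ≤ n →
      M m n + N m n ≤ P.eval (m + n) ∧ (prog m n).length ≤ P.eval (m + n))
    (hexec : ∀ m n (A : Matrix (Fin m) (Fin n) ℝ) (b : Fin m → ℝ), 1 ≤ m → 1 ≤ n → C m n A b →
      ∃ ρ' l, exec (prog m n) (start A b) = some (ρ', l) ∧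
        ρ' ∘ sh = start (A' m n A b) (b' m n A b))
    (hfeas : ∀ m n (A : Matrix (Fin m) (Fin n) ℝ) (b : Fin m → ℝ), 1 ≤ m → 1 ≤ n → C m n A b →
      ((∃ y, b' m n A b ≤ (A' m n A b).mulVec y) ↔ ∃ x : Fin n → ℝ, b ≤ A.mulVec x))
    (hclass : ∀ m n (A : Matrix (Fin m) (Fin n) ℝ) (b : Fin m → ℝ), 1 ≤ m → 1 ≤ n → C m n A b →
      C' (M m n) (N m n) (A' m n A b) (b' m n A b))
    (hrat : ∀ m n (A : Matrix (Fin m) (Fin n) ℚ) (b : Fin m → ℚ), 1 ≤ m → 1 ≤ n →
      C m n (fun i j => ((A i j : ℚ) : ℝ)) (fun i => ((b i : ℚ) : ℝ)) →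
      (∀ r c, Rb (P.eval (inputLength A b))
        (A' m n (fun i j => ((A i j : ℚ) : ℝ)) (fun i => ((b i : ℚ) : ℝ)) r c)) ∧
      (∀ r, Rb (P.eval (inputLength A b))
        (b' m n (fun i j => ((A i j : ℚ) : ℝ)) (fun i => ((b i : ℚ) : ℝ)) r)) ∧
      ∀ ρ' l, exec (prog m n) (start (fun i j => ((A i j : ℚ) : ℝ)) (fun i => ((b i : ℚ) : ℝ))) =
        some (ρ', l) → ∀ v ∈ l, Rb (P.eval (inputLength A b)) v)
    (hC : HasStronglyPolynomial C') : HasStronglyPolynomial C := by
  obtain ⟨α, h1, h2, p, h3⟩ := hC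
  have h1p : Poly (fun p : HistIn => α p.1.1.length p.1.2.length p.2) := t_COMP2 _ _ _ h1
  have hβ : ∀ m n h, h ≠ [] → redAlg M N prog α m n h =
      ((α (M m n) (N m n) h).1.map shI, shT (α (M m n) (N m n) h).2) := by
    intro m n h hh
    simp [redAlg, hh]
  have hβ0 : ∀ m n, redAlg M N prog α m n [] =
      (prog m n ++ (α (M m n) (N m n) []).1.map shI, shT (α (M m n) (N m n) []).2) := by
    intro m n
    simp [redAlg]
  refine ⟨redAlg M N prog α, t_COMP _ _ _ (poly_redAlg h1p hM hN hp), oracleFree_redAlg h2,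
    p.comp P + P + p.comp ((P * P + P) * P), fun m n hm hn => ⟨fun A b hAb => ?_,
      fun A b hAb k ans nums steps hrun => ?_⟩⟩
  · obtain ⟨hM1, hN1⟩ := hpos m n hm hn
    obtain ⟨hP1, hP2⟩ := hP m n hm hn
    obtain ⟨ρ', l, h4, h5⟩ := hexec m n A b hm hn hAb
    obtain ⟨ans, nums, steps, h6, h7, h8⟩ := (h3 (M m n) (N m n) hM1 hN1).1 _ _
      (hclass m n A b hm hn hAb)
    have h9 : p.eval (M m n + N m n) ≤ (p.comp P).eval (m + n) := by
      rw [Polynomial.eval_comp]
      exact eval_mono p hP1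
    have h10 : (p.comp P + P + p.comp ((P * P + P) * P)).eval (m + n) =
        (p.comp P).eval (m + n) + P.eval (m + n) + (p.comp ((P * P + P) * P)).eval (m + n) := by
      rw [Polynomial.eval_add, Polynomial.eval_add]
    refine ⟨ans, l ++ nums, l.length + steps, ?_, h7.trans (hfeas m n A b hm hn hAb), ?_⟩
    · rw [run_first (hβ m n) (hβ0 m n) h4, h5,
        TELIM.run_mono _ _ _ _ _ _ h6 _ (by omega)]
      rfl
    · have h11 := exec_length _ _ _ _ h4
      omega
  · obtain ⟨hM1, hN1⟩ := hpos m n hm hn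
    obtain ⟨hP1, hP2⟩ := hP m n hm hn
    obtain ⟨ρ', l, h4, h5⟩ := hexec m n _ _ hm hn hAb
    obtain ⟨h6, h7, h8⟩ := hrat m n A b hm hn hAb
    have h12 := dims_le_inputLength hm hn A b
    set L := inputLength A b with hL
    choose A₁ hA₁ hA₂ using h6
    choose b₁ hb₁ hb₂ using h7
    have hAeq : (fun i j => ((A₁ i j : ℚ) : ℝ)) =
        A' m n (fun i j => ((A i j : ℚ) : ℝ)) (fun i => ((b i : ℚ) : ℝ)) := by
      funext i j; exact hA₁ i j
    have hbeq : (fun i => ((b₁ i : ℚ) : ℝ)) =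
        b' m n (fun i j => ((A i j : ℚ) : ℝ)) (fun i => ((b i : ℚ) : ℝ)) := by
      funext i; exact hb₁ i
    rw [run_first (hβ m n) (hβ0 m n) h4, h5, ← hAeq, ← hbeq] at hrun
    obtain ⟨⟨ans', nums', steps'⟩, h9, h10⟩ := Option.map_eq_some_iff.1 hrun
    simp only [Prod.mk.injEq] at h10
    obtain ⟨-, h10, -⟩ := h10
    have hcl := hclass m n _ _ hm hn hAb
    rw [← hAeq, ← hbeq] at hcl
    have h11 := (h3 (M m n) (N m n) hM1 hN1).2 A₁ b₁ hcl k ans' nums' steps' h9
    have hev : (p.comp P + P + p.comp ((P * P + P) * P)).eval L =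
        (p.comp P).eval L + P.eval L + (p.comp ((P * P + P) * P)).eval L := by
      rw [Polynomial.eval_add, Polynomial.eval_add]
    have hin : inputLength A₁ b₁ ≤ ((P * P + P) * P).eval L := by
      have e1 : ∑ i, ∑ j, bitLength (A₁ i j) ≤ ∑ i : Fin (M m n), ∑ j : Fin (N m n), P.eval L :=
        Finset.sum_le_sum fun i _ => Finset.sum_le_sum fun j _ => hA₂ i j
      have e2 : ∑ i, bitLength (b₁ i) ≤ ∑ i : Fin (M m n), P.eval L :=
        Finset.sum_le_sum fun i _ => hb₂ i
      simp only [Finset.sum_const, Finset.card_univ, Fintype.card_fin, smul_eq_mul] at e1 e2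
      have e3 : P.eval (m + n) ≤ P.eval L := eval_mono P h12
      have e4 : M m n ≤ P.eval L := by omega
      have e5 : N m n ≤ P.eval L := by omega
      have e6 : inputLength A₁ b₁ ≤ M m n * (N m n * P.eval L) + M m n * P.eval L := by
        unfold inputLength
        omega
      refine e6.trans ?_
      simp only [Polynomial.eval_mul, Polynomial.eval_add]
      have e7 : M m n * (N m n * P.eval L) ≤ P.eval L * (P.eval L * P.eval L) :=
        Nat.mul_le_mul e4 (Nat.mul_le_mul e5 le_rfl)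
      have e8 : M m n * P.eval L ≤ P.eval L * P.eval L := Nat.mul_le_mul e4 le_rfl
      nlinarith
    intro v hv
    rw [← h10, List.mem_append] at hv
    rcases hv with hv | hv
    · obtain ⟨q, hq1, hq2⟩ := h8 ρ' l h4 v hv
      exact ⟨q, hq1, by omega⟩
    · obtain ⟨q, hq1, hq2⟩ := h11 v hv
      refine ⟨q, hq1, hq2.trans ?_⟩
      have e9 : p.eval (inputLength A₁ b₁) ≤ (p.comp ((P * P + P) * P)).eval L := by
        rw [Polynomial.eval_comp]
        exact eval_mono p hin
      omega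

/-- the transfer theorem, without the condition on the numbers computed -/
theorem transferR {C C' : SysClass} (M N : ℕ → ℕ → ℕ) (prog : ℕ → ℕ → List Instr)
    (A' : ∀ m n, Matrix (Fin m) (Fin n) ℝ → (Fin m → ℝ) → Matrix (Fin (M m n)) (Fin (N m n)) ℝ)
    (b' : ∀ m n, Matrix (Fin m) (Fin n) ℝ → (Fin m → ℝ) → Fin (M m n) → ℝ)
    (P : Polynomial ℕ)
    (hM : UPoly (fun p : HistIn => M p.1.1.length p.1.2.length))
    (hN : UPoly (fun p : HistIn => N p.1.1.length p.1.2.length))
    (hp : Poly (fun p : HistIn => prog p.1.1.length p.1.2.length))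
    (hpos : ∀ m n, 1 ≤ m → 1 ≤ n → 1 ≤ M m n ∧ 1 ≤ N m n)
    (hP : ∀ m n, 1 ≤ m → 1 ≤ n →
      M m n + N m n ≤ P.eval (m + n) ∧ (prog m n).length ≤ P.eval (m + n))
    (hexec : ∀ m n (A : Matrix (Fin m) (Fin n) ℝ) (b : Fin m → ℝ), 1 ≤ m → 1 ≤ n → C m n A b →
      ∃ ρ' l, exec (prog m n) (start A b) = some (ρ', l) ∧
        ρ' ∘ sh = start (A' m n A b) (b' m n A b))
    (hfeas : ∀ m n (A : Matrix (Fin m) (Fin n) ℝ) (b : Fin m → ℝ), 1 ≤ m → 1 ≤ n → C m n A b →
      ((∃ y, b' m n A b ≤ (A' m n A b).mulVec y) ↔ ∃ x : Fin n → ℝ, b ≤ A.mulVec x))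
    (hclass : ∀ m n (A : Matrix (Fin m) (Fin n) ℝ) (b : Fin m → ℝ), 1 ≤ m → 1 ≤ n → C m n A b →
      C' (M m n) (N m n) (A' m n A b) (b' m n A b))
    (hC : HasRealPolynomial C') : HasRealPolynomial C := by
  obtain ⟨α, h1, h2, p, h3⟩ := hC
  have h1p : Poly (fun p : HistIn => α p.1.1.length p.1.2.length p.2) := t_COMP2 _ _ _ h1
  have hβ : ∀ m n h, h ≠ [] → redAlg M N prog α m n h =
      ((α (M m n) (N m n) h).1.map shI, shT (α (M m n) (N m n) h).2) := by
    intro m n h hh
    simp [redAlg, hh]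
  have hβ0 : ∀ m n, redAlg M N prog α m n [] =
      (prog m n ++ (α (M m n) (N m n) []).1.map shI, shT (α (M m n) (N m n) []).2) := by
    intro m n
    simp [redAlg]
  refine ⟨redAlg M N prog α, t_COMP _ _ _ (poly_redAlg h1p hM hN hp), oracleFree_redAlg h2,
    p.comp P + P, fun m n hm hn A b hAb => ?_⟩
  obtain ⟨hM1, hN1⟩ := hpos m n hm hn
  obtain ⟨hP1, hP2⟩ := hP m n hm hn
  obtain ⟨ρ', l, h4, h5⟩ := hexec m n A b hm hn hAb
  obtain ⟨ans, nums, steps, h6, h7, h8⟩ := h3 (M m n) (N m n) hM1 hN1 _ _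
    (hclass m n A b hm hn hAb)
  have h9 : p.eval (M m n + N m n) ≤ (p.comp P).eval (m + n) := by
    rw [Polynomial.eval_comp]
    exact eval_mono p hP1
  have h10 : (p.comp P + P).eval (m + n) = (p.comp P).eval (m + n) + P.eval (m + n) := by
    rw [Polynomial.eval_add]
  refine ⟨ans, l ++ nums, l.length + steps, ?_, h7.trans (hfeas m n A b hm hn hAb), ?_⟩
  · rw [run_first (hβ m n) (hβ0 m n) h4, h5,
      TELIM.run_mono _ _ _ _ _ _ h6 _ (by omega)]
    rfl
  · have h11 := exec_length _ _ _ _ h4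
    omega

/-- running two programs one after the other -/
theorem exec_two {P Q : List Instr} {ρ ρ' ρ'' : Reg → ℝ} {l l' : List ℝ}
    (h1 : exec P ρ = some (ρ', l)) (h2 : exec Q (ρ' ∘ sh) = some (ρ'', l')) :
    ∃ ρ₃, exec (P ++ Q.map shI) ρ = some (ρ₃, l ++ l') ∧ ρ₃ ∘ sh = ρ'' := by
  rw [← exec_sh] at h2
  obtain ⟨⟨ρ₃, l₃⟩, h3, h4⟩ := Option.map_eq_some_iff.1 h2
  simp only [Prod.mk.injEq] at h4
  refine ⟨ρ₃, ?_, h4.1⟩
  rw [TELIM.exec_append P _ ρ ρ' l h1, h3, h4.2]
  rfl

end Pool.Agent.Y592.LN
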