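import Pool.Agent.Y592.LN.Exec

set_option autoImplicit false

/-!
# Normalisation: small entries, and right-hand sides `0` and `1`
-/

namespace Pool.Agent.Y592.LN

open Pool.Agent.NPC Pool.Agent.NPC.ER Pool.Agent.NPC.H612 Pool.Agent.H558R2 Pool.Agent.H622R3.SM

/-- a two-dimensional block -/
def blk2 (m n : ℕ) (f : ℕ → ℕ → Instr) : List Instr :=
  (List.range m).flatMap fun i => (List.range n).map fun j => f i j

theorem mem_blk2 {m n : ℕ} {f : ℕ → ℕ → Instr} {I : Instr} :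
    I ∈ blk2 m n f ↔ ∃ i < m, ∃ j < n, I = f i j := by
  simp only [blk2, List.mem_flatMap, List.mem_range, List.mem_map]
  constructor
  · rintro ⟨i, hi, j, hj, rfl⟩
    exact ⟨i, hi, j, hj, rfl⟩
  · rintro ⟨i, hi, j, hj, rfl⟩
    exact ⟨i, hi, j, hj, rfl⟩

theorem blk2_length (m n : ℕ) (f : ℕ → ℕ → Instr) : (blk2 m n f).length = m * n := by
  simp [blk2, List.length_flatMap]

/-- first source register of an entry of the extended matrix -/
def srcF (m n i j : ℕ) : Reg :=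
  if i < m then (if j < n then [0, i, j] else [3]) else if j = n then [2] else [3]

/-- second source register of an entry of the extended matrix -/
def srcG (m n i j : ℕ) : Reg := if i < m then (if j = n then [1, i] else [3]) else [3]

variable {m n : ℕ}

/-- entries of the extended matrix -/
noncomputable def tA (A : Matrix (Fin m) (Fin n) ℝ) (b : Fin m → ℝ) (i j : ℕ) : ℝ :=
  start A b (srcF m n i j) - start A b (srcG m n i j)

/-- running sums -/
noncomputable def Dd (K : ℕ) (A : Matrix (Fin m) (Fin n) ℝ) (b : Fin m → ℝ) (i j : ℕ) : ℝ :=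
  K + ∑ j' ∈ Finset.range j, K * tA A b i j' * tA A b i j'

/-- the normalised matrix -/
noncomputable def nA (K : ℕ) (A : Matrix (Fin m) (Fin n) ℝ) (b : Fin m → ℝ) :
    Matrix (Fin (m + 1)) (Fin (n + 1)) ℝ := fun i j => tA A b i j / Dd K A b i (n + 1)

/-- the normalised right-hand side -/
noncomputable def nb (m : ℕ) : Fin (m + 1) → ℝ := fun i => if (i : ℕ) = m then 1 else 0

/-- the values of the registers -/
noncomputable def nV (K : ℕ) (A : Matrix (Fin m) (Fin n) ℝ) (b : Fin m → ℝ) : Reg → ℝ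
  | 9 :: r => start (nA K A b) (nb m) r
  | [4, t] => if t ≤ K then (t : ℝ) else 0
  | [5, i, j] => if i ≤ m ∧ j ≤ n then tA A b i j else 0
  | [8, i, j] => if i ≤ m ∧ j ≤ n then K * tA A b i j else 0
  | [6, i, j] => if i ≤ m ∧ j ≤ n then K * tA A b i j * tA A b i j else 0
  | [7, i, j] => if i ≤ m ∧ j ≤ n + 1 then Dd K A b i j else 0
  | r => start A b r

/-- blocks of the program -/
def nP1 (K : ℕ) : List Instr := (List.range K).flatMap fun t => [⟨Op.add, [4, t + 1], [4, t], [2]⟩]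
def nP2 (m n : ℕ) : List Instr :=
  blk2 (m + 1) (n + 1) fun i j => ⟨Op.sub, [5, i, j], srcF m n i j, srcG m n i j⟩
def nP3 (K m n : ℕ) : List Instr :=
  blk2 (m + 1) (n + 1) fun i j => ⟨Op.mul, [8, i, j], [4, K], [5, i, j]⟩
def nP4 (m n : ℕ) : List Instr :=
  blk2 (m + 1) (n + 1) fun i j => ⟨Op.mul, [6, i, j], [8, i, j], [5, i, j]⟩
def nP5 (K m : ℕ) : List Instr :=
  blk2 (m + 1) 1 fun i _ => ⟨Op.add, [7, i, 0], [4, K], [3]⟩
def nP6 (m n : ℕ) : List Instr :=
  (List.range (n + 1)).flatMap fun j =>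
    blk2 (m + 1) 1 fun i _ => ⟨Op.add, [7, i, j + 1], [7, i, j], [6, i, j]⟩
def nP7 (m n : ℕ) : List Instr :=
  (blk2 (m + 1) (n + 1) fun i j => ⟨Op.div, [9, 0, i, j], [5, i, j], [7, i, n + 1]⟩) ++
    [⟨Op.add, [9, 1, m], [2], [3]⟩, ⟨Op.add, [9, 2], [2], [3]⟩]

/-- the program -/
def nprog (K m n : ℕ) : List Instr :=
  nP1 K ++ (nP2 m n ++ (nP3 K m n ++ (nP4 m n ++ (nP5 K m ++ (nP6 m n ++ nP7 m n)))))

theorem start_three (A : Matrix (Fin m) (Fin n) ℝ) (b : Fin m → ℝ) : start A b [3] = 0 := rfl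
theorem start_two (A : Matrix (Fin m) (Fin n) ℝ) (b : Fin m → ℝ) : start A b [2] = 1 := rfl

theorem nV_src (K : ℕ) (A : Matrix (Fin m) (Fin n) ℝ) (b : Fin m → ℝ) (i j : ℕ) :
    start A b (srcF m n i j) = nV K A b (srcF m n i j) ∧
    start A b (srcG m n i j) = nV K A b (srcG m n i j) := by
  unfold srcF srcG
  constructor <;> split_ifs <;> rfl

theorem Dd_pos {K : ℕ} (hK : 1 ≤ K) (A : Matrix (Fin m) (Fin n) ℝ) (b : Fin m → ℝ) (i j : ℕ) :
    0 < Dd K A b i j := by
  unfold Dd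
  have h1 : (0 : ℝ) < K := by exact_mod_cast hK
  have h2 : 0 ≤ ∑ j' ∈ Finset.range j, (K : ℝ) * tA A b i j' * tA A b i j' :=
    Finset.sum_nonneg fun j' _ => by
      rw [mul_assoc]
      exact mul_nonneg h1.le (mul_self_nonneg _)
  linarith

theorem start_nine (A : Matrix (Fin m) (Fin n) ℝ) (b : Fin m → ℝ) (r : Reg) :
    start A b (9 :: r) = 0 := by
  unfold start
  split <;> simp_all

theorem nexec {K : ℕ} (hK : 1 ≤ K) (A : Matrix (Fin m) (Fin n) ℝ) (b : Fin m → ℝ) :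
    ∃ ρ', exec (nprog K m n) (start A b) = some (ρ', (nprog K m n).map fun I => nV K A b I.dst) ∧
      ρ' ∘ sh = start (nA K A b) (nb m) := by
  set V := nV K A b with hV
  set S0 : Set Reg := {r | start A b r = V r} with hS0
  set S1 : Set Reg := S0 ∪ {r | ∃ t ≤ K, r = [4, t]} with hS1
  set S2 : Set Reg := S1 ∪ {r | ∃ i ≤ m, ∃ j ≤ n, r = [5, i, j]} with hS2
  set S3 : Set Reg := S2 ∪ {r | ∃ i ≤ m, ∃ j ≤ n, r = [8, i, j]} with hS3
  set S4 : Set Reg := S3 ∪ {r | ∃ i ≤ m, ∃ j ≤ n, r = [6, i, j]} with hS4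
  set S5 : ℕ → Set Reg := fun j' => S4 ∪ {r | ∃ i ≤ m, ∃ j ≤ j', r = [7, i, j]} with hS5
  have b2 : ([2] : Reg) ∈ S0 := rfl
  have b3 : ([3] : Reg) ∈ S0 := rfl
  have h01 : S0 ⊆ S1 := fun r hr => Or.inl hr
  have h12 : S1 ⊆ S2 := fun r hr => Or.inl hr
  have h23 : S2 ⊆ S3 := fun r hr => Or.inl hr
  have h34 : S3 ⊆ S4 := fun r hr => Or.inl hr
  have h45 : ∀ j, S4 ⊆ S5 j := fun j r hr => Or.inl hr
  -- first block
  have t1 : Tr V S0 (nP1 K) S1 := by
    have h0 : Tr V (S0 ∪ {r | ∃ t ≤ 0, r = [4, t]}) (nP1 K) (S0 ∪ {r | ∃ t ≤ K, r = [4, t]}) := by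
      refine Tr.range (S := fun k => S0 ∪ {r | ∃ t ≤ k, r = [4, t]}) K fun k hk => Tr.block ?_ ?_
      · intro I hI
        rw [List.mem_singleton] at hI
        subst hI
        refine ⟨Or.inr ⟨k, le_rfl, rfl⟩, Or.inl b2, ?_, by simp⟩
        simp only [hV, nV, Op.eval, start]
        rw [if_pos (by omega), if_pos (by omega)]
        push_cast
        ring
      · rintro r (hr | ⟨t, ht, rfl⟩)
        · exact Or.inl (Or.inl hr)
        · rcases Nat.lt_or_ge t (k + 1) with h | h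
          · exact Or.inl (Or.inr ⟨t, by omega, rfl⟩)
          · refine Or.inr ⟨_, List.mem_singleton.2 rfl, ?_⟩
            rw [show t = k + 1 by omega]
    intro ρ hρ
    refine h0 ρ ?_
    rintro r (hr | ⟨t, ht, rfl⟩)
    · exact hρ r hr
    · obtain rfl : t = 0 := by omega
      refine hρ _ ?_
      simp [hS0, hV, nV, start]
  have t2 : Tr V S1 (nP2 m n) S2 := by
    refine Tr.block ?_ ?_
    · intro I hI
      obtain ⟨i, hi, j, hj, rfl⟩ := mem_blk2.1 hI
      obtain ⟨e1, e2⟩ := nV_src K A b i j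
      refine ⟨h01 e1, h01 e2, ?_, by simp⟩
      simp only [Op.eval]
      rw [hV, ← e1, ← e2]
      simp only [nV]
      rw [if_pos ⟨by omega, by omega⟩]
      rfl
    · rintro r (hr | ⟨i, hi, j, hj, rfl⟩)
      · exact Or.inl hr
      · exact Or.inr ⟨_, mem_blk2.2 ⟨i, by omega, j, by omega, rfl⟩, rfl⟩
  have t3 : Tr V S2 (nP3 K m n) S3 := by
    refine Tr.block ?_ ?_
    · intro I hI
      obtain ⟨i, hi, j, hj, rfl⟩ := mem_blk2.1 hI
      refine ⟨h12 (Or.inr ⟨K, le_rfl, rfl⟩), Or.inr ⟨i, by omega, j, by omega, rfl⟩, ?_, by simp⟩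
      simp only [Op.eval, hV, nV]
      rw [if_pos ⟨by omega, by omega⟩, if_pos le_rfl, if_pos ⟨by omega, by omega⟩]
    · rintro r (hr | ⟨i, hi, j, hj, rfl⟩)
      · exact Or.inl hr
      · exact Or.inr ⟨_, mem_blk2.2 ⟨i, by omega, j, by omega, rfl⟩, rfl⟩
  have t4 : Tr V S3 (nP4 m n) S4 := by
    refine Tr.block ?_ ?_
    · intro I hI
      obtain ⟨i, hi, j, hj, rfl⟩ := mem_blk2.1 hI
      refine ⟨Or.inr ⟨i, by omega, j, by omega, rfl⟩,
        h23 (Or.inr ⟨i, by omega, j, by omega, rfl⟩), ?_, by simp⟩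
      simp only [Op.eval, hV, nV]
      rw [if_pos ⟨by omega, by omega⟩, if_pos ⟨by omega, by omega⟩, if_pos ⟨by omega, by omega⟩]
    · rintro r (hr | ⟨i, hi, j, hj, rfl⟩)
      · exact Or.inl hr
      · exact Or.inr ⟨_, mem_blk2.2 ⟨i, by omega, j, by omega, rfl⟩, rfl⟩
  have t5 : Tr V S4 (nP5 K m) (S5 0) := by
    refine Tr.block ?_ ?_
    · intro I hI
      obtain ⟨i, hi, j, hj, rfl⟩ := mem_blk2.1 hI
      refine ⟨h34 (h23 (h12 (Or.inr ⟨K, le_rfl, rfl⟩))), h34 (h23 (h12 (h01 b3))), ?_, by simp⟩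
      simp only [Op.eval, hV, nV, start]
      rw [if_pos ⟨by omega, by omega⟩, if_pos le_rfl]
      simp [Dd]
    · rintro r (hr | ⟨i, hi, j, hj, rfl⟩)
      · exact Or.inl hr
      · obtain rfl : j = 0 := by omega
        exact Or.inr ⟨_, mem_blk2.2 ⟨i, by omega, 0, by omega, rfl⟩, rfl⟩
  have t6 : Tr V (S5 0) (nP6 m n) (S5 (n + 1)) := by
    refine Tr.range (S := S5) (n + 1) fun k hk => Tr.block ?_ ?_
    · intro I hI
      obtain ⟨i, hi, j, hj, rfl⟩ := mem_blk2.1 hI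
      refine ⟨Or.inr ⟨i, by omega, k, le_rfl, rfl⟩,
        h45 _ (Or.inr ⟨i, by omega, k, by omega, rfl⟩), ?_, by simp⟩
      simp only [Op.eval, hV, nV]
      rw [if_pos ⟨by omega, by omega⟩, if_pos ⟨by omega, by omega⟩, if_pos ⟨by omega, by omega⟩]
      simp only [Dd, Finset.sum_range_succ]
      ring
    · rintro r (hr | ⟨i, hi, j, hj, rfl⟩)
      · exact Or.inl (Or.inl hr)
      · rcases Nat.lt_or_ge j (k + 1) with h | h
        · exact Or.inl (Or.inr ⟨i, hi, j, by omega, rfl⟩)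
        · obtain rfl : j = k + 1 := by omega
          exact Or.inr ⟨_, mem_blk2.2 ⟨i, by omega, 0, by omega, rfl⟩, rfl⟩
  have t7 : Tr V (S5 (n + 1)) (nP7 m n) {r | ∃ r', r = 9 :: r'} := by
    refine Tr.block ?_ ?_
    · intro I hI
      unfold nP7 at hI
      rw [List.mem_append] at hI
      rcases hI with hI | hI
      · obtain ⟨i, hi, j, hj, rfl⟩ := mem_blk2.1 hI
        refine ⟨h45 _ (h34 (h23 (Or.inr ⟨i, by omega, j, by omega, rfl⟩))),
          Or.inr ⟨i, by omega, n + 1, le_rfl, rfl⟩, ?_, fun _ => ?_⟩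
        · simp only [Op.eval, hV, nV, start]
          rw [dif_pos ⟨by omega, by omega⟩, if_pos ⟨by omega, by omega⟩,
            if_pos ⟨by omega, by omega⟩]
          rfl
        · simp only [hV, nV]
          rw [if_pos ⟨by omega, by omega⟩]
          exact (Dd_pos hK A b _ _).ne'
      · simp only [List.mem_cons, List.not_mem_nil, or_false] at hI
        rcases hI with rfl | rfl
        · refine ⟨h45 _ (h34 (h23 (h12 (h01 b2)))), h45 _ (h34 (h23 (h12 (h01 b3)))), ?_, by simp⟩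
          simp [Op.eval, hV, nV, start, nb]
        · refine ⟨h45 _ (h34 (h23 (h12 (h01 b2)))), h45 _ (h34 (h23 (h12 (h01 b3)))), ?_, by simp⟩
          simp [Op.eval, hV, nV, start]
    · rintro r ⟨r', rfl⟩
      by_cases h : (∃ i ≤ m, ∃ j ≤ n, r' = [0, i, j]) ∨ r' = [1, m] ∨ r' = [2]
      · right
        rcases h with ⟨i, hi, j, hj, rfl⟩ | rfl | rfl
        · exact ⟨_, List.mem_append_left _ (mem_blk2.2 ⟨i, by omega, j, by omega, rfl⟩), rfl⟩
        · exact ⟨⟨Op.add, [9, 1, m], [2], [3]⟩, by simp [nP7], rfl⟩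
        · exact ⟨⟨Op.add, [9, 2], [2], [3]⟩, by simp [nP7], rfl⟩
      · left
        refine h45 _ (h34 (h23 (h12 (h01 ?_))))
        show start A b (9 :: r') = V (9 :: r')
        rw [start_nine, hV, nV]
        unfold start
        split
        · rename_i i j
          rw [dif_neg]
          rintro ⟨h1, h2⟩
          exact h (Or.inl ⟨i, by omega, j, by omega, rfl⟩)
        · rename_i i
          split_ifs with h1
          · simp only [nb]
            rw [if_neg]
            rintro rfl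
            exact h (Or.inr (Or.inl rfl))
          · rfl
        · exact absurd (Or.inr (Or.inr rfl)) h
        · rfl
  obtain ⟨ρ', e1, e2⟩ := (t1.append (t2.append (t3.append (t4.append (t5.append (t6.append t7))))))
    (start A b) (fun r hr => hr)
  refine ⟨ρ', e1, ?_⟩
  funext r
  exact e2 (9 :: r) ⟨r, rfl⟩

end Pool.Agent.Y592.LN
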