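import Pool.Agent.Y592.LN.Norm

set_option autoImplicit false

/-!
# The normalisation reduction
-/

namespace Pool.Agent.Y592.LN

open Pool.Agent.NPC Pool.Agent.NPC.ER Pool.Agent.NPC.H612 Pool.Agent.H558R2 Pool.Agent.H622R3.SM

/-- entries at most `ε`, right-hand sides `0`, except for at most one, which is `1` -/
def SmallRows (ε : ℝ) : SysClass := fun _ _ A b =>
  (∀ i j, |A i j| ≤ ε) ∧ (∀ i, b i = 0 ∨ b i = 1) ∧ ∀ i i', b i ≠ 0 → b i' ≠ 0 → i = i'

section
variable {m n : ℕ} (A : Matrix (Fin m) (Fin n) ℝ) (b : Fin m → ℝ)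

theorem tA_mat (i : Fin m) (j : Fin n) : tA A b i j = A i j := by
  simp only [tA, srcF, srcG]
  rw [if_pos i.2, if_pos j.2, if_pos i.2, if_neg (by omega)]
  simp [start]

theorem tA_rhs (i : Fin m) : tA A b i n = -b i := by
  simp only [tA, srcF, srcG]
  rw [if_pos i.2, if_neg (by omega), if_pos i.2, if_pos trivial]
  simp [start]

theorem tA_last_lt (j : Fin n) : tA A b m j = 0 := by
  simp only [tA, srcF, srcG]
  rw [if_neg (by omega), if_neg (by omega), if_neg (by omega)]
  simp

theorem tA_last : tA A b m n = 1 := by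
  simp only [tA, srcF, srcG]
  rw [if_neg (by omega), if_pos trivial, if_neg (by omega)]
  simp [start]

theorem nA_mulVec_castSucc (K : ℕ) (y : Fin (n + 1) → ℝ) (i : Fin m) :
    (nA K A b).mulVec y i.castSucc =
      (A.mulVec (fun j => y j.castSucc) i - b i * y (Fin.last n)) / Dd K A b i (n + 1) := by
  simp only [Matrix.mulVec, dotProduct, Fin.sum_univ_castSucc, nA, Fin.val_castSucc,
    Fin.val_last, tA_mat, tA_rhs]
  rw [sub_div, Finset.sum_div]
  rw [sub_eq_add_neg]
  congr 1
  · exact Finset.sum_congr rfl fun j _ => by ring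
  · ring

theorem nA_mulVec_last (K : ℕ) (y : Fin (n + 1) → ℝ) :
    (nA K A b).mulVec y (Fin.last m) = y (Fin.last n) / Dd K A b m (n + 1) := by
  simp only [Matrix.mulVec, dotProduct, Fin.sum_univ_castSucc, nA, Fin.val_castSucc,
    Fin.val_last, tA_last_lt, tA_last]
  simp
  ring

theorem nfeas {K : ℕ} (hK : 1 ≤ K) :
    (∃ y, nb m ≤ (nA K A b).mulVec y) ↔ ∃ x : Fin n → ℝ, b ≤ A.mulVec x := by
  constructor
  · rintro ⟨y, hy⟩
    have h1 := hy (Fin.last m)
    rw [nA_mulVec_last, le_div_iff₀ (Dd_pos hK A b _ _)] at h1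
    have h2 : 0 < y (Fin.last n) := by
      have h3 := Dd_pos hK A b m (n + 1)
      simp only [nb, Fin.val_last, if_true, one_mul] at h1
      linarith
    refine ⟨fun j => y j.castSucc / y (Fin.last n), fun i => ?_⟩
    have h3 := hy i.castSucc
    rw [nA_mulVec_castSucc, le_div_iff₀ (Dd_pos hK A b _ _)] at h3
    have h4 : (nb m : Fin (m + 1) → ℝ) i.castSucc = 0 := by
      simp only [nb, Fin.val_castSucc]
      rw [if_neg (by omega)]
    rw [h4, zero_mul] at h3
    have h5 : A.mulVec (fun j => y j.castSucc / y (Fin.last n)) i =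
        A.mulVec (fun j => y j.castSucc) i / y (Fin.last n) := by
      simp only [Matrix.mulVec, dotProduct, Finset.sum_div]
      exact Finset.sum_congr rfl fun j _ => by ring
    rw [h5, le_div_iff₀ h2]
    linarith
  · rintro ⟨x, hx⟩
    set T := Dd K A b m (n + 1) with hT
    have hTp : 0 < T := Dd_pos hK A b _ _
    refine ⟨fun j => if h : (j : ℕ) < n then x ⟨j, h⟩ * T else T, fun i => ?_⟩
    refine Fin.lastCases ?_ (fun i => ?_) i
    · rw [nA_mulVec_last]
      simp only [nb, Fin.val_last, if_true, lt_irrefl, dif_neg, not_false_eq_true]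
      rw [← hT, div_self hTp.ne']
    · rw [nA_mulVec_castSucc]
      have h4 : (nb m : Fin (m + 1) → ℝ) i.castSucc = 0 := by
        simp only [nb, Fin.val_castSucc]
        rw [if_neg (by omega)]
      rw [h4]
      refine div_nonneg ?_ (Dd_pos hK A b _ _).le
      simp only [Fin.val_last, lt_irrefl, dif_neg, not_false_eq_true, Fin.val_castSucc, Fin.is_lt,
        dif_pos, Fin.eta]
      have h5 : A.mulVec (fun j => x j * T) i = A.mulVec x i * T := by
        simp only [Matrix.mulVec, dotProduct, Finset.sum_mul]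
        exact Finset.sum_congr rfl fun j _ => by ring
      rw [h5, ← sub_mul]
      exact mul_nonneg (sub_nonneg.2 (hx i)) hTp.le

theorem nclass {K : ℕ} (hK : 1 ≤ K) {ε : ℝ} (hε : 1 / (K : ℝ) ≤ ε) :
    SmallRows ε (m + 1) (n + 1) (nA K A b) (nb m) := by
  have hK' : (1 : ℝ) ≤ K := by exact_mod_cast hK
  refine ⟨fun i j => le_trans ?_ hε, fun i => ?_, fun i i' h h' => ?_⟩
  · unfold nA
    have h1 := Dd_pos hK A b i (n + 1)
    rw [abs_div, abs_of_pos h1, div_le_div_iff₀ h1 (by linarith), one_mul]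
    have h2 : (K : ℝ) * tA A b i j * tA A b i j ≤
        ∑ j' ∈ Finset.range (n + 1), (K : ℝ) * tA A b i j' * tA A b i j' :=
      Finset.single_le_sum (f := fun j' => (K : ℝ) * tA A b i j' * tA A b i j')
        (fun j' _ => by
          rw [mul_assoc]
          exact mul_nonneg (by linarith) (mul_self_nonneg _)) (Finset.mem_range.2 j.2)
    unfold Dd
    have h3 : |tA A b i j| ≤ 1 + tA A b i j * tA A b i j := by
      rw [← abs_mul_abs_self (tA A b i j)]
      nlinarith [sq_nonneg (|tA A b i j| - 1), abs_nonneg (tA A b i j)]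
    nlinarith
  · unfold nb
    split_ifs
    · right; rfl
    · left; rfl
  · simp only [nb, ne_eq, ite_eq_right_iff, one_ne_zero, imp_false, not_not] at h h'
    exact Fin.ext (h.trans h'.symm)

end

/-! ### Encoding lengths -/

theorem start_hb {m n : ℕ} {A : Matrix (Fin m) (Fin n) ℝ} {b : Fin m → ℝ} {h : ℕ} (hh : 1 ≤ h)
    (hA : ∀ i j, Hb h (A i j)) (hb : ∀ i, Hb h (b i)) (r : Reg) : Hb h (start A b r) := by
  have h0 : Hb h 0 := Hb.zero.mono hh
  have h1 : Hb h 1 := Hb.one.mono hh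
  unfold start
  split
  · split_ifs
    · exact hA _ _
    · exact h0
  · split_ifs
    · exact hb _
    · exact h0
  · exact h1
  · exact h0

theorem bit_le_A {m n : ℕ} (A : Matrix (Fin m) (Fin n) ℚ) (b : Fin m → ℚ) (i : Fin m)
    (j : Fin n) : bitLength (A i j) ≤ inputLength A b := by
  unfold inputLength
  have h1 : bitLength (A i j) ≤ ∑ j, bitLength (A i j) :=
    Finset.single_le_sum (f := fun j => bitLength (A i j)) (fun _ _ => Nat.zero_le _)
      (Finset.mem_univ j)
  have h2 : ∑ j, bitLength (A i j) ≤ ∑ i, ∑ j, bitLength (A i j) :=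
    Finset.single_le_sum (f := fun i => ∑ j, bitLength (A i j)) (fun _ _ => Nat.zero_le _)
      (Finset.mem_univ i)
  omega

theorem bit_le_b {m n : ℕ} (A : Matrix (Fin m) (Fin n) ℚ) (b : Fin m → ℚ) (i : Fin m) :
    bitLength (b i) ≤ inputLength A b := by
  unfold inputLength
  have h1 : bitLength (b i) ≤ ∑ i, bitLength (b i) :=
    Finset.single_le_sum (f := fun i => bitLength (b i)) (fun _ _ => Nat.zero_le _)
      (Finset.mem_univ i)
  omega

section
variable {m n : ℕ} {A : Matrix (Fin m) (Fin n) ℝ} {b : Fin m → ℝ}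

theorem tA_hb {L : ℕ} (hL : 1 ≤ L) (hA : ∀ i j, Hb L (A i j)) (hb : ∀ i, Hb L (b i))
    (i j : ℕ) : Hb L (tA A b i j) := by
  have hs := start_hb hL hA hb
  have h0 : Hb L 0 := Hb.zero.mono hL
  unfold tA srcF srcG
  split_ifs
  · omega
  all_goals simp only [start_three, sub_zero, zero_sub]
  all_goals first | exact hs _ | exact (hs _).neg | exact h0

theorem Dd_hb {L : ℕ} (K : ℕ) (hL : 1 ≤ L) (hA : ∀ i j, Hb L (A i j)) (hb : ∀ i, Hb L (b i))
    (i : ℕ) : ∀ j, Hb (K + 1 + j * (K + 2 * L + 2)) (Dd K A b i j) := by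
  intro j
  induction j with
  | zero => simpa [Dd] using Hb.nat K
  | succ j ih =>
    have h1 : Dd K A b i (j + 1) = Dd K A b i j + K * tA A b i j * tA A b i j := by
      simp only [Dd, Finset.sum_range_succ]
      ring
    rw [h1]
    have h2 := tA_hb hL hA hb i j
    refine (ih.add (((Hb.nat K).mul h2).mul h2)).mono (le_of_eq ?_)
    ring

theorem nV_hb {L : ℕ} (K : ℕ) (hL : 1 ≤ L) (hn : n ≤ L) (hA : ∀ i j, Hb L (A i j))
    (hb : ∀ i, Hb L (b i)) (r : Reg) :
    Hb (L + (K + 1 + (L + 1) * (K + 2 * L + 2))) (nV K A b r) := by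
  have hmul : ∀ j, j ≤ L + 1 → j * (K + 2 * L + 2) ≤ (L + 1) * (K + 2 * L + 2) :=
    fun j hj => Nat.mul_le_mul_right _ hj
  have hbig : K + 2 * L + 2 ≤ (L + 1) * (K + 2 * L + 2) := Nat.le_mul_of_pos_left _ (by omega)
  set H := L + (K + 1 + (L + 1) * (K + 2 * L + 2)) with hH
  have h0 : Hb H 0 := Hb.zero.mono (by omega)
  have ht := tA_hb hL hA hb
  unfold nV
  split
  · refine start_hb (by omega) (fun i j => ?_) (fun i => ?_) _
    · unfold nA
      exact ((ht _ _).div (Dd_hb K hL hA hb i (n + 1)) (by omega)).mono (by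
        have := hmul (n + 1) (by omega)
        omega)
    · unfold nb
      split_ifs
      · exact Hb.one.mono (by omega)
      · exact h0
  · split_ifs with h
    · exact (Hb.nat _).mono (by omega)
    · exact h0
  · split_ifs with h
    · exact (ht _ _).mono (by omega)
    · exact h0
  · split_ifs with h
    · exact ((Hb.nat K).mul (ht _ _)).mono (by omega)
    · exact h0
  · split_ifs with h
    · exact (((Hb.nat K).mul (ht _ _)).mul (ht _ _)).mono (by omega)
    · exact h0
  · split_ifs with h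
    · refine (Dd_hb K hL hA hb _ _).mono ?_
      have := hmul _ (h.2.trans (by omega : n + 1 ≤ L + 1))
      omega
    · exact h0
  · exact (start_hb hL hA hb _).mono (by omega)

end

/-! ### The reduction -/

theorem nprog_length (K m n : ℕ) :
    (nprog K m n).length = K + 5 * ((m + 1) * (n + 1)) + (m + 1) + 2 := by
  simp only [nprog, nP1, nP2, nP3, nP4, nP5, nP6, nP7, List.length_append, blk2_length,
    List.length_flatMap, List.map_const', List.sum_replicate, List.length_cons, List.length_nil,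
    List.length_range, smul_eq_mul]
  ring

section
variable {α : Type} [TEnc α]

attribute [local fun_prop] TPM.pInstr

theorem poly_blk2 {m n : α → ℕ} {f : α → ℕ → ℕ → Instr} (hm : UPoly m) (hn : UPoly n)
    (hf : Poly (fun p : (α × ℕ) × ℕ => f p.1.1 p.1.2 p.2)) :
    Poly (fun a => blk2 (m a) (n a) (f a)) := by
  unfold blk2
  exact NPC.Poly.flatMap (F := fun a i => (List.range (n a)).map fun j => f a i j) hm.range
    (NPC.Poly.map (F := fun (p : α × ℕ) j => f p.1 p.2 j)
      (UPoly.range (UPoly.comp hn (NPC.Poly.fst NPC.Poly.id))) hf)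

theorem poly_srcF {m n i j : α → ℕ} (hm : Poly m) (hn : Poly n) (hi : Poly i) (hj : Poly j) :
    Poly (fun a => srcF (m a) (n a) (i a) (j a)) := by
  unfold srcF
  fun_prop

theorem poly_srcG {m n i j : α → ℕ} (hm : Poly m) (hn : Poly n) (hi : Poly i) (hj : Poly j) :
    Poly (fun a => srcG (m a) (n a) (i a) (j a)) := by
  unfold srcG
  fun_prop

attribute [local fun_prop] poly_srcF poly_srcG

theorem poly_nprog (K : ℕ) {m n : α → ℕ} (hm : UPoly m) (hn : UPoly n) :
    Poly (fun a => nprog K (m a) (n a)) := by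
  have hm0 : Poly m := hm.toPoly
  have hn0 : Poly n := hn.toPoly
  have hm1 : UPoly (fun a => m a + 1) := UPoly.add hm (UPoly.const 1)
  have hn1 : UPoly (fun a => n a + 1) := UPoly.add hn (UPoly.const 1)
  unfold nprog nP1 nP2 nP3 nP4 nP5 nP6 nP7
  refine NPC.Poly.append (NPC.Poly.const _) (NPC.Poly.append ?_ (NPC.Poly.append ?_
    (NPC.Poly.append ?_ (NPC.Poly.append ?_ (NPC.Poly.append ?_ (NPC.Poly.append ?_ ?_))))))
  · exact poly_blk2 hm1 hn1 (by fun_prop)
  · exact poly_blk2 hm1 hn1 (by fun_prop)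
  · exact poly_blk2 hm1 hn1 (by fun_prop)
  · exact poly_blk2 hm1 (UPoly.const 1) (by fun_prop)
  · exact NPC.Poly.flatMap (F := fun a j => blk2 (m a + 1) 1 fun i _ =>
      ⟨Op.add, [7, i, j + 1], [7, i, j], [6, i, j]⟩) hn1.range
      (poly_blk2 (m := fun p : α × ℕ => m p.1 + 1) (UPoly.comp (n := fun a => m a + 1)
        (f := fun p : α × ℕ => p.1) hm1 (NPC.Poly.fst NPC.Poly.id)) (UPoly.const 1) (by fun_prop))
  · exact poly_blk2 hm1 hn1 (by fun_prop)
  · fun_prop

end

theorem u_m : UPoly (fun p : HistIn => p.1.1.length) :=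
  UPoly.length (NPC.Poly.fst (NPC.Poly.fst NPC.Poly.id))

theorem u_n : UPoly (fun p : HistIn => p.1.2.length) :=
  UPoly.length (NPC.Poly.snd (NPC.Poly.fst NPC.Poly.id))

/-- a polynomial bound for the normalisation -/
noncomputable def nPol (K : ℕ) : Polynomial ℕ :=
  2 * (Polynomial.X + (Polynomial.C (K + 1) + (Polynomial.X + 1) *
    (Polynomial.C (K + 2) + 2 * Polynomial.X))) + 1 +
  (Polynomial.C K + 5 * (Polynomial.X + 1) ^ 2 + Polynomial.X + 4)

theorem nPol_eval (K x : ℕ) : (nPol K).eval x =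
    2 * (x + (K + 1 + (x + 1) * (K + 2 + 2 * x))) + 1 + (K + 5 * (x + 1) ^ 2 + x + 4) := by
  simp [nPol]

theorem exists_K {ε : ℝ} (hε : 0 < ε) : ∃ K : ℕ, 1 ≤ K ∧ 1 / (K : ℝ) ≤ ε := by
  obtain ⟨K', hK'⟩ := exists_nat_gt (1 / ε)
  refine ⟨K' + 1, by omega, ?_⟩
  rw [div_le_iff₀ (by positivity)]
  rw [div_lt_iff₀ hε] at hK'
  push_cast
  nlinarith

theorem nsize (K m n : ℕ) : m + 1 + (n + 1) ≤ (nPol K).eval (m + n) ∧
    (nprog K m n).length ≤ (nPol K).eval (m + n) := by
  rw [nPol_eval, nprog_length]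
  have h1 : (m + 1) * (n + 1) ≤ (m + n + 1) ^ 2 := by nlinarith
  constructor
  · nlinarith
  · nlinarith

theorem normalise {ε : ℝ} (hε : 0 < ε) (h : HasStronglyPolynomial (SmallRows ε)) :
    HasStronglyPolynomial All := by
  obtain ⟨K, hK, hKε⟩ := exists_K hε
  refine transfer (C := All) (C' := SmallRows ε) (fun m _ => m + 1) (fun _ n => n + 1) (nprog K)
    (fun m n A b => nA K A b) (fun m n A b => nb m) (nPol K)
    (UPoly.add u_m (UPoly.const 1)) (UPoly.add u_n (UPoly.const 1)) (poly_nprog K u_m u_n)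
    (fun m n hm hn => ⟨by omega, by omega⟩) (fun m n hm hn => nsize K m n)
    (fun m n A b hm hn _ => ?_) (fun m n A b hm hn _ => nfeas A b hK)
    (fun m n A b hm hn _ => nclass A b hK hKε) (fun m n A b hm hn _ => ?_) h
  · obtain ⟨ρ', e1, e2⟩ := nexec hK A b
    exact ⟨ρ', _, e1, e2⟩
  · set L := inputLength A b with hL
    have hL1 : m + n ≤ L := dims_le_inputLength hm hn A b
    have hA : ∀ i j, Hb L ((A i j : ℚ) : ℝ) := fun i j => (Hb.of_bitLength _).mono (bit_le_A A b i j)
    have hb : ∀ i, Hb L ((b i : ℚ) : ℝ) := fun i => (Hb.of_bitLength _).mono (bit_le_b A b i)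
    have hbd := nV_hb (A := fun i j => ((A i j : ℚ) : ℝ)) (b := fun i => ((b i : ℚ) : ℝ)) K
      (by omega) (by omega : n ≤ L) hA hb
    have hrb : ∀ r, Rb ((nPol K).eval L)
        (nV K (fun i j => ((A i j : ℚ) : ℝ)) (fun i => ((b i : ℚ) : ℝ)) r) := by
      intro r
      refine (hbd r).toRb.mono ?_
      rw [nPol_eval]
      have : (L + 1) * (K + 2 + 2 * L) = (L + 1) * (K + 2 * L + 2) := by ring
      omega
    refine ⟨fun r c => ?_, fun r => ?_, fun ρ' l hl v hv => ?_⟩
    · have h1 := hrb [9, 0, r, c]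
      simp only [nV, start] at h1
      rw [dif_pos ⟨r.2, c.2⟩] at h1
      exact h1
    · have h1 := hrb [9, 1, r]
      simp only [nV, start] at h1
      rw [dif_pos r.2] at h1
      exact h1
    · obtain ⟨ρ'', e1, e2⟩ := nexec hK (fun i j => ((A i j : ℚ) : ℝ)) (fun i => ((b i : ℚ) : ℝ))
      rw [e1] at hl
      simp only [Option.some.injEq, Prod.mk.injEq] at hl
      rw [← hl.2, List.mem_map] at hv
      obtain ⟨I, hI, rfl⟩ := hv
      exact hrb _

theorem normaliseR {ε : ℝ} (hε : 0 < ε) (h : HasRealPolynomial (SmallRows ε)) :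
    HasRealPolynomial All := by
  obtain ⟨K, hK, hKε⟩ := exists_K hε
  refine transferR (C := All) (C' := SmallRows ε) (fun m _ => m + 1) (fun _ n => n + 1) (nprog K)
    (fun m n A b => nA K A b) (fun m n A b => nb m) (nPol K)
    (UPoly.add u_m (UPoly.const 1)) (UPoly.add u_n (UPoly.const 1)) (poly_nprog K u_m u_n)
    (fun m n hm hn => ⟨by omega, by omega⟩) (fun m n hm hn => nsize K m n)
    (fun m n A b hm hn _ => ?_) (fun m n A b hm hn _ => nfeas A b hK)
    (fun m n A b hm hn _ => nclass A b hK hKε) h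
  obtain ⟨ρ', e1, e2⟩ := nexec hK A b
  exact ⟨ρ', _, e1, e2⟩

end Pool.Agent.Y592.LN
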